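import Pool.Agent.H257R2.OS.T1

/-!
# C1: on-time jobs are inside their windows
-/

namespace Pool.Agent.H257R2.OS

open Finset

namespace C1

theorem sb_lt {m i e : ℕ} (hi : i < m) : sb m i e < m := by
  unfold sb
  split_ifs <;> omega

theorem hf_lt {m i : ℕ} (hi : i < m) (hodd : m % 2 = 1) : hf m i < m := by
  unfold hf
  split_ifs <;> omega

theorem b_pos (p : Par) : 0 < p.b := by unfold Par.b; omega

theorem L_eq (p : Par) : p.L = p.N * p.b + p.m := rfl

theorem succ_L (p : Par) (t : ℕ) : (t + 1) * p.L = t * p.L + p.L := by ring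

theorem zb_lt {p : Par} {z : ℕ} (hz : z < p.N) : z * p.b < p.N * p.b :=
  Nat.mul_lt_mul_of_pos_right hz (b_pos p)

/-- deadline of a later region -/
theorem dl_ge (p : Par) {t k y : ℕ} (ht : t < p.R) (hk : 1 ≤ k) :
    (t + 1) * p.L + 1 ≤ p.dl (t + k) y := by
  unfold Par.dl
  split_ifs with h
  · have : (t + 1) * p.L ≤ (t + k) * p.L := Nat.mul_le_mul_right _ (by omega)
    omega
  · have : (t + 1) * p.L ≤ p.R * p.L := Nat.mul_le_mul_right _ (by omega)
    omega

theorem sg_eq (p : Par) (z : ℕ → ℕ) {t : ℕ} (ht : t < p.R) :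
    p.sg z t = t * p.L + z t * p.b := by
  unfold Par.sg
  rw [if_pos ht]

theorem sg_lt (p : Par) (z : ℕ → ℕ) {t : ℕ} (ht : t < p.R) (hz : z t < p.N) :
    p.sg z t < (t + 1) * p.L := by
  rw [sg_eq p z ht, succ_L, L_eq]
  have := zb_lt hz
  omega

theorem sg_lt_dl (p : Par) (z : ℕ → ℕ) (hz : ∀ t < p.R, z t < p.N) {t j k y : ℕ}
    (hjk : j ≤ k) (hy : t + k < p.R → y = z (t + k)) : p.sg z (t + j) < p.dl (t + k) y := by
  by_cases hs : t + j < p.R
  · rcases Nat.lt_or_ge j k with h | h
    · have h1 := sg_lt p z hs (hz _ hs)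
      have h2 := dl_ge p (t := t + j) (k := k - j) (y := y) hs (by omega)
      have h3 : t + j + (k - j) = t + k := by omega
      rw [h3] at h2
      omega
    · have hk : k = j := by omega
      subst hk
      rw [hy hs, sg_eq p z hs]
      unfold Par.dl
      rw [if_pos hs]
      omega
  · unfold Par.sg Par.dl
    rw [if_neg hs, if_neg (by omega)]
    omega

theorem sg_ge (p : Par) (z : ℕ → ℕ) {t j : ℕ} (ht : t < p.R) (hj : 1 ≤ j) :
    (t + 1) * p.L ≤ p.sg z (t + j) := by
  unfold Par.sg
  split_ifs with h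
  · have : (t + 1) * p.L ≤ (t + j) * p.L := Nat.mul_le_mul_right _ (by omega)
    omega
  · have : (t + 1) * p.L ≤ p.R * p.L := Nat.mul_le_mul_right _ (by omega)
    omega

theorem xv_le (p : Par) (z : ℕ → ℕ) (J : Bool) (t : ℕ) : p.xv z J t ≤ z t := by
  unfold Par.xv
  split_ifs
  · exact Nat.zero_le _
  · exact le_rfl

end C1

open C1 in
/-- C1: on-time jobs are inside their windows -/
theorem st_window (p : Par) (ok : p.Ok) (hodd : p.m % 2 = 1) (z : ℕ → ℕ) (hz : p.Solves z) {x : Tag}
    (hx : x ∈ p.tags) (ho : p.on z x) {i : ℕ} (hi : i < p.m) :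
    p.release x ≤ p.st z x i ∧ p.st z x i < p.due x := by
  have hzN := hz.1
  rcases x with ⟨t, e⟩ | t | ⟨f, t, c, e⟩ | ⟨J, t, x, y⟩
  · have h1 := sb_lt (e := e + 2) hi
    simp only [Par.release, Par.due, Par.st]
    omega
  · rw [mem_dd] at hx
    simp only [Par.release, Par.due, Par.st]
    have h1 := zb_lt (hzN t hx)
    split_ifs with h
    · rw [sg_eq p z hx]
      omega
    · omega
  · cases f
    · simp only [Par.release, Par.due, Par.st, Bool.false_eq_true, if_false]
      have h1 := sb_lt (e := e) hi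
      have h2 := hf_lt hi hodd
      have h3 : p.b = p.m + 1 := rfl
      split_ifs <;> omega
    · simp only [Par.release, Par.due, Par.st, if_true]
      have h1 := sb_lt (e := e) hi
      have h3 : p.b = p.m + 1 := rfl
      split_ifs <;> omega
  · rw [mem_gl] at hx
    obtain ⟨ht, hxN, hyN, -⟩ := hx
    have hxz : x ≤ z t := by
      rw [ho.1]
      exact xv_le p z J t
    have hy : t + p.span J < p.R → y = z (t + p.span J) := by
      intro h
      rw [ho.2]
      unfold Par.yv
      rw [if_pos h]
    have hspan : 1 ≤ p.span J := by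
      unfold Par.span
      split_ifs
      · have := ok.hK; omega
      · exact le_rfl
    have hb1 : x * p.b ≤ z t * p.b := Nat.mul_le_mul_right _ hxz
    have hb2 := zb_lt (hzN t ht)
    have hL := L_eq p
    have hsL := succ_L p t
    have hdl := dl_ge p (y := y) ht hspan
    have hsg := sg_eq p z ht
    have hsg0 := sg_lt p z ht (hzN t ht)
    have hK := ok.hK
    have hm : p.m = p.K + 4 := rfl
    cases J
    · simp only [Par.release, Par.due, Par.st]
      have hs1 : p.span false = 1 := rfl
      rw [hs1] at hy hdl ⊢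
      have h2 := sg_lt_dl p z hzN (le_refl 1) hy
      have h3 := sg_ge p z ht (le_refl 1)
      split_ifs <;> omega
    · simp only [Par.release, Par.due, Par.st]
      have hs1 : p.span true = p.K := rfl
      rw [hs1] at hy hdl ⊢
      split_ifs with g1 g2 g3 g4
      · omega
      · omega
      · omega
      · omega
      · have h2 := sg_lt_dl p z hzN (j := i - 2) (k := p.K) (by omega) hy
        have h3 := sg_ge p z (j := i - 2) ht (by omega)
        omega

end Pool.Agent.H257R2.OS
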