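import Pool.Agent.H257R2.OS.T1

/-!
C2: a job is not on two machines at the same time.
-/

namespace Pool.Agent.H257R2.OS

open Finset

private theorem c2_sb {m i i' e : ℕ} (he : e < m) (hi : i < m) (hi' : i' < m)
    (h : sb m i e = sb m i' e) : i = i' := by
  unfold sb at h
  split_ifs at h <;> omega

private theorem c2_hf {m i i' : ℕ} (hodd : m % 2 = 1) (hi : i < m) (hi' : i' < m)
    (h : hf m i = hf m i') : i = i' := by
  unfold hf at h
  split_ifs at h <;> omega

private theorem c2_row (p : Par) {z : ℕ → ℕ} (hz : ∀ t < p.R, z t < p.N) {t : ℕ} (ht : t < p.R) :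
    p.sg z t < t * p.L + p.N * p.b ∧ t * p.L + p.N * p.b + p.m = (t + 1) * p.L := by
  have h1 : (z t + 1) * p.b ≤ p.N * p.b := Nat.mul_le_mul_right _ (hz t ht)
  have hb : 0 < p.b := Nat.succ_pos _
  unfold Par.sg
  rw [if_pos ht]
  rw [add_mul, one_mul] at h1
  refine ⟨by omega, ?_⟩
  unfold Par.L
  ring

private theorem c2_mono (p : Par) {z : ℕ → ℕ} (hz : ∀ t < p.R, z t < p.N) :
    StrictMono (p.sg z) := by
  refine strictMono_nat_of_lt_succ fun s => ?_
  rcases Nat.lt_or_ge s p.R with hs | hs
  · obtain ⟨h1, h2⟩ := c2_row p hz hs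
    have h3 : (s + 1) * p.L ≤ p.sg z (s + 1) := by
      unfold Par.sg
      split_ifs with h
      · omega
      · have : s + 1 = p.R := by omega
        rw [this]
        omega
    omega
  · unfold Par.sg
    rw [if_neg (by omega), if_neg (by omega)]
    omega

/-- C2: a job is not on two machines at the same time -/
theorem st_job (p : Par) (ok : p.Ok) (hodd : p.m % 2 = 1) (z : ℕ → ℕ) (hz : p.Solves z) {x : Tag}
    (hx : x ∈ p.tags) (ho : p.on z x) {i i' : ℕ} (hi : i < p.m) (hi' : i' < p.m)
    (h : p.st z x i = p.st z x i') : i = i' := by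
  have hm : 6 ≤ p.m := by
    have := ok.hK
    unfold Par.m
    omega
  have hmono := c2_mono p hz.1
  have hrow : ∀ t < p.R, p.sg z t < t * p.L + p.N * p.b ∧
      ∀ j, 1 ≤ j → t * p.L + p.N * p.b + p.m ≤ p.sg z (t + j) := by
    intro t ht
    obtain ⟨h1, h2⟩ := c2_row p hz.1 ht
    refine ⟨h1, fun j hj => ?_⟩
    rw [h2]
    refine le_trans ?_ (hmono.monotone (show t + 1 ≤ t + j by omega))
    unfold Par.sg
    split_ifs with h3
    · omega
    · have : t + 1 = p.R := by omega
      rw [this]
      omega
  cases x with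
  | zt t e =>
    rw [mem_zt] at hx
    simp only [Par.st] at h
    exact c2_sb (e := e + 2) (by omega) hi hi' (by omega)
  | dd t =>
    rw [mem_dd] at hx
    obtain ⟨h1, _⟩ := hrow t hx
    simp only [Par.st] at h
    split_ifs at h <;> omega
  | lo f t c e =>
    rw [mem_lo] at hx
    cases f
    · simp only [Par.st] at h
      split_ifs at h
      · exact c2_sb hx.2.2 hi hi' (by omega)
      · exact c2_hf hodd hi hi' (by omega)
    · simp only [Par.st] at h
      split_ifs at h
      · omega
      · omega
      · omega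
      · exact c2_sb hx.2.2 hi hi' (by omega)
  | gl J t x y =>
    rw [mem_gl] at hx
    obtain ⟨h1, h2⟩ := hrow t (by tauto)
    cases J
    · have h3 := h2 1 (le_refl _)
      simp only [Par.st] at h
      split_ifs at h <;> omega
    · have a1 := h2 (i - 2)
      have a2 := h2 (i' - 2)
      have a3 : p.sg z (t + (i - 2)) = p.sg z (t + (i' - 2)) → t + (i - 2) = t + (i' - 2) :=
        fun h => hmono.injective h
      simp only [Par.st] at h
      split_ifs at h <;> omega

end Pool.Agent.H257R2.OS
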