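import Pool.Agent.H257R2.OS.T1

namespace Pool.Agent.H257R2.OS

open Finset

/-- the job which is processed by machine `i` in the column slot `(t, c, o)` -/
def locA (p : Par) (z : ℕ → ℕ) (i t c o : ℕ) : Tag :=
  if c = z t then
    if o = 0 then
      if i = p.m - 1 then .dd t else
      if i = 1 then .gl false t (p.xv z false t) (p.yv z false t) else
      if i = 2 then .gl false (t - 1) (p.xv z false (t - 1)) (p.yv z false (t - 1)) else
      if i = 0 then .gl true t (p.xv z true t) (p.yv z true t) else
      .gl true (t - (i - 2)) (p.xv z true (t - (i - 2))) (p.yv z true (t - (i - 2)))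
    else .lo false t c (sb p.m i (o - 1))
  else
    if o = 0 then .lo true t c (hf p.m i) else
    if o - 1 = hf p.m i then .lo false t c 0 else .lo true t c (sb p.m i (o - 1))

/-- the job which is processed by machine `i` in the zone slot `(t, o)` -/
def locB (p : Par) (z : ℕ → ℕ) (i t o : ℕ) : Tag :=
  if sb p.m i o = 0 then
    if o = p.m - 1 then .gl true t (p.xv z true t) (p.yv z true t) else .dd t
  else if sb p.m i o = 1 then
    if o < 2 then .gl true t (p.xv z true t) (p.yv z true t)
    else .gl false t (p.xv z false t) (p.yv z false t)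
  else .zt t (sb p.m i o - 2)

/-- the job which is processed by machine `i` in the virtual slot `v` -/
def locC (p : Par) (z : ℕ → ℕ) (i v : ℕ) : Tag :=
  if i = 2 then .gl false (p.R - 1) (p.xv z false (p.R - 1)) (p.yv z false (p.R - 1))
  else .gl true (p.R + v - (i - 2)) (p.xv z true (p.R + v - (i - 2)))
    (p.yv z true (p.R + v - (i - 2)))

/-- decoder -/
def dec (p : Par) (z : ℕ → ℕ) (i τ : ℕ) : Tag :=
  if p.R * p.L ≤ τ then locC p z i (τ - p.R * p.L)
  else if p.N * p.b ≤ τ % p.L then locB p z i (τ / p.L) (τ % p.L - p.N * p.b)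
  else locA p z i (τ / p.L) (τ % p.L / p.b) (τ % p.L % p.b)

theorem c3_pos (p : Par) : 0 < p.m ∧ 0 < p.b ∧ 0 < p.L := by
  unfold Par.L Par.b Par.m
  refine ⟨by omega, by omega, ?_⟩
  have : 0 ≤ p.N * (p.K + 4 + 1) := Nat.zero_le _
  omega

theorem c3_lt {a b L u : ℕ} (h : a < b) (hu : u < L) : a * L + u < b * L := by
  have : (a + 1) * L ≤ b * L := Nat.mul_le_mul_right L h
  rw [Nat.add_mul, Nat.one_mul] at this
  omega

theorem c3_div {a L u : ℕ} (hu : u < L) : (a * L + u) / L = a := by
  rw [Nat.mul_comm, Nat.mul_add_div (by omega), Nat.div_eq_of_lt hu, Nat.add_zero]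

theorem c3_mod {a L u : ℕ} (hu : u < L) : (a * L + u) % L = u := by
  rw [Nat.mul_comm, Nat.mul_add_mod, Nat.mod_eq_of_lt hu]

theorem dec_A (p : Par) (z : ℕ → ℕ) (i : ℕ) {t c o : ℕ} (ht : t < p.R) (hc : c < p.N)
    (ho : o < p.b) : dec p z i (t * p.L + c * p.b + o) = locA p z i t c o := by
  obtain ⟨h1, h2, h3⟩ := c3_pos p
  have e1 : c * p.b + o < p.N * p.b := c3_lt hc ho
  have e2 : c * p.b + o < p.L := by unfold Par.L; omega
  have e3 : t * p.L + (c * p.b + o) < p.R * p.L := c3_lt ht e2
  unfold dec
  rw [Nat.add_assoc, if_neg (by omega), c3_mod e2, c3_div e2, if_neg (by omega), c3_div ho,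
    c3_mod ho]

theorem dec_B (p : Par) (z : ℕ → ℕ) (i : ℕ) {t o : ℕ} (ht : t < p.R)
    (ho : o < p.m) : dec p z i (t * p.L + p.N * p.b + o) = locB p z i t o := by
  have e2 : p.N * p.b + o < p.L := by unfold Par.L; omega
  have e3 : t * p.L + (p.N * p.b + o) < p.R * p.L := c3_lt ht e2
  unfold dec
  rw [Nat.add_assoc, if_neg (by omega), c3_mod e2, c3_div e2, if_pos (by omega)]
  congr 1
  omega

theorem dec_C (p : Par) (z : ℕ → ℕ) (i v : ℕ) :
    dec p z i (p.R * p.L + v) = locC p z i v := by
  unfold dec
  rw [if_pos (by omega)]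
  congr 1
  omega

theorem dec_sg (p : Par) (z : ℕ → ℕ) (hz : ∀ t < p.R, z t < p.N) (i t : ℕ) :
    dec p z i (p.sg z t) = if t < p.R then locA p z i t (z t) 0 else locC p z i (t - p.R) := by
  unfold Par.sg
  split_ifs with h
  · have := dec_A p z i h (hz t h) (c3_pos p).2.1
    rwa [Nat.add_zero] at this
  · exact dec_C p z i _

theorem c3_sb_lt {m i e : ℕ} (hi : i < m) (he : e < m) : sb m i e < m := by
  unfold sb; split_ifs <;> omega

theorem c3_sb_sb {m i e : ℕ} (hi : i < m) (he : e < m) : sb m i (sb m i e) = e := by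
  unfold sb; split_ifs <;> omega

theorem c3_hf_lt {m i : ℕ} (hi : i < m) (hm : m % 2 = 1) : hf m i < m := by
  unfold hf; split_ifs <;> omega

theorem c3_hf_db {m f : ℕ} (hf' : f < m) (hm : m % 2 = 1) : hf m (db m f) = f := by
  unfold hf db; split_ifs <;> omega

/-- the decoder recovers the job -/
theorem dec_st (p : Par) (ok : p.Ok) (hodd : p.m % 2 = 1) (z : ℕ → ℕ) (hz : ∀ t < p.R, z t < p.N)
    {x : Tag} (hx : x ∈ p.tags) (hox : p.on z x) {i : ℕ} (hi : i < p.m) :
    dec p z i (p.st z x i) = x := by
  have hm : 6 ≤ p.m := by have := ok.hK; unfold Par.m; omega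
  have hK := ok.hK
  have hR := ok.hR
  have hb : p.b = p.m + 1 := rfl
  have hmK : p.m = p.K + 4 := rfl
  rcases x with ⟨t, e⟩ | t | ⟨f, t, c, e⟩ | ⟨J, t, x, y⟩
  · rw [mem_zt] at hx
    have h1 : e + 2 < p.m := by omega
    show dec p z i (t * p.L + p.N * p.b + sb p.m i (e + 2)) = _
    rw [dec_B p z i hx.1 (c3_sb_lt hi h1)]
    unfold locB
    rw [c3_sb_sb hi h1, if_neg (by omega), if_neg (by omega)]
    congr 1
  · rw [mem_dd] at hx
    show dec p z i (if i = p.m - 1 then p.sg z t else t * p.L + p.N * p.b + i) = _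
    split_ifs with h
    · rw [dec_sg p z hz, if_pos hx]
      unfold locA
      rw [if_pos rfl, if_pos rfl, if_pos h]
    · rw [dec_B p z i hx (by omega)]
      unfold locB
      have : sb p.m i i = 0 := by unfold sb; rw [if_pos (le_refl _)]; omega
      rw [if_pos this, if_neg (by omega)]
  · rw [mem_lo] at hx
    obtain ⟨ht, hc, he⟩ := hx
    cases f
    · have ho : c = z t ∨ e = 0 := hox
      show dec p z i (if c = z t then t * p.L + c * p.b + 1 + sb p.m i e
        else t * p.L + c * p.b + 1 + hf p.m i) = _
      by_cases h : c = z t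
      · have h2 := c3_sb_lt hi he
        rw [if_pos h, Nat.add_assoc, dec_A p z i ht hc (by omega)]
        unfold locA
        rw [if_pos h, if_neg (by omega), Nat.add_sub_cancel_left, c3_sb_sb hi he]
      · have h2 := c3_hf_lt hi hodd
        rw [if_neg h, Nat.add_assoc, dec_A p z i ht hc (by omega)]
        unfold locA
        have h3 : e = 0 := by rcases ho with ho | ho; exact absurd ho h; exact ho
        rw [if_neg h, if_neg (by omega), Nat.add_sub_cancel_left, if_pos rfl, h3]
    · have ho : c ≠ z t := hox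
      show dec p z i (if i = db p.m e then t * p.L + c * p.b
        else t * p.L + c * p.b + 1 + sb p.m i e) = _
      by_cases h : i = db p.m e
      · have h4 := dec_A p z i ht hc (c3_pos p).2.1
        rw [Nat.add_zero] at h4
        rw [if_pos h, h4]
        unfold locA
        rw [if_neg ho, if_pos rfl, h, c3_hf_db he hodd]
      · have h2 := c3_sb_lt hi he
        rw [if_neg h, Nat.add_assoc, dec_A p z i ht hc (by omega)]
        unfold locA
        have h5 : ¬ (sb p.m i e = hf p.m i) := by
          intro h6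
          apply h
          unfold sb hf at h6
          unfold db
          split_ifs at h6 ⊢ <;> omega
        rw [if_neg ho, if_neg (by omega), Nat.add_sub_cancel_left, if_neg h5, c3_sb_sb hi he]
  · rw [mem_gl] at hx
    obtain ⟨ht, hx1, hy1, hrel⟩ := hx
    obtain ⟨ho1, ho2⟩ : x = p.xv z J t ∧ y = p.yv z J t := hox
    cases J
    · show dec p z i (if i = 1 then p.sg z t else if i = 2 then p.sg z (t + 1) else
        if i = 0 then t * p.L + p.N * p.b + (p.m - 1) else t * p.L + p.N * p.b + (i - 1)) = _
      by_cases h1 : i = 1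
      · rw [if_pos h1, dec_sg p z hz, if_pos ht]
        unfold locA
        rw [if_pos rfl, if_pos rfl, if_neg (by omega), if_pos h1, ho1, ho2]
      rw [if_neg h1]
      by_cases h2 : i = 2
      · rw [if_pos h2, dec_sg p z hz]
        split_ifs with h3
        · unfold locA
          rw [if_pos rfl, if_pos rfl, if_neg (by omega), if_neg h1, if_pos h2,
            Nat.add_sub_cancel, ho1, ho2]
        · unfold locC
          have h4 : p.R - 1 = t := by omega
          rw [if_pos h2, h4, ho1, ho2]
      rw [if_neg h2]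
      by_cases h3 : i = 0
      · rw [if_pos h3, dec_B p z i ht (by omega)]
        unfold locB
        have h4 : sb p.m i (p.m - 1) = 1 := by unfold sb; split_ifs <;> omega
        rw [if_neg (by omega), if_pos h4, if_neg (by omega), ho1, ho2]
      · rw [if_neg h3, dec_B p z i ht (by omega)]
        unfold locB
        have h4 : sb p.m i (i - 1) = 1 := by unfold sb; split_ifs <;> omega
        rw [if_neg (by omega), if_pos h4, if_neg (by omega), ho1, ho2]
    · show dec p z i (if i = 1 then t * p.L + p.N * p.b else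
        if i = 2 then t * p.L + p.N * p.b + 1 else
        if i = p.m - 1 then t * p.L + p.N * p.b + (p.m - 1) else
        if i = 0 then p.sg z t else p.sg z (t + (i - 2))) = _
      by_cases h1 : i = 1
      · have h5 := dec_B p z i ht (c3_pos p).1
        rw [Nat.add_zero] at h5
        rw [if_pos h1, h5]
        unfold locB
        have h4 : sb p.m i 0 = 1 := by unfold sb; split_ifs <;> omega
        rw [if_neg (by omega), if_pos h4, if_pos (by omega), ho1, ho2]
      rw [if_neg h1]
      by_cases h2 : i = 2
      · rw [if_pos h2, dec_B p z i ht (by omega)]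
        unfold locB
        have h4 : sb p.m i 1 = 1 := by unfold sb; split_ifs <;> omega
        rw [if_neg (by omega), if_pos h4, if_pos (by omega), ho1, ho2]
      rw [if_neg h2]
      by_cases h3 : i = p.m - 1
      · rw [if_pos h3, dec_B p z i ht (by omega)]
        unfold locB
        have h4 : sb p.m i (p.m - 1) = 0 := by unfold sb; split_ifs <;> omega
        rw [if_pos h4, if_pos rfl, ho1, ho2]
      rw [if_neg h3]
      by_cases h6 : i = 0
      · rw [if_pos h6, dec_sg p z hz, if_pos ht]
        unfold locA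
        rw [if_pos rfl, if_pos rfl, if_neg h3, if_neg h1, if_neg h2, if_pos h6, ho1, ho2]
      rw [if_neg h6, dec_sg p z hz]
      split_ifs with h7
      · unfold locA
        have h8 : t + (i - 2) - (i - 2) = t := by omega
        rw [if_pos rfl, if_pos rfl, if_neg h3, if_neg h1, if_neg h2, if_neg h6, h8, ho1, ho2]
      · unfold locC
        have h8 : p.R + (t + (i - 2) - p.R) - (i - 2) = t := by omega
        rw [if_neg h2, h8, ho1, ho2]

/-- C3: a machine does not process two jobs at the same time -/
theorem st_machine (p : Par) (ok : p.Ok) (hodd : p.m % 2 = 1) (z : ℕ → ℕ) (hz : p.Solves z)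
    {x y : Tag} (hx : x ∈ p.tags) (hox : p.on z x) (hy : y ∈ p.tags) (hoy : p.on z y) {i : ℕ}
    (hi : i < p.m) (h : p.st z x i = p.st z y i) : x = y := by
  rw [← dec_st p ok hodd z hz.1 hx hox hi, ← dec_st p ok hodd z hz.1 hy hoy hi, h]

end Pool.Agent.H257R2.OS
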