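import Pool.Agent.H257R2.OS.S6

/-!
# The value of the schedule (task C4)
-/

namespace Pool.Agent.H257R2.OS

open Finset

theorem c4_sum_two (N a b : ℕ) (ha : a < N) (hb : b < N) (P : ℕ → ℕ → Prop)
    [∀ x y, Decidable (P x y)] (Q : ℕ → ℕ → Prop) [∀ x y, Decidable (Q x y)]
    (hQ : ∀ x y, Q x y ↔ (x = a ∧ y = b)) (f : ℕ → ℕ → ℕ) (hP : P a b) :
    ∑ x ∈ range N, ∑ y ∈ range N, (if P x y then (if Q x y then f x y else 0) else 0) = f a b := by
  rw [Finset.sum_eq_single a, Finset.sum_eq_single b]
  · rw [if_pos hP, if_pos ((hQ a b).2 ⟨rfl, rfl⟩)]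
  · intro y _ hy
    have : ¬ Q a y := fun h => hy ((hQ a y).1 h).2
    rw [if_neg this, ite_self]
  · intro h; exact absurd (Finset.mem_range.2 hb) h
  · intro x _ hx
    refine Finset.sum_eq_zero fun y _ => ?_
    have : ¬ Q x y := fun h => hx ((hQ x y).1 h).1
    rw [if_neg this, ite_self]
  · intro h; exact absurd (Finset.mem_range.2 ha) h

theorem c4_sum_one (N a : ℕ) (ha : a < N) (u v : ℕ) :
    ∑ c ∈ range N, (if c = a then u else v) = (N - 1) * v + u := by
  rw [← Finset.add_sum_erase _ _ (Finset.mem_range.2 ha), if_pos rfl]
  rw [Finset.sum_congr rfl (g := fun _ => v)]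
  · rw [Finset.sum_const, Finset.card_erase_of_mem (Finset.mem_range.2 ha), Finset.card_range,
      smul_eq_mul, add_comm]
  · intro c hc
    exact if_neg (Finset.ne_of_mem_erase hc)

theorem c4_gauss (n : ℕ) : ∑ t ∈ range n, (t + 1) = n * (n + 1) / 2 := by
  have h := Finset.sum_range_id (n + 1)
  rw [Finset.sum_range_succ'] at h
  simp only [add_zero, Nat.add_sub_cancel] at h
  rw [h, mul_comm]

theorem c4_xv (p : Par) (ok : p.Ok) (z : ℕ → ℕ) (hz : ∀ t < p.R, z t < p.N) (J : Bool) {t : ℕ}
    (ht : t < p.R) : p.xv z J t < p.N := by
  have := ok.hN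
  unfold Par.xv
  split_ifs
  · omega
  · exact hz t ht

theorem c4_yv (p : Par) (ok : p.Ok) (z : ℕ → ℕ) (hz : ∀ t < p.R, z t < p.N) (J : Bool) (t : ℕ) :
    p.yv z J t < p.N := by
  have := ok.hN
  unfold Par.yv
  split_ifs with h
  · exact hz _ h
  · omega

/-- C4: the value -/
theorem on_value (p : Par) (ok : p.Ok) (z : ℕ → ℕ) (hz : p.Solves z) :
    (p.tags.map fun x => if p.on z x then p.weight x else 0).sum = p.target := by
  rw [sum_tags]
  -- zone jobs
  have e1 : ∑ t ∈ range p.R, ∑ e ∈ range (p.m - 2),
      (if p.on z (.zt t e) then p.weight (.zt t e) else 0) =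
      p.R * ((p.m - 2) * ((p.R + 1) * p.E)) := by
    have : ∀ t ∈ range p.R, ∑ e ∈ range (p.m - 2),
        (if p.on z (.zt t e) then p.weight (.zt t e) else 0) =
        (p.m - 2) * ((p.R + 1) * p.E) := by
      intro t _
      have : ∀ e ∈ range (p.m - 2),
          (if p.on z (.zt t e) then p.weight (.zt t e) else 0) = (p.R + 1) * p.E := by
        intro e _
        exact if_pos trivial
      rw [Finset.sum_congr rfl this, Finset.sum_const, Finset.card_range, smul_eq_mul]
    rw [Finset.sum_congr rfl this, Finset.sum_const, Finset.card_range, smul_eq_mul]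
  have e2 : ∑ t ∈ range p.R, (if p.on z (.dd t) then p.weight (.dd t) else 0) =
      p.R * ((p.R + 1) * p.E) := by
    have : ∀ t ∈ range p.R, (if p.on z (.dd t) then p.weight (.dd t) else 0) =
        (p.R + 1) * p.E := by
      intro t _
      exact if_pos trivial
    rw [Finset.sum_congr rfl this, Finset.sum_const, Finset.card_range, smul_eq_mul]
  have e3 : ∑ t ∈ range p.R, ∑ c ∈ range p.N, ∑ e ∈ range p.m,
      ((if p.on z (.lo false t c e) then p.weight (.lo false t c e) else 0) +
        (if p.on z (.lo true t c e) then p.weight (.lo true t c e) else 0)) =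
      p.R * ((p.N - 1) * ((p.m * p.m + p.m + 1) * p.E) + (p.m * p.m + p.m) * p.E) := by
    have hb : ∀ t ∈ range p.R, ∑ c ∈ range p.N, ∑ e ∈ range p.m,
        ((if p.on z (.lo false t c e) then p.weight (.lo false t c e) else 0) +
          (if p.on z (.lo true t c e) then p.weight (.lo true t c e) else 0)) =
        (p.N - 1) * ((p.m * p.m + p.m + 1) * p.E) + (p.m * p.m + p.m) * p.E := by
      intro t ht
      have hc : ∀ c ∈ range p.N, ∑ e ∈ range p.m,
          ((if p.on z (.lo false t c e) then p.weight (.lo false t c e) else 0) +
            (if p.on z (.lo true t c e) then p.weight (.lo true t c e) else 0)) =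
          if c = z t then (p.m * p.m + p.m) * p.E else (p.m * p.m + p.m + 1) * p.E := by
        intro c _
        by_cases hcz : c = z t
        · rw [if_pos hcz]
          have : ∀ e ∈ range p.m,
              ((if p.on z (.lo false t c e) then p.weight (.lo false t c e) else 0) +
                (if p.on z (.lo true t c e) then p.weight (.lo true t c e) else 0)) =
              (p.m + 1) * p.E := by
            intro e _
            have h1 : p.on z (.lo false t c e) := Or.inl hcz
            have h2 : ¬ p.on z (.lo true t c e) := fun h => h hcz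
            rw [if_pos h1, if_neg h2]
            simp [Par.weight]
          rw [Finset.sum_congr rfl this, Finset.sum_const, Finset.card_range, smul_eq_mul]
          ring
        · rw [if_neg hcz]
          have : ∀ e ∈ range p.m,
              ((if p.on z (.lo false t c e) then p.weight (.lo false t c e) else 0) +
                (if p.on z (.lo true t c e) then p.weight (.lo true t c e) else 0)) =
              (if e = 0 then (p.m + 1) * p.E else 0) + p.m * p.E := by
            intro e _
            have h2 : p.on z (.lo true t c e) := hcz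
            have h1 : p.on z (.lo false t c e) ↔ e = 0 :=
              ⟨fun h => h.resolve_left hcz, fun h => Or.inr h⟩
            rw [if_pos h2]
            by_cases he : e = 0
            · rw [if_pos (h1.2 he), if_pos he]
              simp [Par.weight]
            · rw [if_neg (fun h => he (h1.1 h)), if_neg he]
              simp [Par.weight]
          have hm : 0 < p.m := by unfold Par.m; omega
          rw [Finset.sum_congr rfl this, Finset.sum_add_distrib, Finset.sum_const,
            Finset.card_range, smul_eq_mul, Finset.sum_ite_eq', if_pos (Finset.mem_range.2 hm)]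
          ring
      rw [Finset.sum_congr rfl hc, c4_sum_one p.N (z t) (hz.1 t (Finset.mem_range.1 ht))]
    rw [Finset.sum_congr rfl hb, Finset.sum_const, Finset.card_range, smul_eq_mul]
  have e4 : ∑ t ∈ range p.R, ∑ x ∈ range p.N, ∑ y ∈ range p.N,
      ((if p.rel false t x y = true then
          (if p.on z (.gl false t x y) then p.weight (.gl false t x y) else 0) else 0) +
       (if p.rel true t x y = true then
          (if p.on z (.gl true t x y) then p.weight (.gl true t x y) else 0) else 0)) =
      p.targetC := by
    have hb : ∀ t ∈ range p.R, ∑ x ∈ range p.N, ∑ y ∈ range p.N,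
      ((if p.rel false t x y = true then
          (if p.on z (.gl false t x y) then p.weight (.gl false t x y) else 0) else 0) +
       (if p.rel true t x y = true then
          (if p.on z (.gl true t x y) then p.weight (.gl true t x y) else 0) else 0)) =
       (p.WC + (t + 1) * p.M) + ((p.xv z false t + (p.N - 1 - p.yv z false t)) +
         (p.xv z true t + (p.N - 1 - p.yv z true t))) := by
      intro t ht
      have ht' := Finset.mem_range.1 ht
      have hJ : ∀ J : Bool, ∑ x ∈ range p.N, ∑ y ∈ range p.N,
          (if p.rel J t x y = true then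
            (if p.on z (.gl J t x y) then p.weight (.gl J t x y) else 0) else 0) =
          p.weight (.gl J t (p.xv z J t) (p.yv z J t)) := by
        intro J
        exact c4_sum_two p.N (p.xv z J t) (p.yv z J t) (c4_xv p ok z hz.1 J ht')
          (c4_yv p ok z hz.1 J t) (fun x y => p.rel J t x y = true)
          (fun x y => p.on z (.gl J t x y)) (fun x y => Iff.rfl)
          (fun x y => p.weight (.gl J t x y)) (hz.2 J t ht')
      rw [Finset.sum_congr rfl fun x _ => Finset.sum_add_distrib, Finset.sum_add_distrib,
        hJ false, hJ true]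
      simp only [Par.weight, if_true, Bool.false_eq_true, if_false]
      ring
    rw [Finset.sum_congr rfl hb, Finset.sum_add_distrib, Finset.sum_add_distrib,
      Finset.sum_add_distrib, reward_sum p ok z hz.1 false, reward_sum p ok z hz.1 true,
      Finset.sum_const, Finset.card_range, smul_eq_mul, ← Finset.sum_mul, c4_gauss]
    unfold Par.targetC Par.span
    simp only [if_true, Bool.false_eq_true, if_false]
    ring
  rw [e1, e2, e3, e4]
  unfold Par.target
  have hm : p.m - 1 = (p.m - 2) + 1 := by unfold Par.m; omega
  rw [hm]
  ring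

end Pool.Agent.H257R2.OS
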