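import Pool.Agent.H257R2.OS.T1

/-!
# The target value is at most the total weight (task C5)
-/

namespace Pool.Agent.H257R2.OS

open Finset

theorem c5_targetC (p : Par) (ok : p.Ok) : p.targetC ≤ p.E := by
  have hE := ok.hE
  have hN := ok.hN
  have hR := ok.hR
  have hR1 : 1 ≤ p.R := by omega
  have h1 : p.R * (p.R + 1) / 2 ≤ p.R * p.R := by
    apply Nat.div_le_of_le_mul
    nlinarith
  have h2 : p.M * (p.R * (p.R + 1) / 2) ≤ p.M * (p.R * p.R) := Nat.mul_le_mul_left _ h1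
  have h3 : (p.R - 1) * (p.N - 1) ≤ p.R * p.N :=
    Nat.mul_le_mul (Nat.sub_le _ _) (Nat.sub_le _ _)
  have h4 : (p.R - p.K) * (p.N - 1) ≤ p.R * p.N :=
    Nat.mul_le_mul (Nat.sub_le _ _) (Nat.sub_le _ _)
  have h5 : p.R * (p.WC + 2 * p.N) ≤ p.R * p.N * p.N * (p.WC + 2 * p.N) := by
    apply Nat.mul_le_mul_right
    calc p.R = p.R * 1 * 1 := by ring
      _ ≤ p.R * p.N * p.N := Nat.mul_le_mul (Nat.mul_le_mul_left _ hN) hN
  have h6 : p.R * (p.R * p.M + 2 * p.N) ≤ p.R * p.N * p.N * (p.R * p.M + 2 * p.N) := by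
    apply Nat.mul_le_mul_right
    calc p.R = p.R * 1 * 1 := by ring
      _ ≤ p.R * p.N * p.N := Nat.mul_le_mul (Nat.mul_le_mul_left _ hN) hN
  unfold Par.targetC
  have h7 : p.R * (p.WC + 2 * p.N) = p.R * p.WC + 2 * (p.R * p.N) := by ring
  have h8 : p.R * (p.R * p.M + 2 * p.N) = p.M * (p.R * p.R) + 2 * (p.R * p.N) := by ring
  omega

/-- C5: `target ≤ total` -/
theorem target_le (p : Par) (ok : p.Ok) : p.target ≤ (p.tags.map p.weight).sum := by
  rw [sum_tags]
  have hN := ok.hN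
  have hR := ok.hR
  have hR1 : 1 ≤ p.R := by omega
  have e1 : ∑ t ∈ range p.R, ∑ e ∈ range (p.m - 2), p.weight (.zt t e) =
      p.R * ((p.m - 2) * ((p.R + 1) * p.E)) := by
    simp only [Par.weight, Finset.sum_const, Finset.card_range, smul_eq_mul]
  have e2 : ∑ t ∈ range p.R, p.weight (.dd t) = p.R * ((p.R + 1) * p.E) := by
    simp only [Par.weight, Finset.sum_const, Finset.card_range, smul_eq_mul]
  have e3 : ∑ t ∈ range p.R, ∑ c ∈ range p.N, ∑ e ∈ range p.m,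
      (p.weight (.lo false t c e) + p.weight (.lo true t c e)) =
      p.R * (p.N * (p.m * ((p.m + 1) * p.E + p.m * p.E))) := by
    simp only [Par.weight, Finset.sum_const, Finset.card_range, smul_eq_mul, if_true,
      Bool.false_eq_true, if_false]
  rw [e1, e2, e3]
  unfold Par.target
  have hC := c5_targetC p ok
  have hm4 : 4 ≤ p.m := by unfold Par.m; omega
  obtain ⟨k, hk⟩ : ∃ k, p.m = k + 2 := ⟨p.m - 2, by omega⟩
  have hk1 : p.m - 1 = k + 1 := by omega
  have hk2 : p.m - 2 = k := by omega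
  rw [hk1, hk2, hk]
  obtain ⟨n, hn⟩ : ∃ n, p.N = n + 1 := ⟨p.N - 1, by omega⟩
  have hn1 : p.N - 1 = n := by omega
  rw [hn1, hn]
  have hRE : p.E ≤ p.R * p.E := Nat.le_mul_of_pos_left _ hR1
  have key : p.R * (k + 1) * ((p.R + 1) * p.E) +
      p.R * (n * (((k + 2) * (k + 2) + (k + 2) + 1) * p.E) + ((k + 2) * (k + 2) + (k + 2)) * p.E) +
      p.R * p.E ≤
      p.R * (k * ((p.R + 1) * p.E)) + p.R * ((p.R + 1) * p.E) +
      p.R * ((n + 1) * ((k + 2) * ((k + 2 + 1) * p.E + (k + 2) * p.E))) := by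
    have h1 : p.R * (k * ((p.R + 1) * p.E)) + p.R * ((p.R + 1) * p.E) =
      p.R * (k + 1) * ((p.R + 1) * p.E) := by ring
    rw [h1, add_assoc]
    apply Nat.add_le_add_left
    rw [← mul_add]
    apply Nat.mul_le_mul_left
    have h2 : (n + 1) * ((k + 2) * ((k + 2 + 1) * p.E + (k + 2) * p.E)) =
        (n * (((k + 2) * (k + 2) + (k + 2) + 1) * p.E) + ((k + 2) * (k + 2) + (k + 2)) * p.E) +
        p.E + (n * ((k * k + 4 * k + 3) * p.E) + (k * k + 4 * k + 3) * p.E) := by ring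
    rw [h2]
    exact Nat.le_add_right _ _
  omega

end Pool.Agent.H257R2.OS
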