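import Pool.Agent.H633R2.GraphDefs

/-!
# The jobs of the reduction: definitions

Parameters: stride `K`, number of regions `R`, number of columns `N`, number of machines
`m = K + 4`, block length `b = m + 1`, region length `L = N b + m`.

Region `t < R` is the time interval `[t L, (t+1) L)`: it has `N` blocks `[t L + c b, t L + c b + b)`
(`c < N`) and a zone `[t L + N b, (t+1) L)` of length `m`.
-/

namespace Pool.Agent.H257R2.OS

/-- names of the jobs: `zt t e` = tight jobs of the zone of region `t`; `dd t` = the job which opens a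
block in region `t`; `lo false t c e` / `lo true t c e` = tight / flexible local job number `e` of
block `c` of region `t`; `gl J t x y` = constraint jobs (`J = false`: from region `t` to region `t+1`,
`J = true`: from region `t` to region `t+K`). -/
inductive Tag
  | zt (t e : ℕ)
  | dd (t : ℕ)
  | lo (f : Bool) (t c e : ℕ)
  | gl (J : Bool) (t x y : ℕ)
  deriving DecidableEq

/-- Parameters of the construction. -/
structure Par where
  K : ℕ
  R : ℕ
  N : ℕ
  M : ℕ
  WC : ℕ
  E : ℕ
  rel : Bool → ℕ → ℕ → ℕ → Bool

namespace Par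

variable (p : Par)

/-- number of machines -/
def m : ℕ := p.K + 4

/-- length of a block -/
def b : ℕ := p.m + 1

/-- length of a region -/
def L : ℕ := p.N * p.b + p.m

/-- the stride of a constraint job -/
def span (J : Bool) : ℕ := if J = true then p.K else 1

/-- the deadline of a constraint job which ends in region `t`, column `y`; the regions `t ≥ R` are
single slots after time `R L`. -/
def dl (t y : ℕ) : ℕ := if t < p.R then t * p.L + y * p.b + 1 else p.R * p.L + (t - p.R) + 1

/-- release dates -/
def release : Tag → ℕ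
  | .zt t _ => t * p.L + p.N * p.b
  | .dd t => t * p.L
  | .lo f t c _ => t * p.L + c * p.b + (if f = true then 0 else 1)
  | .gl _ t x _ => t * p.L + x * p.b

/-- due dates -/
def due : Tag → ℕ
  | .zt t _ => t * p.L + p.N * p.b + p.m
  | .dd t => t * p.L + p.N * p.b + (p.m - 1)
  | .lo _ t c _ => t * p.L + c * p.b + p.b
  | .gl J t _ y => p.dl (t + p.span J) y

/-- weights -/
def weight : Tag → ℕ
  | .zt _ _ => (p.R + 1) * p.E
  | .dd _ => (p.R + 1) * p.E
  | .lo f _ _ _ => if f = true then p.m * p.E else (p.m + 1) * p.E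
  | .gl J t x y => (if J = true then (t + 1) * p.M else p.WC) + (x + (p.N - 1 - y))

/-- the list of the jobs -/
def tags : List Tag :=
  ((List.range p.R).flatMap fun t => (List.range (p.m - 2)).map fun e => Tag.zt t e) ++
  (((List.range p.R).map fun t => Tag.dd t) ++
  (((List.range p.R).flatMap fun t => (List.range p.N).flatMap fun c =>
    (List.range p.m).flatMap fun e => [Tag.lo false t c e, Tag.lo true t c e]) ++
  ((List.range p.R).flatMap fun t => (List.range p.N).flatMap fun x =>
    (List.range p.N).flatMap fun y =>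
      (if p.rel false t x y = true then [Tag.gl false t x y] else []) ++
      (if p.rel true t x y = true then [Tag.gl true t x y] else []))))

/-- the constraint part of the target value -/
def targetC : ℕ :=
  p.R * p.WC + p.M * (p.R * (p.R + 1) / 2) + (p.R - 1) * (p.N - 1) + (p.R - p.K) * (p.N - 1)

/-- the target value for the total weight of the jobs which are on time -/
def target : ℕ :=
  p.R * (p.m - 1) * ((p.R + 1) * p.E) +
  p.R * ((p.N - 1) * ((p.m * p.m + p.m + 1) * p.E) + (p.m * p.m + p.m) * p.E) + p.targetC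

/-- the value of the starting column in the constraint `(J, t)` -/
def xv (z : ℕ → ℕ) (J : Bool) (t : ℕ) : ℕ := if t < p.span J then 0 else z t

/-- the value of the final column in the constraint `(J, t)` -/
def yv (z : ℕ → ℕ) (J : Bool) (t : ℕ) : ℕ :=
  if t + p.span J < p.R then z (t + p.span J) else p.N - 1

/-- `z` is a solution of the constraint satisfaction problem -/
def Solves (z : ℕ → ℕ) : Prop :=
  (∀ t < p.R, z t < p.N) ∧ ∀ J, ∀ t < p.R, p.rel J t (p.xv z J t) (p.yv z J t) = true

/-- side conditions on the parameters -/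
structure Ok : Prop where
  hK : 2 ≤ p.K
  hR : p.K < p.R
  hN : 1 ≤ p.N
  hM : 4 * p.R * p.N < p.M
  hWC : p.R * p.N * p.N * (p.R * p.M + 2 * p.N) + 2 * p.R * p.N < p.WC
  hE : p.R * p.N * p.N * (p.WC + 2 * p.N) + p.R * p.N * p.N * (p.R * p.M + 2 * p.N) < p.E
  bdry : ∀ J t x y, p.rel J t x y = true → (t < p.span J → x = 0) ∧
    (p.R ≤ t + p.span J → y = p.N - 1)

/-- `U x` is the set of the times at which the job `x` is processed (empty if it is late). -/
structure IsSlots (U : Tag → Finset ℕ) : Prop where
  mem : ∀ x, x ∉ p.tags → U x = ∅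
  job : ∀ x, U x = ∅ ∨ ((U x).card = p.m ∧ ∀ τ ∈ U x, p.release x ≤ τ ∧ τ < p.due x)
  cap : ∀ τ, (p.tags.map fun x => if τ ∈ U x then 1 else 0).sum ≤ p.m

/-- the total weight of the jobs which are on time -/
def value (U : Tag → Finset ℕ) : ℕ := (p.tags.map fun x => if U x = ∅ then 0 else p.weight x).sum

/-- block `c` of region `t` -/
def Blk (t c : ℕ) : Finset ℕ := Finset.Ico (t * p.L + c * p.b) (t * p.L + c * p.b + p.b)

/-- the right zone of block `c` of region `t` -/
def RZ (t c : ℕ) : Finset ℕ := Finset.Ico (t * p.L + c * p.b + 1) (t * p.L + c * p.b + p.b)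

/-- the slot at the start of column `z t` of region `t` -/
def sg (z : ℕ → ℕ) (t : ℕ) : ℕ :=
  if t < p.R then t * p.L + z t * p.b else p.R * p.L + (t - p.R)

/-- zone slots -/
def isZ (τ : ℕ) : Prop := τ < p.R * p.L ∧ p.N * p.b ≤ τ % p.L

instance : DecidablePred p.isZ := fun τ => by unfold isZ; infer_instance

end Par

/-- global jobs -/
def isGl : Tag → Bool
  | .dd _ => true
  | .gl _ _ _ _ => true
  | _ => false

/-- number of the on-time constraint jobs of type `(J, t)` -/
def Par.cnt (p : Par) (U : Tag → Finset ℕ) (J : Bool) (t : ℕ) : ℕ :=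
  ∑ x ∈ Finset.range p.N, ∑ y ∈ Finset.range p.N, if U (.gl J t x y) = ∅ then 0 else 1

open Finset

/-- the total weight of the on-time constraint jobs -/
def Par.glv (p : Par) (U : Tag → Finset ℕ) : ℕ :=
  ∑ t ∈ range p.R, ∑ x ∈ range p.N, ∑ y ∈ range p.N,
      ((if U (.gl false t x y) = ∅ then 0 else p.weight (.gl false t x y)) +
       (if U (.gl true t x y) = ∅ then 0 else p.weight (.gl true t x y)))

/-- `z` describes the open blocks -/
def Par.Opn (p : Par) (U : Tag → Finset ℕ) (z : ℕ → ℕ) : Prop :=
  (∀ t < p.R, z t < p.N) ∧ ∀ x, isGl x = true → ∀ τ ∈ U x,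
      ∀ t < p.R, ∀ c < p.N, τ ∈ p.Blk t c → τ = t * p.L + z t * p.b

/-! ### The schedule of a solution -/

/-- the jobs which are on time -/
def Par.on (p : Par) (z : ℕ → ℕ) : Tag → Prop
  | .zt _ _ => True
  | .dd _ => True
  | .lo f t c e => if f = true then c ≠ z t else c = z t ∨ e = 0
  | .gl J t x y => x = p.xv z J t ∧ y = p.yv z J t

instance (p : Par) (z : ℕ → ℕ) : DecidablePred (p.on z) := fun x => by
  cases x <;> unfold Par.on <;> infer_instance

/-- `i - e` modulo `m` -/
def sb (m i e : ℕ) : ℕ := if e ≤ i then i - e else i + m - e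

/-- `i / 2` modulo the odd number `m` -/
def hf (m i : ℕ) : ℕ := if i % 2 = 0 then i / 2 else (i + m) / 2

/-- `2 f` modulo `m` -/
def db (m f : ℕ) : ℕ := if 2 * f < m then 2 * f else 2 * f - m

/-- the start time of the on-time job `x` on machine `i` -/
def Par.st (p : Par) (z : ℕ → ℕ) : Tag → ℕ → ℕ
  | .zt t e, i => t * p.L + p.N * p.b + sb p.m i (e + 2)
  | .dd t, i => if i = p.m - 1 then p.sg z t else t * p.L + p.N * p.b + i
  | .lo false t c e, i =>
      if c = z t then t * p.L + c * p.b + 1 + sb p.m i e else t * p.L + c * p.b + 1 + hf p.m i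
  | .lo true t c f, i =>
      if i = db p.m f then t * p.L + c * p.b else t * p.L + c * p.b + 1 + sb p.m i f
  | .gl false t _ _, i =>
      if i = 1 then p.sg z t else if i = 2 then p.sg z (t + 1) else
      if i = 0 then t * p.L + p.N * p.b + (p.m - 1) else t * p.L + p.N * p.b + (i - 1)
  | .gl true t _ _, i =>
      if i = 1 then t * p.L + p.N * p.b else if i = 2 then t * p.L + p.N * p.b + 1 else
      if i = p.m - 1 then t * p.L + p.N * p.b + (p.m - 1) else
      if i = 0 then p.sg z t else p.sg z (t + (i - 2))

/-- the list of the jobs -/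
def Par.jobs (p : Par) : List (ℕ × ℤ × ℕ) :=
  p.tags.map fun x => (p.release x, (p.due x : ℤ), p.weight x)

/-! ### The instance of a graph -/

/-- allowed pairs; with `s = n + 1` a number `x < s * s` stands for the pair `(x / s, x % s)`; with
`K = 2 k + 3` the region `t ≥ K` stands for the cell `(t / K - 1, t % K)` of the `K × K` grid. The
parts of the conjunction (`J = true`): boundary conditions, validity of the value `x` of the cell
`t`, equality of second components with the cell below; (`J = false`): boundary conditions, equality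
of the first components with the next cell of the row. -/
def relG (n k : ℕ) (adj : ℕ → ℕ → Bool) (J : Bool) (t x y : ℕ) : Bool :=
  if J = true then
    (!decide (t < 2 * k + 3) || decide (x = 0)) &&
    ((decide (t + (2 * k + 3) < (2 * k + 3) + (2 * k + 3) * (2 * k + 3)) ||
        decide (y = (n + 1) * (n + 1) - 1)) &&
    ((decide (t < 2 * k + 3) || (decide (k < t / (2 * k + 3)) || (decide (k ≤ t % (2 * k + 3)) ||
      (decide (x / (n + 1) < n) && (decide (x % (n + 1) < n) &&
        (if t / (2 * k + 3) = t % (2 * k + 3) + 1 then decide (x / (n + 1) = x % (n + 1))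
          else adj (x / (n + 1)) (x % (n + 1)))))))) &&
    (decide (t < 2 * k + 3) ||
      (!decide (t + (2 * k + 3) < (2 * k + 3) + (2 * k + 3) * (2 * k + 3)) ||
        decide (x % (n + 1) = y % (n + 1))))))
  else
    (!decide (t < 1) || decide (x = 0)) &&
    ((decide (t + 1 < (2 * k + 3) + (2 * k + 3) * (2 * k + 3)) ||
        decide (y = (n + 1) * (n + 1) - 1)) &&
    (decide (t < 2 * k + 3) || (decide (t % (2 * k + 3) + 1 = 2 * k + 3) ||
      decide (x / (n + 1) = y / (n + 1)))))

/-- the parameters of the instance of a graph -/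
def parG (n k : ℕ) (adj : ℕ → ℕ → Bool) : Par :=
  let K := 2 * k + 3
  let R := K + K * K
  let N := (n + 1) * (n + 1)
  let M := 4 * R * N + 1
  let WC := R * N * N * (R * M + 2 * N) + 2 * R * N + 1
  let E := R * N * N * (WC + 2 * N) + R * N * N * (R * M + 2 * N) + 1
  ⟨K, R, N, M, WC, E, relG n k adj⟩

open Pool.Agent.H633R2

/-- the adjacency test of a matrix -/
def adjM (X : List (List Bool)) (i j : ℕ) : Bool :=
  decide (i ≠ j) && (entry X i j || entry X j i)

/-- the reduction -/
def redG (x : List (List Bool) × ℕ) : (ℕ × List (ℕ × ℤ × ℕ)) × ℕ :=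
  if x.2 ≤ x.1.length then
    (((parG x.1.length x.2 (adjM x.1)).m, (parG x.1.length x.2 (adjM x.1)).jobs),
      ((parG x.1.length x.2 (adjM x.1)).tags.map (parG x.1.length x.2 (adjM x.1)).weight).sum -
        (parG x.1.length x.2 (adjM x.1)).target)
  else ((1, [(0, 0, 1)]), 0)

end Pool.Agent.H257R2.OS
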