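import Pool.Agent.H257R2.OS.T1

/-!
G1, G3: the parameters are ok; cliques as injections.
-/

namespace Pool.Agent.H257R2.OS

open Finset Pool.Agent.H633R2

private theorem g1_relG_true {n k : ℕ} {adj : ℕ → ℕ → Bool} {t x y : ℕ}
    (h : relG n k adj true t x y = true) : (t < 2 * k + 3 → x = 0) ∧
      ((2 * k + 3) + (2 * k + 3) * (2 * k + 3) ≤ t + (2 * k + 3) → y = (n + 1) * (n + 1) - 1) := by
  unfold relG at h
  rw [if_pos rfl] at h
  rw [Bool.and_eq_true, Bool.and_eq_true] at h
  obtain ⟨h1, h2, _⟩ := h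
  rw [Bool.or_eq_true, Bool.not_eq_true', decide_eq_false_iff_not, decide_eq_true_eq] at h1
  rw [Bool.or_eq_true, decide_eq_true_eq, decide_eq_true_eq] at h2
  refine ⟨fun ht => ?_, fun ht => ?_⟩
  · rcases h1 with h1 | h1
    · exact absurd ht h1
    · exact h1
  · rcases h2 with h2 | h2
    · exact absurd h2 (not_lt.2 ht)
    · exact h2

private theorem g1_relG_false {n k : ℕ} {adj : ℕ → ℕ → Bool} {t x y : ℕ}
    (h : relG n k adj false t x y = true) : (t < 1 → x = 0) ∧
      ((2 * k + 3) + (2 * k + 3) * (2 * k + 3) ≤ t + 1 → y = (n + 1) * (n + 1) - 1) := by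
  unfold relG at h
  rw [if_neg (by simp)] at h
  rw [Bool.and_eq_true, Bool.and_eq_true] at h
  obtain ⟨h1, h2, _⟩ := h
  rw [Bool.or_eq_true, Bool.not_eq_true', decide_eq_false_iff_not, decide_eq_true_eq] at h1
  rw [Bool.or_eq_true, decide_eq_true_eq, decide_eq_true_eq] at h2
  refine ⟨fun ht => ?_, fun ht => ?_⟩
  · rcases h1 with h1 | h1
    · exact absurd ht h1
    · exact h1
  · rcases h2 with h2 | h2
    · exact absurd h2 (not_lt.2 ht)
    · exact h2

/-- G1 -/
theorem parG_ok (n k : ℕ) (adj : ℕ → ℕ → Bool) :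
    (parG n k adj).Ok ∧ (parG n k adj).m % 2 = 1 := by
  refine ⟨⟨?_, ?_, ?_, ?_, ?_, ?_, ?_⟩, ?_⟩
  · show 2 ≤ 2 * k + 3
    omega
  · show 2 * k + 3 < (2 * k + 3) + (2 * k + 3) * (2 * k + 3)
    exact Nat.lt_add_of_pos_right (by positivity)
  · show 1 ≤ (n + 1) * (n + 1)
    exact Nat.succ_le_of_lt (by positivity)
  · exact Nat.lt_succ_self _
  · exact Nat.lt_succ_self _
  · exact Nat.lt_succ_self _
  · intro J t x y h
    cases J
    · exact g1_relG_false (adj := adj) h
    · exact g1_relG_true (adj := adj) h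
  · show (2 * k + 3 + 4) % 2 = 1
    omega

/-- G3 -/
theorem clique_iff (x : List (List Bool) × ℕ) : HasClique x ↔
    ∃ v : ℕ → ℕ, (∀ i < x.2, v i < x.1.length) ∧
      ∀ i < x.2, ∀ j < x.2, i ≠ j → adjM x.1 (v i) (v j) = true := by
  constructor
  · rintro ⟨S, hS⟩
    rw [SimpleGraph.isNClique_iff] at hS
    obtain ⟨hcl, hcard⟩ := hS
    let e := Finset.equivFinOfCardEq hcard
    refine ⟨fun i => if h : i < x.2 then ((e.symm ⟨i, h⟩ : S) : Fin x.1.length).val else 0,
      ?_, ?_⟩
    · intro i hi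
      simp only [hi, dif_pos]
      exact Fin.is_lt _
    · intro i hi j hj hij
      simp only [hi, hj, dif_pos]
      have hne : ((e.symm ⟨i, hi⟩ : S) : Fin x.1.length) ≠ ((e.symm ⟨j, hj⟩ : S) : Fin x.1.length) := by
        intro h
        have h1 := e.symm.injective (Subtype.ext h)
        exact hij (by simpa using h1)
      have hadj := hcl (e.symm ⟨i, hi⟩).2 (e.symm ⟨j, hj⟩).2 hne
      unfold adjM
      rw [Bool.and_eq_true, Bool.or_eq_true, decide_eq_true_eq]
      exact ⟨fun h => hne (Fin.ext h), hadj.2⟩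
  · rintro ⟨v, hv, hadj⟩
    let f : Fin x.2 → Fin x.1.length := fun i => ⟨v i, hv i i.2⟩
    have key : ∀ i j : Fin x.2, i ≠ j → v i ≠ v j ∧
        (entry x.1 (v i) (v j) = true ∨ entry x.1 (v j) (v i) = true) := by
      intro i j hij
      have h := hadj i i.2 j j.2 (fun h => hij (Fin.ext h))
      unfold adjM at h
      rw [Bool.and_eq_true, Bool.or_eq_true, decide_eq_true_eq] at h
      exact h
    have hinj : Function.Injective f := by
      intro i j hij
      by_contra hne
      exact (key i j hne).1 (congrArg Fin.val hij)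
    refine ⟨Finset.univ.image f, ?_⟩
    rw [SimpleGraph.isNClique_iff]
    constructor
    · intro a ha b hb hab
      obtain ⟨i, _, rfl⟩ := Finset.mem_image.1 (Finset.mem_coe.1 ha)
      obtain ⟨j, _, rfl⟩ := Finset.mem_image.1 (Finset.mem_coe.1 hb)
      exact ⟨hab, (key i j (fun h => hab (congrArg f h))).2⟩
    · rw [Finset.card_image_of_injective _ hinj, Finset.card_univ, Fintype.card_fin]

end Pool.Agent.H257R2.OS
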