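import Pool.Agent.H257R2.OS.T1

/-!
# G2: the constraint satisfaction problem of a graph and cliques
-/

set_option autoImplicit false

namespace Pool.Agent.H257R2.OS

namespace G2

theorem rel_true (n k : ℕ) (adj : ℕ → ℕ → Bool) (t x y : ℕ) :
    relG n k adj true t x y = true ↔
      (t < 2 * k + 3 → x = 0) ∧
      ((2 * k + 3) + (2 * k + 3) * (2 * k + 3) ≤ t + (2 * k + 3) → y = (n + 1) * (n + 1) - 1) ∧
      (2 * k + 3 ≤ t → t / (2 * k + 3) ≤ k → t % (2 * k + 3) < k →
        x / (n + 1) < n ∧ x % (n + 1) < n ∧
        (t / (2 * k + 3) = t % (2 * k + 3) + 1 → x / (n + 1) = x % (n + 1)) ∧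
        (t / (2 * k + 3) ≠ t % (2 * k + 3) + 1 → adj (x / (n + 1)) (x % (n + 1)) = true)) ∧
      (2 * k + 3 ≤ t → t + (2 * k + 3) < (2 * k + 3) + (2 * k + 3) * (2 * k + 3) →
        x % (n + 1) = y % (n + 1)) := by
  unfold relG
  simp only [if_true, Bool.and_eq_true, Bool.or_eq_true, Bool.not_eq_true', decide_eq_true_eq,
    decide_eq_false_iff_not]
  by_cases h1 : t < 2 * k + 3
  · have h1' : ¬ (2 * k + 3 ≤ t) := not_le.2 h1
    simp only [h1, h1', not_true, false_or, true_or, forall_const, and_true, IsEmpty.forall_iff]
    apply and_congr_right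
    intro _
    rw [or_iff_not_imp_left, not_lt]
  · have h1' : 2 * k + 3 ≤ t := not_lt.1 h1
    simp only [h1, h1', not_false_eq_true, true_or, false_or, forall_const, IsEmpty.forall_iff,
      true_and]
    apply and_congr
    · rw [or_iff_not_imp_left, not_lt]
    · apply and_congr
      · rw [or_iff_not_imp_left, not_lt]
        apply imp_congr_right
        intro _
        rw [or_iff_not_imp_left, not_le]
        apply imp_congr_right
        intro _
        apply and_congr_right
        intro _
        apply and_congr_right
        intro _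
        split_ifs with h
        · simp [h]
        · simp [h]
      · rw [or_iff_not_imp_left, not_not]

theorem rel_false (n k : ℕ) (adj : ℕ → ℕ → Bool) (t x y : ℕ) :
    relG n k adj false t x y = true ↔
      (t < 1 → x = 0) ∧
      ((2 * k + 3) + (2 * k + 3) * (2 * k + 3) ≤ t + 1 → y = (n + 1) * (n + 1) - 1) ∧
      (2 * k + 3 ≤ t → t % (2 * k + 3) + 1 ≠ 2 * k + 3 → x / (n + 1) = y / (n + 1)) := by
  unfold relG
  simp only [Bool.false_eq_true, if_false, Bool.and_eq_true, Bool.or_eq_true, Bool.not_eq_true',
    decide_eq_true_eq, decide_eq_false_iff_not]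
  apply and_congr
  · rw [or_iff_not_imp_left, not_not]
  · apply and_congr
    · rw [or_iff_not_imp_left, not_lt]
    · rw [or_iff_not_imp_left, not_lt]
      apply imp_congr_right
      intro _
      rw [or_iff_not_imp_left]

theorem cell_div {K i j : ℕ} (hj : j < K) : (K * i + j) / K = i := by
  have hK : 0 < K := by omega
  rw [Nat.mul_add_div hK, Nat.div_eq_of_lt hj, add_zero]

theorem cell_mod {K i j : ℕ} (hj : j < K) : (K * i + j) % K = j := by
  rw [Nat.mul_add_mod, Nat.mod_eq_of_lt hj]

end G2

open G2 in
theorem solves_iff (n k : ℕ) (adj : ℕ → ℕ → Bool) :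
    (∃ z, (parG n k adj).Solves z) ↔
      ∃ v : ℕ → ℕ, (∀ i < k, v i < n) ∧ ∀ i < k, ∀ j < k, i ≠ j → adj (v i) (v j) = true := by
  have hpK : (parG n k adj).K = 2 * k + 3 := rfl
  have hpR : (parG n k adj).R = (2 * k + 3) + (2 * k + 3) * (2 * k + 3) := rfl
  have hpN : (parG n k adj).N = (n + 1) * (n + 1) := rfl
  have hrel : (parG n k adj).rel = relG n k adj := rfl
  have hspt : (parG n k adj).span true = 2 * k + 3 := rfl
  have hspf : (parG n k adj).span false = 1 := rfl
  constructor
  · rintro ⟨z, hz1, hz2⟩
    rw [hpR] at hz1 hz2
    rw [hpN] at hz1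
    rw [hrel] at hz2
    set K := 2 * k + 3 with hK
    have hK0 : 0 < K := by omega
    -- rows
    have hrow : ∀ i < K, ∀ j < K, z (K * (i + 1) + j) / (n + 1) = z (K * (i + 1)) / (n + 1) := by
      intro i hi j
      induction j with
      | zero => intro _; rfl
      | succ j ih =>
        intro hj
        have hj' : j < K := by omega
        rw [← ih hj']
        have hlt : K * (i + 1) + (j + 1) < K + K * K := by
          have : K * (i + 1) ≤ K * K := Nat.mul_le_mul_left K hi
          omega
        have h1 := hz2 false (K * (i + 1) + j) (by omega)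
        rw [rel_false] at h1
        have h3 := h1.2.2 (by
          have : K * 1 ≤ K * (i + 1) := Nat.mul_le_mul_left K (by omega)
          omega) (by rw [← hK, cell_mod hj']; omega)
        have hx : (parG n k adj).xv z false (K * (i + 1) + j) = z (K * (i + 1) + j) := by
          unfold Par.xv
          rw [hspf, if_neg]
          have : K * 1 ≤ K * (i + 1) := Nat.mul_le_mul_left K (by omega)
          omega
        have hy : (parG n k adj).yv z false (K * (i + 1) + j) = z (K * (i + 1) + j + 1) := by
          unfold Par.yv
          rw [hspf, if_pos]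
          rw [hpR]
          omega
        rw [hx, hy] at h3
        rw [h3]
        rfl
    -- columns
    have hcol : ∀ j < K, ∀ i < K, z (K * (i + 1) + j) % (n + 1) = z (K + j) % (n + 1) := by
      intro j hj i
      induction i with
      | zero => intro _; rw [zero_add, mul_one]
      | succ i ih =>
        intro hi
        rw [← ih (by omega)]
        have hlt : K * (i + 1) + j + K < K + K * K := by
          have h5 : K * (i + 1 + 1) ≤ K * K := Nat.mul_le_mul_left K hi
          have h6 : K * (i + 1 + 1) = K * (i + 1) + K := by ring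
          omega
        have h1 := hz2 true (K * (i + 1) + j) (by omega)
        rw [rel_true] at h1
        have h3 := h1.2.2.2 (by
          have : K * 1 ≤ K * (i + 1) := Nat.mul_le_mul_left K (by omega)
          omega) (by rw [← hK]; exact hlt)
        have hx : (parG n k adj).xv z true (K * (i + 1) + j) = z (K * (i + 1) + j) := by
          unfold Par.xv
          rw [hspt, if_neg]
          have : K * 1 ≤ K * (i + 1) := Nat.mul_le_mul_left K (by omega)
          omega
        have hy : (parG n k adj).yv z true (K * (i + 1) + j) = z (K * (i + 1) + j + K) := by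
          unfold Par.yv
          rw [hspt, if_pos]
          rw [hpR]
          exact hlt
        rw [hx, hy] at h3
        rw [h3]
        have : K * (i + 1 + 1) + j = K * (i + 1) + j + K := by ring
        rw [this]
    -- validity
    have hval : ∀ i < k, ∀ j < k, z (K * (i + 1) + j) / (n + 1) < n ∧
        z (K * (i + 1) + j) % (n + 1) < n ∧
        (i = j → z (K * (i + 1) + j) / (n + 1) = z (K * (i + 1) + j) % (n + 1)) ∧
        (i ≠ j → adj (z (K * (i + 1) + j) / (n + 1)) (z (K * (i + 1) + j) % (n + 1)) = true) := by
      intro i hi j hj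
      have hjK : j < K := by omega
      have hge : K * 1 ≤ K * (i + 1) := Nat.mul_le_mul_left K (by omega)
      have hle : K * (i + 1) ≤ K * K := Nat.mul_le_mul_left K (by omega)
      have h1 := hz2 true (K * (i + 1) + j) (by omega)
      rw [rel_true] at h1
      have h3 := h1.2.2.1 (by omega) (by rw [← hK, cell_div hjK]; omega)
        (by rw [← hK, cell_mod hjK]; exact hj)
      rw [← hK, cell_div hjK, cell_mod hjK] at h3
      have hx : (parG n k adj).xv z true (K * (i + 1) + j) = z (K * (i + 1) + j) := by
        unfold Par.xv
        rw [hspt, if_neg]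
        omega
      rw [hx] at h3
      refine ⟨h3.1, h3.2.1, fun h => h3.2.2.1 (by omega), fun h => h3.2.2.2 (by omega)⟩
    refine ⟨fun i => z (K * (i + 1) + i) / (n + 1), fun i hi => (hval i hi i hi).1, ?_⟩
    intro i hi j hj hij
    have h1 := (hval i hi j hj).2.2.2 hij
    have h2 : z (K * (i + 1) + j) / (n + 1) = z (K * (i + 1) + i) / (n + 1) := by
      rw [hrow i (by omega) j (by omega), hrow i (by omega) i (by omega)]
    have h3 : z (K * (i + 1) + j) % (n + 1) = z (K * (j + 1) + j) / (n + 1) := by
      rw [hcol j (by omega) i (by omega), ← hcol j (by omega) j (by omega)]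
      exact ((hval j hj j hj).2.2.1 rfl).symm
    rw [h2, h3] at h1
    exact h1
  · rintro ⟨v, hv1, hv2⟩
    set K := 2 * k + 3 with hK
    have hK0 : 0 < K := by omega
    let v' : ℕ → ℕ := fun i => if i < k then v i else 0
    have hv' : ∀ i, v' i < n + 1 := by
      intro i
      by_cases h : i < k
      · simp only [v', if_pos h]; exact Nat.lt_succ_of_lt (hv1 i h)
      · simp only [v', if_neg h]; omega
    let z : ℕ → ℕ := fun t => if t < K then 0 else v' (t / K - 1) * (n + 1) + v' (t % K)
    have hzge : ∀ t, K ≤ t → z t = v' (t / K - 1) * (n + 1) + v' (t % K) := by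
      intro t ht
      simp only [z, if_neg (not_lt.2 ht)]
    have hzdiv : ∀ t, K ≤ t → z t / (n + 1) = v' (t / K - 1) := by
      intro t ht
      rw [hzge t ht, mul_comm, Nat.mul_add_div (by omega), Nat.div_eq_of_lt (hv' _), add_zero]
    have hzmod : ∀ t, K ≤ t → z t % (n + 1) = v' (t % K) := by
      intro t ht
      rw [hzge t ht, mul_comm, Nat.mul_add_mod, Nat.mod_eq_of_lt (hv' _)]
    refine ⟨z, ?_, ?_⟩
    · intro t _
      rw [hpN]
      by_cases ht : t < K
      · simp only [z, if_pos ht]; positivity
      · rw [hzge t (not_lt.1 ht)]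
        have h1 := hv' (t / K - 1)
        have h2 := hv' (t % K)
        calc v' (t / K - 1) * (n + 1) + v' (t % K) < v' (t / K - 1) * (n + 1) + (n + 1) := by omega
          _ = (v' (t / K - 1) + 1) * (n + 1) := by ring
          _ ≤ (n + 1) * (n + 1) := Nat.mul_le_mul_right _ h1
    · intro J t ht
      rw [hpR] at ht
      rw [hrel]
      cases J with
      | true =>
        rw [rel_true]
        unfold Par.xv Par.yv
        rw [hspt, hpR, hpN]
        refine ⟨fun h => if_pos h, fun h => if_neg (not_lt.2 h), ?_, ?_⟩
        · intro h1 h2 h3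
          rw [if_neg (not_lt.2 h1), hzdiv t h1, hzmod t h1]
          rw [← hK] at h1 h2 h3 ⊢
          have h4 : 1 ≤ t / K := (Nat.one_le_div_iff hK0).2 h1
          have h5 : t / K - 1 < k := by omega
          have e1 : v' (t / K - 1) = v (t / K - 1) := if_pos h5
          have e2 : v' (t % K) = v (t % K) := if_pos h3
          rw [e1, e2]
          refine ⟨hv1 _ h5, hv1 _ h3, fun h => ?_, fun h => ?_⟩
          · have : t / K - 1 = t % K := by omega
            rw [this]
          · exact hv2 _ h5 _ h3 (by omega)
        · intro h1 h2
          rw [if_neg (not_lt.2 h1), if_pos h2, hzmod t h1]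
          rw [← hK] at h1
          rw [hzmod (t + K) (by omega), Nat.add_mod_right]
      | false =>
        rw [rel_false]
        unfold Par.xv Par.yv
        rw [hspf, hpR, hpN]
        refine ⟨fun h => if_pos h, fun h => if_neg (not_lt.2 h), ?_⟩
        intro h1 h2
        rw [← hK] at h1 h2
        have hdm := Nat.div_add_mod t K
        have hml := Nat.mod_lt t hK0
        have h3 : t + 1 < K + K * K := by
          by_contra h4
          have h5 : t + 1 = K * (K + 1) := by
            have : K * (K + 1) = K + K * K := by ring
            omega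
          have h6 : t = K * K + (K - 1) := by
            have : K * (K + 1) = K * K + K := by ring
            omega
          have h7 : t % K = K - 1 := by
            rw [h6]; exact cell_mod (by omega)
          omega
        rw [if_neg (by omega), if_pos h3, hzdiv t h1, hzdiv (t + 1) (by omega)]
        have h8 : (t + 1) / K = t / K := by
          have h9 : t + 1 = K * (t / K) + (t % K + 1) := by omega
          have h10 : (K * (t / K) + (t % K + 1)) / K = t / K := cell_div (by omega)
          rw [← h9] at h10
          exact h10
        rw [h8]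

end Pool.Agent.H257R2.OS
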