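import Pool.Agent.H257R2.OS.T1
import Pool.Agent.H257R2.LJW.Clique
import Pool.Agent.H671R2.PolyAuto

namespace Pool.Agent.H257R2.OS

open Pool.Agent.NPC Pool.Agent.H633R2

namespace PP

/-- inputs -/
abbrev Inp := List (List Bool) × ℕ

def gn (x : Inp) : ℕ := x.1.length
def gk (x : Inp) : ℕ := min x.2 x.1.length
def gK (x : Inp) : ℕ := 2 * gk x + 3
def gR (x : Inp) : ℕ := gK x + gK x * gK x
def gN (x : Inp) : ℕ := (gn x + 1) * (gn x + 1)
def gM (x : Inp) : ℕ := 4 * gR x * gN x + 1
def gW (x : Inp) : ℕ :=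
  gR x * gN x * gN x * (gR x * gM x + 2 * gN x) + 2 * gR x * gN x + 1
def gE (x : Inp) : ℕ :=
  gR x * gN x * gN x * (gW x + 2 * gN x) + gR x * gN x * gN x * (gR x * gM x + 2 * gN x) + 1
def gm (x : Inp) : ℕ := gK x + 4
def gb (x : Inp) : ℕ := gm x + 1
def gL (x : Inp) : ℕ := gN x * gb x + gm x

theorem u_gn : UPoly gn := UPoly.length (Poly.fst Poly.id)
theorem u_gk : UPoly gk := UPoly.of_le (n := gn) (by unfold gk; fun_prop) u_gn
  (fun a => min_le_right _ _)
theorem u_gK : UPoly gK := UPoly.add (UPoly.mul (UPoly.const 2) u_gk) (UPoly.const 3)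
theorem u_gR : UPoly gR := UPoly.add u_gK (UPoly.mul u_gK u_gK)
theorem u_gN : UPoly gN :=
  UPoly.mul (UPoly.add u_gn (UPoly.const 1)) (UPoly.add u_gn (UPoly.const 1))
theorem u_gm : UPoly gm := UPoly.add u_gK (UPoly.const 4)
theorem u_gm2 : UPoly (fun x => gm x - 2) :=
  UPoly.of_le (n := gm) (NPC.Poly.sub u_gm.toPoly (NPC.Poly.const 2)) u_gm (fun a => Nat.sub_le _ _)

variable {α : Type} [TEnc α]

theorem p_gn {f : α → Inp} (hf : Poly f) : Poly (fun a => gn (f a)) := u_gn.toPoly.comp hf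
theorem p_gk {f : α → Inp} (hf : Poly f) : Poly (fun a => gk (f a)) := u_gk.toPoly.comp hf
theorem p_gK {f : α → Inp} (hf : Poly f) : Poly (fun a => gK (f a)) := u_gK.toPoly.comp hf
theorem p_gR {f : α → Inp} (hf : Poly f) : Poly (fun a => gR (f a)) := u_gR.toPoly.comp hf
theorem p_gN {f : α → Inp} (hf : Poly f) : Poly (fun a => gN (f a)) := u_gN.toPoly.comp hf
theorem p_gm {f : α → Inp} (hf : Poly f) : Poly (fun a => gm (f a)) := u_gm.toPoly.comp hf

attribute [local fun_prop] p_gn p_gk p_gK p_gR p_gN p_gm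

theorem p_gM {f : α → Inp} (hf : Poly f) : Poly (fun a => gM (f a)) := by
  unfold gM; fun_prop
theorem p_gb {f : α → Inp} (hf : Poly f) : Poly (fun a => gb (f a)) := by
  unfold gb; fun_prop

attribute [local fun_prop] p_gM p_gb

theorem p_gW {f : α → Inp} (hf : Poly f) : Poly (fun a => gW (f a)) := by
  unfold gW; fun_prop
theorem p_gL {f : α → Inp} (hf : Poly f) : Poly (fun a => gL (f a)) := by
  unfold gL; fun_prop

attribute [local fun_prop] p_gW p_gL

theorem p_gE {f : α → Inp} (hf : Poly f) : Poly (fun a => gE (f a)) := by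
  unfold gE; fun_prop

attribute [local fun_prop] p_gE

theorem r_R {f : α → Inp} (hf : Poly f) : Poly (fun a => List.range (gR (f a))) :=
  u_gR.range.comp hf
theorem r_N {f : α → Inp} (hf : Poly f) : Poly (fun a => List.range (gN (f a))) :=
  u_gN.range.comp hf
theorem r_m {f : α → Inp} (hf : Poly f) : Poly (fun a => List.range (gm (f a))) :=
  u_gm.range.comp hf
theorem r_m2 {f : α → Inp} (hf : Poly f) : Poly (fun a => List.range (gm (f a) - 2)) :=
  u_gm2.range.comp hf

attribute [local fun_prop] r_R r_N r_m r_m2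

/-- the parameters, with a bounded clique size -/
def gP (x : Inp) : Par := parG (gn x) (gk x) (adjM x.1)

def gEntry (x : Inp) (i j : ℕ) : Bool := entry x.1 i j

theorem p_entry {f : α → Inp} {i j : α → ℕ} (hf : Poly f) (hi : Poly i) (hj : Poly j) :
    Poly (fun a => gEntry (f a) (i a) (j a)) := by
  unfold gEntry
  exact Pool.Agent.H257R2.LJW.entry_poly (Poly.fst hf) hi hj

attribute [local fun_prop] p_entry

def gAdj (x : Inp) (i j : ℕ) : Bool := decide (i ≠ j) && (gEntry x i j || gEntry x j i)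

theorem p_adj {f : α → Inp} {i j : α → ℕ} (hf : Poly f) (hi : Poly i) (hj : Poly j) :
    Poly (fun a => gAdj (f a) (i a) (j a)) := by
  unfold gAdj
  fun_prop

attribute [local fun_prop] p_adj

def rT (x : Inp) (t a b : ℕ) : Bool :=
    (!decide (t < gK x) || decide (a = 0)) &&
    ((decide (t + gK x < gR x) ||
        decide (b = gN x - 1)) &&
    ((decide (t < gK x) || (decide (gk x < t / gK x) || (decide (gk x ≤ t % gK x) ||
      (decide (a / (gn x + 1) < gn x) && (decide (a % (gn x + 1) < gn x) &&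
        (if t / gK x = t % gK x + 1 then decide (a / (gn x + 1) = a % (gn x + 1))
          else gAdj x (a / (gn x + 1)) (a % (gn x + 1)))))))) &&
    (decide (t < gK x) ||
      (!decide (t + gK x < gR x) ||
        decide (a % (gn x + 1) = b % (gn x + 1))))))

def rF (x : Inp) (t a b : ℕ) : Bool :=
    (!decide (t < 1) || decide (a = 0)) &&
    ((decide (t + 1 < gR x) ||
        decide (b = gN x - 1)) &&
    (decide (t < gK x) || (decide (t % gK x + 1 = gK x) ||
      decide (a / (gn x + 1) = b / (gn x + 1)))))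

theorem rel_true (x : Inp) (t a b : ℕ) : (gP x).rel true t a b = rT x t a b := rfl
theorem rel_false (x : Inp) (t a b : ℕ) : (gP x).rel false t a b = rF x t a b := rfl

theorem p_rT {f : α → Inp} {t i j : α → ℕ} (hf : Poly f) (ht : Poly t) (hi : Poly i)
    (hj : Poly j) : Poly (fun a => rT (f a) (t a) (i a) (j a)) := by
  unfold rT
  fun_prop

theorem p_rF {f : α → Inp} {t i j : α → ℕ} (hf : Poly f) (ht : Poly t) (hi : Poly i)
    (hj : Poly j) : Poly (fun a => rF (f a) (t a) (i a) (j a)) := by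
  unfold rF
  fun_prop

attribute [local fun_prop] p_rT p_rF

/-- one job -/
def job (r d w : ℕ) : ℕ × ℤ × ℕ := (r, (d : ℤ), w)

theorem p_job {r d w : α → ℕ} (hr : Poly r) (hd : Poly d) (hw : Poly w) :
    Poly (fun a => job (r a) (d a) (w a)) := by
  unfold job
  fun_prop

attribute [local fun_prop] p_job

def gdl (x : Inp) (t y : ℕ) : ℕ :=
  if t < gR x then t * gL x + y * gb x + 1 else gR x * gL x + (t - gR x) + 1

theorem p_gdl {f : α → Inp} {t y : α → ℕ} (hf : Poly f) (ht : Poly t) (hy : Poly y) :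
    Poly (fun a => gdl (f a) (t a) (y a)) := by
  unfold gdl
  fun_prop

attribute [local fun_prop] p_gdl

def j1 (x : Inp) (t : ℕ) : ℕ × ℤ × ℕ :=
  job (t * gL x + gN x * gb x) (t * gL x + gN x * gb x + gm x) ((gR x + 1) * gE x)
def j2 (x : Inp) (t : ℕ) : ℕ × ℤ × ℕ :=
  job (t * gL x) (t * gL x + gN x * gb x + (gm x - 1)) ((gR x + 1) * gE x)
def j3 (x : Inp) (t c : ℕ) : ℕ × ℤ × ℕ :=
  job (t * gL x + c * gb x + 1) (t * gL x + c * gb x + gb x) ((gm x + 1) * gE x)
def j4 (x : Inp) (t c : ℕ) : ℕ × ℤ × ℕ :=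
  job (t * gL x + c * gb x + 0) (t * gL x + c * gb x + gb x) (gm x * gE x)
def j5 (x : Inp) (t a b : ℕ) : ℕ × ℤ × ℕ :=
  job (t * gL x + a * gb x) (gdl x (t + 1) b) (gW x + (a + (gN x - 1 - b)))
def j6 (x : Inp) (t a b : ℕ) : ℕ × ℤ × ℕ :=
  job (t * gL x + a * gb x) (gdl x (t + gK x) b) ((t + 1) * gM x + (a + (gN x - 1 - b)))

theorem p_j1 {f : α → Inp} {t : α → ℕ} (hf : Poly f) (ht : Poly t) :
    Poly (fun a => j1 (f a) (t a)) := by unfold j1; fun_prop
theorem p_j2 {f : α → Inp} {t : α → ℕ} (hf : Poly f) (ht : Poly t) :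
    Poly (fun a => j2 (f a) (t a)) := by unfold j2; fun_prop
theorem p_j3 {f : α → Inp} {t c : α → ℕ} (hf : Poly f) (ht : Poly t) (hc : Poly c) :
    Poly (fun a => j3 (f a) (t a) (c a)) := by unfold j3; fun_prop
theorem p_j4 {f : α → Inp} {t c : α → ℕ} (hf : Poly f) (ht : Poly t) (hc : Poly c) :
    Poly (fun a => j4 (f a) (t a) (c a)) := by unfold j4; fun_prop
theorem p_j5 {f : α → Inp} {t c d : α → ℕ} (hf : Poly f) (ht : Poly t) (hc : Poly c)
    (hd : Poly d) : Poly (fun a => j5 (f a) (t a) (c a) (d a)) := by unfold j5; fun_prop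
theorem p_j6 {f : α → Inp} {t c d : α → ℕ} (hf : Poly f) (ht : Poly t) (hc : Poly c)
    (hd : Poly d) : Poly (fun a => j6 (f a) (t a) (c a) (d a)) := by unfold j6; fun_prop

attribute [local fun_prop] p_j1 p_j2 p_j3 p_j4 p_j5 p_j6

def l1 (x : Inp) : List (ℕ × ℤ × ℕ) :=
  (List.range (gR x)).flatMap fun t => (List.range (gm x - 2)).map fun _ => j1 x t
def l2 (x : Inp) : List (ℕ × ℤ × ℕ) := (List.range (gR x)).map fun t => j2 x t
def l3 (x : Inp) : List (ℕ × ℤ × ℕ) :=
  (List.range (gR x)).flatMap fun t => (List.range (gN x)).flatMap fun c =>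
    (List.range (gm x)).flatMap fun _ => [j3 x t c, j4 x t c]
def l4 (x : Inp) : List (ℕ × ℤ × ℕ) :=
  (List.range (gR x)).flatMap fun t => (List.range (gN x)).flatMap fun a =>
    (List.range (gN x)).flatMap fun b =>
      (if rF x t a b = true then [j5 x t a b] else []) ++
      (if rT x t a b = true then [j6 x t a b] else [])

theorem p_l1 : Poly l1 := by unfold l1; fun_prop
theorem p_l2 : Poly l2 := by unfold l2; fun_prop
theorem p_l3 : Poly l3 := by unfold l3; fun_prop
theorem p_l4 : Poly l4 := by unfold l4; fun_prop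

theorem jobs_eq (x : Inp) : (gP x).jobs = l1 x ++ (l2 x ++ (l3 x ++ l4 x)) := by
  unfold Par.jobs Par.tags
  rw [List.map_append, List.map_append, List.map_append]
  congr 1
  · rw [List.map_flatMap]
    simp only [List.map_map]
    rfl
  congr 1
  · rw [List.map_map]
    rfl
  congr 1
  · simp only [List.map_flatMap]
    rfl
  · simp only [List.map_flatMap, List.map_append, apply_ite (List.map _), List.map_cons,
      List.map_nil]
    rfl

def gT (x : Inp) : ℕ :=
  gR x * (gm x - 1) * ((gR x + 1) * gE x) +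
  gR x * ((gN x - 1) * ((gm x * gm x + gm x + 1) * gE x) + (gm x * gm x + gm x) * gE x) +
  (gR x * gW x + gM x * (gR x * (gR x + 1) / 2) + (gR x - 1) * (gN x - 1) +
    (gR x - gK x) * (gN x - 1))

theorem p_gT : Poly gT := by unfold gT; fun_prop

theorem target_eq (x : Inp) : (gP x).target = gT x := rfl

def gJ (x : Inp) : List (ℕ × ℤ × ℕ) := l1 x ++ (l2 x ++ (l3 x ++ l4 x))

attribute [local fun_prop] p_l1 p_l2 p_l3 p_l4

theorem p_gJ : Poly gJ := by unfold gJ; fun_prop

theorem weights_eq (x : Inp) :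
    ((gP x).tags.map (gP x).weight).sum = ((gJ x).map fun j => j.2.2).sum := by
  rw [gJ, ← jobs_eq, Par.jobs, List.map_map]
  rfl

attribute [local fun_prop] p_gJ p_gT

/-- the reduction with bounded clique size -/
def red' (x : Inp) : (ℕ × List (ℕ × ℤ × ℕ)) × ℕ :=
  if x.2 ≤ x.1.length then
    ((gm x, gJ x), ((gJ x).map fun j => j.2.2).sum - gT x)
  else ((1, [(0, 0, 1)]), 0)

theorem p_red' : Poly red' := by unfold red'; fun_prop

theorem red_eq (x : Inp) : red' x = redG x := by
  unfold red' redG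
  by_cases h : x.2 ≤ x.1.length
  · rw [if_pos h, if_pos h]
    have h1 : gk x = x.2 := min_eq_left h
    have h2 : gP x = parG x.1.length x.2 (adjM x.1) := by
      unfold gP
      rw [h1]
      rfl
    rw [← h2, ← weights_eq, target_eq, jobs_eq]
    rfl
  · rw [if_neg h, if_neg h]

end PP

open PP in
/-- P: the reduction is computable in polynomial time -/
theorem redG_poly : Poly redG := p_red'.congr red_eq

end Pool.Agent.H257R2.OS
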