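import Pool.Agent.H257R2.OS.T1

/-! Task S3: slots of a global job. -/

namespace Pool.Agent.H257R2.OS

open Finset

namespace S3

variable (p : Par)

theorem b_pos : 0 < p.b := Nat.succ_pos _

theorem m_pos : 0 < p.m := by
  unfold Par.m
  omega

theorem L_pos : 0 < p.L := by
  have := m_pos p
  unfold Par.L
  omega

theorem Nb_le : p.N * p.b ≤ p.L := Nat.le_add_right _ _

theorem col_le {y : ℕ} (hy : y < p.N) : y * p.b + p.b ≤ p.N * p.b := by
  have h := Nat.mul_le_mul_right p.b (Nat.succ_le_of_lt hy)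
  rw [Nat.succ_mul] at h
  exact h

/-- the region of a slot -/
theorem key {U : Tag → Finset ℕ} {z : ℕ → ℕ} (hz : p.Opn U z) {x : Tag} (hx : isGl x = true)
    {τ : ℕ} (hτ : τ ∈ U x) (hn : ¬ p.isZ τ) :
    (τ / p.L < p.R ∧ τ = p.sg z (τ / p.L)) ∨ p.R * p.L ≤ τ := by
  by_cases h1 : τ < p.R * p.L
  · left
    have hL := L_pos p
    have hb := b_pos p
    have h2 : τ % p.L < p.N * p.b := by
      by_contra h
      push Not at h
      exact hn ⟨h1, h⟩
    have ht : τ / p.L < p.R := (Nat.div_lt_iff_lt_mul hL).2 h1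
    have hc : (τ % p.L) / p.b < p.N := (Nat.div_lt_iff_lt_mul hb).2 h2
    have e1 : τ / p.L * p.L + τ % p.L = τ := Nat.div_add_mod' τ p.L
    have e2 : (τ % p.L) / p.b * p.b + (τ % p.L) % p.b = τ % p.L := Nat.div_add_mod' _ _
    have e3 : (τ % p.L) % p.b < p.b := Nat.mod_lt _ hb
    have hm : τ ∈ p.Blk (τ / p.L) ((τ % p.L) / p.b) := by
      unfold Par.Blk
      rw [mem_Ico]
      constructor <;> omega
    have h3 := hz.2 x hx τ hτ _ ht _ hc hm
    refine ⟨ht, ?_⟩
    unfold Par.sg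
    rw [if_pos ht]
    exact h3
  · right
    exact not_lt.1 h1

theorem window {U : Tag → Finset ℕ} (h : p.IsSlots U) {x : Tag} (hU : U x ≠ ∅) :
    (U x).card = p.m ∧ ∀ τ ∈ U x, p.release x ≤ τ ∧ τ < p.due x := by
  rcases h.job x with h1 | h1
  · exact absurd h1 hU
  · exact h1

theorem split {U : Finset ℕ} (hc : U.card = p.m) :
    (U.filter p.isZ).card + (U.filter (fun τ => ¬ p.isZ τ)).card = p.m := by
  rw [← hc]
  exact Finset.card_filter_add_card_filter_not p.isZ

end S3

open S3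

/-- S3a -/
theorem dd_zone (p : Par) (ok : p.Ok) (U : Tag → Finset ℕ) (h : p.IsSlots U) (z : ℕ → ℕ)
    (hz : p.Opn U z) {t : ℕ} (ht : t < p.R) (hU : U (.dd t) ≠ ∅) :
    p.m - 1 ≤ ((U (.dd t)).filter p.isZ).card ∧
      ∀ τ ∈ (U (.dd t)).filter p.isZ, τ / p.L = t := by
  obtain ⟨hc, hw⟩ := window p h hU
  have hL := L_pos p
  have hm := m_pos p
  have hreg : ∀ τ ∈ U (.dd t), τ / p.L = t := by
    intro τ hτ
    obtain ⟨h1, h2⟩ := hw τ hτ
    have e1 : p.release (.dd t) = t * p.L := rfl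
    have e2 : p.due (.dd t) = t * p.L + p.N * p.b + (p.m - 1) := rfl
    have e3 : p.L = p.N * p.b + p.m := rfl
    apply Nat.div_eq_of_lt_le
    · omega
    · rw [Nat.succ_mul]
      omega
  refine ⟨?_, fun τ hτ => hreg τ (mem_filter.1 hτ).1⟩
  have hsub : (U (.dd t)).filter (fun τ => ¬ p.isZ τ) ⊆ {p.sg z t} := by
    intro τ hτ
    rw [mem_filter] at hτ
    rw [mem_singleton]
    rcases key p hz (x := .dd t) rfl hτ.1 hτ.2 with h1 | h1
    · rw [hreg τ hτ.1] at h1
      exact h1.2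
    · exfalso
      have h2 := hreg τ hτ.1
      have h3 : p.R ≤ τ / p.L := (Nat.le_div_iff_mul_le hL).2 h1
      omega
  have h1 := card_le_card hsub
  rw [card_singleton] at h1
  have h2 := split p hc
  omega

/-- S3b -/
theorem gl_zone (p : Par) (ok : p.Ok) (U : Tag → Finset ℕ) (h : p.IsSlots U) (z : ℕ → ℕ)
    (hz : p.Opn U z) {J : Bool} {t x y : ℕ} (ht : t < p.R) (hU : U (.gl J t x y) ≠ ∅) :
    p.m ≤ ((U (.gl J t x y)).filter p.isZ).card + (p.span J + 1) ∧
    (∀ τ ∈ (U (.gl J t x y)).filter p.isZ, t ≤ τ / p.L ∧ (J = false → τ / p.L = t)) ∧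
    (((U (.gl J t x y)).filter p.isZ).card + (p.span J + 1) ≤ p.m →
      p.sg z t ∈ U (.gl J t x y) ∧ p.sg z (t + p.span J) ∈ U (.gl J t x y)) := by
  obtain ⟨hc, hw⟩ := window p h hU
  have hL := L_pos p
  have hb := b_pos p
  have hm := m_pos p
  have hmem : Tag.gl J t x y ∈ p.tags := by
    by_contra hn
    exact hU (h.mem _ hn)
  rw [mem_gl] at hmem
  obtain ⟨-, hx, hy, -⟩ := hmem
  have e1 : p.release (.gl J t x y) = t * p.L + x * p.b := rfl
  have e2 : p.due (.gl J t x y) = p.dl (t + p.span J) y := rfl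
  have e3 : p.L = p.N * p.b + p.m := rfl
  have hcol := col_le p hy
  have hlow : ∀ τ ∈ U (.gl J t x y), t ≤ τ / p.L := by
    intro τ hτ
    obtain ⟨h1, h2⟩ := hw τ hτ
    rw [Nat.le_div_iff_mul_le hL]
    omega
  have hup : t + p.span J < p.R → ∀ τ ∈ U (.gl J t x y),
      τ < (t + p.span J) * p.L + y * p.b + 1 := by
    intro hs τ hτ
    obtain ⟨h1, h2⟩ := hw τ hτ
    rw [e2] at h2
    unfold Par.dl at h2
    rw [if_pos hs] at h2
    exact h2
  have hup2 : ¬ t + p.span J < p.R → ∀ τ ∈ U (.gl J t x y),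
      τ < p.R * p.L + (t + p.span J - p.R) + 1 := by
    intro hs τ hτ
    obtain ⟨h1, h2⟩ := hw τ hτ
    rw [e2] at h2
    unfold Par.dl at h2
    rw [if_neg hs] at h2
    exact h2
  have hsub : (U (.gl J t x y)).filter (fun τ => ¬ p.isZ τ) ⊆
      (Icc t (t + p.span J)).image (p.sg z) := by
    intro τ hτ
    rw [mem_filter] at hτ
    rw [mem_image]
    have hl := hlow τ hτ.1
    rcases key p hz (x := .gl J t x y) rfl hτ.1 hτ.2 with h1 | h1
    · refine ⟨τ / p.L, ?_, h1.2.symm⟩
      rw [mem_Icc]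
      refine ⟨hl, ?_⟩
      by_cases hs : t + p.span J < p.R
      · have h2 := hup hs τ hτ.1
        have h3 : τ / p.L < t + p.span J + 1 := by
          rw [Nat.div_lt_iff_lt_mul hL, Nat.succ_mul]
          omega
        omega
      · omega
    · have hs : ¬ t + p.span J < p.R := by
        intro hs
        have h2 := hup hs τ hτ.1
        have h3 : (t + p.span J + 1) * p.L ≤ p.R * p.L := Nat.mul_le_mul_right _ hs
        rw [Nat.succ_mul] at h3
        omega
      have h2 := hup2 hs τ hτ.1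
      refine ⟨p.R + (τ - p.R * p.L), ?_, ?_⟩
      · rw [mem_Icc]
        constructor <;> omega
      · unfold Par.sg
        rw [if_neg (by omega)]
        omega
  have hcard : ((Icc t (t + p.span J)).image (p.sg z)).card ≤ p.span J + 1 := by
    refine card_image_le.trans ?_
    rw [Nat.card_Icc]
    omega
  have h1 := card_le_card hsub
  have h2 := split p hc
  refine ⟨by omega, ?_, ?_⟩
  · intro τ hτ
    rw [mem_filter] at hτ
    refine ⟨hlow τ hτ.1, ?_⟩
    intro hJ
    have hspan : p.span J = 1 := by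
      rw [hJ]
      rfl
    have hl := hlow τ hτ.1
    obtain ⟨hz1, hz2⟩ := hτ.2
    have hR : τ / p.L < p.R := (Nat.div_lt_iff_lt_mul hL).2 hz1
    by_cases hs : t + p.span J < p.R
    · have h3 := hup hs τ hτ.1
      rw [hspan] at h3
      have h4 : τ / p.L < t + 1 + 1 := by
        rw [Nat.div_lt_iff_lt_mul hL, Nat.succ_mul]
        omega
      have h5 : τ / p.L ≠ t + 1 := by
        intro h6
        have h7 : τ / p.L * p.L + τ % p.L = τ := Nat.div_add_mod' τ p.L
        rw [h6] at h7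
        omega
      omega
    · rw [hspan] at hs
      omega
  · intro h3
    have heq : (U (.gl J t x y)).filter (fun τ => ¬ p.isZ τ) =
        (Icc t (t + p.span J)).image (p.sg z) :=
      Finset.eq_of_subset_of_card_le hsub (by omega)
    constructor
    · have h4 : p.sg z t ∈ (Icc t (t + p.span J)).image (p.sg z) :=
        mem_image_of_mem _ (mem_Icc.2 ⟨le_rfl, Nat.le_add_right _ _⟩)
      rw [← heq, mem_filter] at h4
      exact h4.1
    · have h4 : p.sg z (t + p.span J) ∈ (Icc t (t + p.span J)).image (p.sg z) :=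
        mem_image_of_mem _ (mem_Icc.2 ⟨Nat.le_add_right _ _, le_rfl⟩)
      rw [← heq, mem_filter] at h4
      exact h4.1

end Pool.Agent.H257R2.OS
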