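import Pool.Agent.H257R2.OS.T1

/-!
# Capacity of the zones (task S4)
-/

namespace Pool.Agent.H257R2.OS

open Finset

theorem list_sum_sum_comm {α : Type} (l : List α) (A : Finset ℕ) (g : α → ℕ → ℕ) :
    (l.map fun x => ∑ τ ∈ A, g x τ).sum = ∑ τ ∈ A, (l.map fun x => g x τ).sum := by
  induction l with
  | nil => simp
  | cons a l ih =>
    simp only [List.map_cons, List.sum_cons]
    rw [ih, Finset.sum_add_distrib]

theorem list_sum_le {α : Type} (l : List α) (f g : α → ℕ) (h : ∀ x, f x ≤ g x) :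
    (l.map f).sum ≤ (l.map g).sum := by
  induction l with
  | nil => simp
  | cons a l ih =>
    simp only [List.map_cons, List.sum_cons]
    exact Nat.add_le_add (h a) ih

theorem cap_sum (p : Par) (U : Tag → Finset ℕ) (h : p.IsSlots U) (P : ℕ → Prop) [DecidablePred P]
    (A : Finset ℕ) (hA : ∀ τ, P τ → τ ∈ A) :
    (p.tags.map fun x => ((U x).filter P).card).sum ≤ p.m * A.card := by
  calc (p.tags.map fun x => ((U x).filter P).card).sum
      ≤ (p.tags.map fun x => ∑ τ ∈ A, (if τ ∈ U x then 1 else 0)).sum := by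
        apply list_sum_le
        intro x
        rw [Finset.sum_boole]
        simp only [Nat.cast_id]
        apply Finset.card_le_card
        intro τ hτ
        rw [Finset.mem_filter] at hτ ⊢
        exact ⟨hA τ hτ.2, hτ.1⟩
    _ = ∑ τ ∈ A, (p.tags.map fun x => (if τ ∈ U x then 1 else 0)).sum :=
        list_sum_sum_comm p.tags A fun x τ => if τ ∈ U x then 1 else 0
    _ ≤ ∑ _τ ∈ A, p.m := Finset.sum_le_sum fun τ _ => h.cap τ
    _ = p.m * A.card := by rw [Finset.sum_const, smul_eq_mul, mul_comm]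

theorem cap_main (p : Par) (U : Tag → Finset ℕ) (h : p.IsSlots U) (P : ℕ → Prop) [DecidablePred P]
    (A : Finset ℕ) (hA : ∀ τ, P τ → τ ∈ A) :
    (∑ t ∈ range p.R, ∑ e ∈ range (p.m - 2), ((U (.zt t e)).filter P).card) +
      (∑ t ∈ range p.R, ((U (.dd t)).filter P).card) +
      (∑ t ∈ range p.R, ∑ x ∈ range p.N, ∑ y ∈ range p.N,
        (((U (.gl false t x y)).filter P).card + ((U (.gl true t x y)).filter P).card)) ≤
      p.m * A.card := by
  refine le_trans ?_ (cap_sum p U h P A hA)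
  rw [sum_tags]
  have key : ∀ J t x y, (if p.rel J t x y = true then ((U (.gl J t x y)).filter P).card else 0) =
      ((U (.gl J t x y)).filter P).card := by
    intro J t x y
    by_cases hr : p.rel J t x y = true
    · exact if_pos hr
    · have hU : U (.gl J t x y) = ∅ := h.mem _ fun hm => hr ((mem_gl p J t x y).1 hm).2.2.2
      rw [if_neg hr, hU]
      simp
  have e4 : (∑ t ∈ range p.R, ∑ x ∈ range p.N, ∑ y ∈ range p.N,
      ((if p.rel false t x y = true then ((U (.gl false t x y)).filter P).card else 0) +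
       (if p.rel true t x y = true then ((U (.gl true t x y)).filter P).card else 0))) =
      (∑ t ∈ range p.R, ∑ x ∈ range p.N, ∑ y ∈ range p.N,
        (((U (.gl false t x y)).filter P).card + ((U (.gl true t x y)).filter P).card)) := by
    refine Finset.sum_congr rfl fun t _ => Finset.sum_congr rfl fun x _ =>
      Finset.sum_congr rfl fun y _ => ?_
    rw [key, key]
  rw [e4]
  omega

theorem L_pos (p : Par) : 0 < p.L := by unfold Par.L Par.m; omega

/-- the slots of the zone of region `t` -/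
def Zn (p : Par) (t : ℕ) : Finset ℕ := Ico (t * p.L + p.N * p.b) (t * p.L + p.N * p.b + p.m)

theorem card_Zn (p : Par) (t : ℕ) : (Zn p t).card = p.m := by
  unfold Zn; rw [Nat.card_Ico]; omega

theorem mem_Zn_of (p : Par) {τ : ℕ} (hz : p.isZ τ) : τ ∈ Zn p (τ / p.L) := by
  unfold Zn
  rw [Finset.mem_Ico]
  have h1 : p.L * (τ / p.L) + τ % p.L = τ := Nat.div_add_mod τ p.L
  have h2 : τ % p.L < p.L := Nat.mod_lt _ (L_pos p)
  have h3 : p.L = p.N * p.b + p.m := rfl
  have h4 := hz.2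
  have h5 : (τ / p.L) * p.L = p.L * (τ / p.L) := mul_comm _ _
  rw [h5]
  omega

theorem Zn_spec (p : Par) {τ t : ℕ} (ht : t < p.R) (h : τ ∈ Zn p t) : p.isZ τ ∧ τ / p.L = t := by
  unfold Zn at h
  rw [Finset.mem_Ico] at h
  have hL := L_pos p
  have h3 : p.L = p.N * p.b + p.m := rfl
  obtain ⟨r, hr⟩ : ∃ r, τ = t * p.L + r := ⟨τ - t * p.L, by omega⟩
  have hr1 : p.N * p.b ≤ r := by omega
  have hr2 : r < p.L := by omega
  have hd : τ / p.L = t := by
    rw [hr, mul_comm, Nat.mul_add_div hL, Nat.div_eq_of_lt hr2, add_zero]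
  have hm : τ % p.L = r := by
    rw [hr, mul_comm, Nat.mul_add_mod, Nat.mod_eq_of_lt hr2]
  refine ⟨⟨?_, ?_⟩, hd⟩
  · have : (t + 1) * p.L ≤ p.R * p.L := Nat.mul_le_mul_right _ ht
    have h5 : (t + 1) * p.L = t * p.L + p.L := by ring
    omega
  · rw [hm]; exact hr1

theorem zt_card (p : Par) (U : Tag → Finset ℕ) (h : p.IsSlots U)
    (hzt : ∀ t < p.R, ∀ e < p.m - 2, U (.zt t e) ≠ ∅) (P : ℕ → Prop) [DecidablePred P]
    {t : ℕ} (ht : t < p.R) (hP : ∀ τ ∈ Zn p t, P τ) :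
    ∑ e ∈ range (p.m - 2), ((U (.zt t e)).filter P).card = (p.m - 2) * p.m := by
  have : ∀ e ∈ range (p.m - 2), ((U (.zt t e)).filter P).card = p.m := by
    intro e he
    rw [Finset.mem_range] at he
    rcases h.job (.zt t e) with h0 | ⟨h1, h2⟩
    · exact absurd h0 (hzt t ht e he)
    · rw [Finset.filter_true_of_mem, h1]
      intro τ hτ
      apply hP
      have := h2 τ hτ
      unfold Par.release Par.due at this
      unfold Zn
      rw [Finset.mem_Ico]
      exact this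
  rw [Finset.sum_congr rfl this, Finset.sum_const, Finset.card_range, smul_eq_mul]

/-- S4a: capacity of one zone -/
theorem zone_one (p : Par) (ok : p.Ok) (U : Tag → Finset ℕ) (h : p.IsSlots U)
    (hzt : ∀ t < p.R, ∀ e < p.m - 2, U (.zt t e) ≠ ∅) {t : ℕ} (ht : t < p.R) :
    ((U (.dd t)).filter fun τ => p.isZ τ ∧ τ / p.L = t).card +
      ∑ x ∈ range p.N, ∑ y ∈ range p.N,
        ((U (.gl false t x y)).filter fun τ => p.isZ τ ∧ τ / p.L = t).card ≤ 2 * p.m := by
  have hA : ∀ τ, (p.isZ τ ∧ τ / p.L = t) → τ ∈ Zn p t := by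
    rintro τ ⟨h1, h2⟩
    have := mem_Zn_of p h1
    rwa [h2] at this
  have main := cap_main p U h (fun τ => p.isZ τ ∧ τ / p.L = t) (Zn p t) hA
  rw [card_Zn] at main
  have h1 : ∑ e ∈ range (p.m - 2),
      ((U (.zt t e)).filter fun τ => p.isZ τ ∧ τ / p.L = t).card = (p.m - 2) * p.m :=
    zt_card p U h hzt _ ht fun τ hτ => Zn_spec p ht hτ
  have h2 : ∑ e ∈ range (p.m - 2),
      ((U (.zt t e)).filter fun τ => p.isZ τ ∧ τ / p.L = t).card ≤
      ∑ t' ∈ range p.R, ∑ e ∈ range (p.m - 2),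
        ((U (.zt t' e)).filter fun τ => p.isZ τ ∧ τ / p.L = t).card :=
    Finset.single_le_sum (f := fun t' => ∑ e ∈ range (p.m - 2),
        ((U (.zt t' e)).filter fun τ => p.isZ τ ∧ τ / p.L = t).card)
      (fun _ _ => Nat.zero_le _) (Finset.mem_range.2 ht)
  have h3 : ((U (.dd t)).filter fun τ => p.isZ τ ∧ τ / p.L = t).card ≤
      ∑ t' ∈ range p.R, ((U (.dd t')).filter fun τ => p.isZ τ ∧ τ / p.L = t).card :=
    Finset.single_le_sum (f := fun t' => ((U (.dd t')).filter fun τ => p.isZ τ ∧ τ / p.L = t).card)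
      (fun _ _ => Nat.zero_le _) (Finset.mem_range.2 ht)
  have h4 : (∑ x ∈ range p.N, ∑ y ∈ range p.N,
        ((U (.gl false t x y)).filter fun τ => p.isZ τ ∧ τ / p.L = t).card) ≤
      ∑ x ∈ range p.N, ∑ y ∈ range p.N,
        (((U (.gl false t x y)).filter fun τ => p.isZ τ ∧ τ / p.L = t).card +
          ((U (.gl true t x y)).filter fun τ => p.isZ τ ∧ τ / p.L = t).card) :=
    Finset.sum_le_sum fun x _ => Finset.sum_le_sum fun y _ => Nat.le_add_right _ _
  have h5 : (∑ x ∈ range p.N, ∑ y ∈ range p.N,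
        (((U (.gl false t x y)).filter fun τ => p.isZ τ ∧ τ / p.L = t).card +
          ((U (.gl true t x y)).filter fun τ => p.isZ τ ∧ τ / p.L = t).card)) ≤
      ∑ t' ∈ range p.R, ∑ x ∈ range p.N, ∑ y ∈ range p.N,
        (((U (.gl false t' x y)).filter fun τ => p.isZ τ ∧ τ / p.L = t).card +
          ((U (.gl true t' x y)).filter fun τ => p.isZ τ ∧ τ / p.L = t).card) :=
    Finset.single_le_sum (f := fun t' => ∑ x ∈ range p.N, ∑ y ∈ range p.N,
        (((U (.gl false t' x y)).filter fun τ => p.isZ τ ∧ τ / p.L = t).card +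
          ((U (.gl true t' x y)).filter fun τ => p.isZ τ ∧ τ / p.L = t).card))
      (fun _ _ => Nat.zero_le _) (Finset.mem_range.2 ht)
  have h6 : p.m * p.m = (p.m - 2) * p.m + 2 * p.m := by
    rw [← add_mul]
    congr 1
  omega

/-- S4b: capacity of the zones from region `n` on -/
theorem zone_ge (p : Par) (ok : p.Ok) (U : Tag → Finset ℕ) (h : p.IsSlots U)
    (hzt : ∀ t < p.R, ∀ e < p.m - 2, U (.zt t e) ≠ ∅) {n : ℕ} (hn : n ≤ p.R) :
    ∑ t ∈ Ico n p.R, (((U (.dd t)).filter fun τ => p.isZ τ ∧ n ≤ τ / p.L).card +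
      ∑ x ∈ range p.N, ∑ y ∈ range p.N,
        (((U (.gl false t x y)).filter fun τ => p.isZ τ ∧ n ≤ τ / p.L).card +
        ((U (.gl true t x y)).filter fun τ => p.isZ τ ∧ n ≤ τ / p.L).card)) ≤
      2 * p.m * (p.R - n) := by
  have hA : ∀ τ, (p.isZ τ ∧ n ≤ τ / p.L) → τ ∈ (Ico n p.R).biUnion (Zn p) := by
    rintro τ ⟨h1, h2⟩
    rw [Finset.mem_biUnion]
    refine ⟨τ / p.L, ?_, mem_Zn_of p h1⟩
    rw [Finset.mem_Ico]
    refine ⟨h2, ?_⟩
    rw [Nat.div_lt_iff_lt_mul (L_pos p)]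
    exact h1.1
  have main := cap_main p U h (fun τ => p.isZ τ ∧ n ≤ τ / p.L) ((Ico n p.R).biUnion (Zn p)) hA
  have hcard : ((Ico n p.R).biUnion (Zn p)).card ≤ (p.R - n) * p.m := by
    refine le_trans Finset.card_biUnion_le ?_
    rw [Finset.sum_congr rfl fun t _ => card_Zn p t, Finset.sum_const, Nat.card_Ico, smul_eq_mul]
  have hcard' : p.m * ((Ico n p.R).biUnion (Zn p)).card ≤ p.m * ((p.R - n) * p.m) :=
    Nat.mul_le_mul_left _ hcard
  have hsub : Ico n p.R ⊆ range p.R := by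
    intro t ht
    rw [Finset.mem_Ico] at ht
    exact Finset.mem_range.2 ht.2
  have h1 : ∑ t ∈ Ico n p.R, ∑ e ∈ range (p.m - 2),
      ((U (.zt t e)).filter fun τ => p.isZ τ ∧ n ≤ τ / p.L).card =
      (p.R - n) * ((p.m - 2) * p.m) := by
    have : ∀ t ∈ Ico n p.R, ∑ e ∈ range (p.m - 2),
        ((U (.zt t e)).filter fun τ => p.isZ τ ∧ n ≤ τ / p.L).card = (p.m - 2) * p.m := by
      intro t ht
      rw [Finset.mem_Ico] at ht
      refine zt_card p U h hzt _ ht.2 fun τ hτ => ?_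
      obtain ⟨h1, h2⟩ := Zn_spec p ht.2 hτ
      exact ⟨h1, by rw [h2]; exact ht.1⟩
    rw [Finset.sum_congr rfl this, Finset.sum_const, Nat.card_Ico, smul_eq_mul]
  have h2 : ∑ t ∈ Ico n p.R, ∑ e ∈ range (p.m - 2),
      ((U (.zt t e)).filter fun τ => p.isZ τ ∧ n ≤ τ / p.L).card ≤
      ∑ t ∈ range p.R, ∑ e ∈ range (p.m - 2),
        ((U (.zt t e)).filter fun τ => p.isZ τ ∧ n ≤ τ / p.L).card :=
    Finset.sum_le_sum_of_subset hsub
  have h3 : ∑ t ∈ Ico n p.R, ((U (.dd t)).filter fun τ => p.isZ τ ∧ n ≤ τ / p.L).card ≤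
      ∑ t ∈ range p.R, ((U (.dd t)).filter fun τ => p.isZ τ ∧ n ≤ τ / p.L).card :=
    Finset.sum_le_sum_of_subset hsub
  have h5 : (∑ t ∈ Ico n p.R, ∑ x ∈ range p.N, ∑ y ∈ range p.N,
        (((U (.gl false t x y)).filter fun τ => p.isZ τ ∧ n ≤ τ / p.L).card +
          ((U (.gl true t x y)).filter fun τ => p.isZ τ ∧ n ≤ τ / p.L).card)) ≤
      ∑ t ∈ range p.R, ∑ x ∈ range p.N, ∑ y ∈ range p.N,
        (((U (.gl false t x y)).filter fun τ => p.isZ τ ∧ n ≤ τ / p.L).card +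
          ((U (.gl true t x y)).filter fun τ => p.isZ τ ∧ n ≤ τ / p.L).card) :=
    Finset.sum_le_sum_of_subset hsub
  have h6 : p.m * ((p.R - n) * p.m) = (p.R - n) * ((p.m - 2) * p.m) + 2 * p.m * (p.R - n) := by
    obtain ⟨k, hk⟩ : ∃ k, p.m = k + 2 := ⟨p.K + 2, rfl⟩
    have hk2 : p.m - 2 = k := by omega
    rw [hk2, hk]
    ring
  rw [Finset.sum_add_distrib]
  omega

end Pool.Agent.H257R2.OS
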