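import Pool.Agent.H257R2.OS.T1

/-!
S5: arithmetic of the counts.
-/

namespace Pool.Agent.H257R2.OS

open Finset

/-- S5: arithmetic of the counts -/
theorem counts_one {R N M WC m : ℕ} (c d r : ℕ → ℕ) (hm : 6 ≤ m)
    (h1 : ∀ t < R, (m - 1) + (m - 2) * c t ≤ 2 * m)
    (h2 : ∀ n ≤ R, ∑ t ∈ Ico n R, ((m - 1) + (m - 2) * c t + 3 * d t) ≤ 2 * m * (R - n))
    (h3 : ∀ t < R, d t ≤ N * N)
    (hr : ∀ t < R, r t ≤ 2 * N * (c t + d t))
    (hT : R * WC + M * (R * (R + 1) / 2) ≤
      ∑ t ∈ range R, (c t * WC + d t * ((t + 1) * M) + r t))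
    (hM : 4 * R * N < M)
    (hWC : R * N * N * (R * M + 2 * N) + 2 * R * N < WC) :
    ∀ t < R, c t = 1 ∧ d t = 1 := by
  -- `c t ≤ 1`
  have hc1 : ∀ t < R, c t ≤ 1 := by
    intro t ht
    by_contra hc
    push Not at hc
    have h := h1 t ht
    have h' : (m - 2) * 2 ≤ (m - 2) * c t := Nat.mul_le_mul_left _ hc
    omega
  -- `c t = 1`
  have hc : ∀ t < R, c t = 1 := by
    by_contra hcon
    push Not at hcon
    obtain ⟨s, hs, hcs⟩ := hcon
    have hcs0 : c s = 0 := by
      have := hc1 s hs
      omega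
    have hsumc : ∑ t ∈ range R, c t + 1 ≤ R := by
      have hlt : ∑ t ∈ range R, c t < ∑ _t ∈ range R, 1 := by
        refine Finset.sum_lt_sum (fun t ht => hc1 t (Finset.mem_range.1 ht)) ⟨s, ?_, ?_⟩
        · exact Finset.mem_range.2 hs
        · omega
      simpa using hlt
    have hub : ∑ t ∈ range R, (c t * WC + d t * ((t + 1) * M) + r t) ≤
        ∑ t ∈ range R, (c t * WC + (N * N * (R * M) + 2 * N * (1 + N * N))) := by
      refine Finset.sum_le_sum fun t ht => ?_
      have ht' := Finset.mem_range.1 ht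
      have a1 : d t * ((t + 1) * M) ≤ N * N * (R * M) :=
        Nat.mul_le_mul (h3 t ht') (Nat.mul_le_mul_right _ ht')
      have a2 : r t ≤ 2 * N * (1 + N * N) :=
        (hr t ht').trans (Nat.mul_le_mul_left _ (Nat.add_le_add (hc1 t ht') (h3 t ht')))
      omega
    have e0 : ∑ t ∈ range R, (c t * WC + (N * N * (R * M) + 2 * N * (1 + N * N))) =
        (∑ t ∈ range R, c t) * WC + R * (N * N * (R * M) + 2 * N * (1 + N * N)) := by
      rw [Finset.sum_add_distrib, ← Finset.sum_mul, Finset.sum_const, Finset.card_range,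
        smul_eq_mul]
    rw [e0] at hub
    have e1 : R * (N * N * (R * M) + 2 * N * (1 + N * N)) =
        R * N * N * (R * M + 2 * N) + 2 * R * N := by ring
    rw [e1] at hub
    have e2 : (∑ t ∈ range R, c t + 1) * WC ≤ R * WC := Nat.mul_le_mul_right _ hsumc
    rw [add_mul, one_mul] at e2
    have := hT.trans hub
    have h0 := Nat.zero_le (M * (R * (R + 1) / 2))
    omega
  -- the sums `D n`
  have hD : ∀ n ≤ R, ∑ t ∈ Ico n R, d t ≤ R - n := by
    intro n hn
    have h := h2 n hn
    have e : ∑ t ∈ Ico n R, ((m - 1) + (m - 2) * c t + 3 * d t) =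
        (R - n) * (2 * m - 3) + 3 * ∑ t ∈ Ico n R, d t := by
      rw [Finset.mul_sum]
      have : ∀ t ∈ Ico n R, ((m - 1) + (m - 2) * c t + 3 * d t) = (2 * m - 3) + 3 * d t := by
        intro t ht
        rw [hc t (Finset.mem_Ico.1 ht).2, mul_one]
        omega
      rw [Finset.sum_congr rfl this, Finset.sum_add_distrib, Finset.sum_const, Nat.card_Ico,
        smul_eq_mul]
    rw [e] at h
    have e2 : 2 * m * (R - n) = (R - n) * (2 * m - 3) + 3 * (R - n) := by
      have : 2 * m = (2 * m - 3) + 3 := by omega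
      calc 2 * m * (R - n) = ((2 * m - 3) + 3) * (R - n) := by rw [← this]
        _ = _ := by ring
    rw [e2] at h
    omega
  have hDR : ∑ t ∈ range R, d t ≤ R := by
    have := hD 0 (Nat.zero_le _)
    rwa [← Finset.range_eq_Ico, Nat.sub_zero] at this
  have hrs : ∑ t ∈ range R, r t < M := by
    refine lt_of_le_of_lt ?_ hM
    calc ∑ t ∈ range R, r t ≤ ∑ t ∈ range R, 2 * N * (1 + d t) := by
          refine Finset.sum_le_sum fun t ht => ?_
          have := hr t (Finset.mem_range.1 ht)
          rwa [hc t (Finset.mem_range.1 ht)] at this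
      _ = 2 * N * (R + ∑ t ∈ range R, d t) := by
          rw [← Finset.mul_sum, Finset.sum_add_distrib, Finset.sum_const, Finset.card_range,
            smul_eq_mul, mul_one]
      _ ≤ 2 * N * (R + R) := Nat.mul_le_mul_left _ (Nat.add_le_add_left hDR _)
      _ = 4 * R * N := by ring
  -- swap
  have hswap : ∑ n ∈ range R, ∑ t ∈ Ico n R, d t = ∑ t ∈ range R, (t + 1) * d t := by
    rw [Finset.sum_comm' (s' := fun t => range (t + 1)) (t' := range R)]
    · refine Finset.sum_congr rfl fun t _ => ?_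
      rw [Finset.sum_const, Finset.card_range, smul_eq_mul]
    · intro n t
      simp only [Finset.mem_range, Finset.mem_Ico]
      omega
  have hgauss : ∑ n ∈ range R, (R - n) = R * (R + 1) / 2 := by
    have h1 : ∀ R : ℕ, (∑ n ∈ range R, (R - n)) * 2 = R * (R + 1) := by
      intro R
      induction R with
      | zero => simp
      | succ R ih =>
        rw [Finset.sum_range_succ']
        have : ∑ n ∈ range R, (R + 1 - (n + 1)) = ∑ n ∈ range R, (R - n) :=
          Finset.sum_congr rfl fun n _ => by omega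
        rw [this, add_mul, ih]
        simp only [Nat.sub_zero]
        ring
    have := h1 R
    omega
  have hS : ∑ t ∈ range R, (t + 1) * d t = R * (R + 1) / 2 := by
    have hle : ∑ t ∈ range R, (t + 1) * d t ≤ R * (R + 1) / 2 := by
      rw [← hswap, ← hgauss]
      exact Finset.sum_le_sum fun n hn => hD n (Finset.mem_range.1 hn).le
    by_contra hne
    have hlt : ∑ t ∈ range R, (t + 1) * d t + 1 ≤ R * (R + 1) / 2 :=
      Nat.succ_le_of_lt (lt_of_le_of_ne hle hne)
    have e : ∑ t ∈ range R, (c t * WC + d t * ((t + 1) * M) + r t) =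
        R * WC + M * ∑ t ∈ range R, (t + 1) * d t + ∑ t ∈ range R, r t := by
      rw [Finset.sum_add_distrib, Finset.sum_add_distrib]
      congr 2
      · rw [← Finset.sum_mul, Finset.sum_congr rfl fun t ht => hc t (Finset.mem_range.1 ht)]
        simp
      · rw [Finset.mul_sum]
        refine Finset.sum_congr rfl fun t _ => ?_
        ring
    rw [e] at hT
    have h5 : M * (∑ t ∈ range R, (t + 1) * d t + 1) ≤ M * (R * (R + 1) / 2) :=
      Nat.mul_le_mul_left _ hlt
    rw [mul_add, mul_one] at h5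
    omega
  have hDeq : ∀ n < R, ∑ t ∈ Ico n R, d t = R - n := by
    have h := hswap.trans (hS.trans hgauss.symm)
    have h6 := (Finset.sum_eq_sum_iff_of_le
      (fun n hn => hD n (Finset.mem_range.1 hn).le)).1 h
    exact fun n hn => h6 n (Finset.mem_range.2 hn)
  intro t ht
  refine ⟨hc t ht, ?_⟩
  have h7 := hDeq t ht
  rw [Finset.sum_eq_sum_Ico_succ_bot ht] at h7
  rcases Nat.lt_or_ge (t + 1) R with h8 | h8
  · rw [hDeq (t + 1) h8] at h7
    omega
  · rw [Finset.Ico_eq_empty (by omega), Finset.sum_empty] at h7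
    omega

end Pool.Agent.H257R2.OS
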