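import Pool.Agent.H257R2.OS.T1

/-!
Task S6: identity of the rewards.
-/

namespace Pool.Agent.H257R2.OS

open Finset

/-- S6: identity of the rewards -/
theorem reward_sum (p : Par) (ok : p.Ok) (z : ℕ → ℕ) (hz : ∀ t < p.R, z t < p.N) (J : Bool) :
    ∑ t ∈ range p.R, (p.xv z J t + (p.N - 1 - p.yv z J t)) = (p.R - p.span J) * (p.N - 1) := by
  have hs : p.span J ≤ p.R := by
    have h1 := ok.hK
    have h2 := ok.hR
    unfold Par.span
    split_ifs <;> omega
  obtain ⟨R', hR'⟩ : ∃ R', p.R = p.span J + R' := ⟨p.R - p.span J, by omega⟩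
  rw [sum_add_distrib]
  have hx : ∑ t ∈ range p.R, p.xv z J t = ∑ u ∈ range R', z (p.span J + u) := by
    rw [hR', sum_range_add]
    have h0 : ∑ t ∈ range (p.span J), p.xv z J t = 0 := by
      refine sum_eq_zero fun t ht => ?_
      rw [mem_range] at ht
      simp [Par.xv, ht]
    rw [h0, zero_add]
    refine sum_congr rfl fun u _ => ?_
    simp [Par.xv]
  have hy : ∑ t ∈ range p.R, (p.N - 1 - p.yv z J t) =
      ∑ u ∈ range R', (p.N - 1 - z (p.span J + u)) := by
    rw [show range p.R = range (R' + p.span J) by rw [hR', add_comm], sum_range_add]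
    have h0 : ∑ t ∈ range (p.span J), (p.N - 1 - p.yv z J (R' + t)) = 0 := by
      refine sum_eq_zero fun t _ => ?_
      have : ¬ (R' + t + p.span J < p.R) := by omega
      simp [Par.yv, this]
    rw [h0, add_zero]
    refine sum_congr rfl fun u hu => ?_
    rw [mem_range] at hu
    have : u + p.span J < p.R := by omega
    simp [Par.yv, this, add_comm]
  rw [hx, hy, ← sum_add_distrib]
  have h3 : ∀ u ∈ range R', z (p.span J + u) + (p.N - 1 - z (p.span J + u)) = p.N - 1 := by
    intro u hu
    rw [mem_range] at hu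
    have := hz (p.span J + u) (by omega)
    omega
  rw [sum_congr rfl h3, sum_const, card_range, smul_eq_mul]
  congr 1
  omega

end Pool.Agent.H257R2.OS
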