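import Pool.Agent.H257R2.OS.S2
import Pool.Agent.H257R2.OS.S3
import Pool.Agent.H257R2.OS.S4
import Pool.Agent.H257R2.OS.S5
import Pool.Agent.H257R2.OS.S6

namespace Pool.Agent.H257R2.OS

open Finset

theorem xv_le (p : Par) (z : ℕ → ℕ) (J : Bool) (t : ℕ) : p.xv z J t ≤ z t := by
  unfold Par.xv; split_ifs <;> omega

theorem filter_conv {p : Par} {A : Finset ℕ} {n : ℕ} (h : ∀ τ ∈ A.filter p.isZ, n ≤ τ / p.L) :
    A.filter (fun τ => p.isZ τ ∧ n ≤ τ / p.L) = A.filter p.isZ := by
  ext τ
  simp only [mem_filter]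
  constructor
  · rintro ⟨h1, h2, _⟩; exact ⟨h1, h2⟩
  · rintro ⟨h1, h2⟩; exact ⟨h1, h2, h τ (mem_filter.2 ⟨h1, h2⟩)⟩

theorem filter_conv' {p : Par} {A : Finset ℕ} {n : ℕ} (h : ∀ τ ∈ A.filter p.isZ, τ / p.L = n) :
    A.filter (fun τ => p.isZ τ ∧ τ / p.L = n) = A.filter p.isZ := by
  ext τ
  simp only [mem_filter]
  constructor
  · rintro ⟨h1, h2, _⟩; exact ⟨h1, h2⟩
  · rintro ⟨h1, h2⟩; exact ⟨h1, h2, h τ (mem_filter.2 ⟨h1, h2⟩)⟩

/-- S7: soundness -/
theorem sound (p : Par) (ok : p.Ok) (U : Tag → Finset ℕ) (h : p.IsSlots U)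
    (hT : p.target ≤ p.value U) : ∃ z, p.Solves z := by
  obtain ⟨hzt, hdd, hC, z, hzN, hz⟩ := opened p ok U h hT
  have hop : p.Opn U z := ⟨hzN, hz⟩
  have hm : p.m = p.K + 4 := rfl
  have hK := ok.hK
  -- per-job numbers
  set G : Bool → ℕ → ℕ → ℕ → ℕ := fun J t x y => ((U (.gl J t x y)).filter p.isZ).card with hG
  have hGlow : ∀ J, ∀ t < p.R, ∀ x y, (if U (.gl J t x y) = ∅ then 0 else 1) * (p.m - (p.span J + 1)) ≤
      G J t x y := by
    intro J t ht x y
    split_ifs with h1
    · simp
    · have := (gl_zone p ok U h z hop (J := J) (x := x) (y := y) ht h1).1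
      simp only [hG, one_mul]
      omega
  have hspan : ∀ J, p.span J = if J = true then p.K else 1 := fun J => rfl
  -- the sum of the numbers of zone slots of the jobs of type (J, t)
  set Z : Bool → ℕ → ℕ := fun J t => ∑ x ∈ range p.N, ∑ y ∈ range p.N, G J t x y with hZ
  have hZlow : ∀ J, ∀ t < p.R, p.cnt U J t * (p.m - (p.span J + 1)) ≤ Z J t := by
    intro J t ht
    simp only [Par.cnt, hZ, Finset.sum_mul]
    exact sum_le_sum fun x _ => sum_le_sum fun y _ => hGlow J t ht x y
  set D : ℕ → ℕ := fun t => ((U (.dd t)).filter p.isZ).card with hD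
  have hDlow : ∀ t < p.R, p.m - 1 ≤ D t := fun t ht => (dd_zone p ok U h z hop ht (hdd t ht)).1
  -- capacities
  have hcap1 : ∀ t < p.R, D t + Z false t ≤ 2 * p.m := by
    intro t ht
    have h1 := zone_one p ok U h hzt ht
    rw [filter_conv' (dd_zone p ok U h z hop ht (hdd t ht)).2] at h1
    have h2 : ∀ x y, ((U (.gl false t x y)).filter fun τ => p.isZ τ ∧ τ / p.L = t) =
        (U (.gl false t x y)).filter p.isZ := by
      intro x y
      by_cases h3 : U (.gl false t x y) = ∅
      · rw [h3]; rfl
      · exact filter_conv' fun τ hτ =>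
          ((gl_zone p ok U h z hop (J := false) (x := x) (y := y) ht h3).2.1 τ hτ).2 rfl
    simp only [h2] at h1
    exact h1
  have hcap2 : ∀ n ≤ p.R, ∑ t ∈ Ico n p.R, (D t + (Z false t + Z true t)) ≤
      2 * p.m * (p.R - n) := by
    intro n hn
    have h1 := zone_ge p ok U h hzt hn
    refine le_trans (le_of_eq ?_) h1
    refine sum_congr rfl fun t ht => ?_
    obtain ⟨h3, h4⟩ := mem_Ico.1 ht
    rw [filter_conv (A := U (.dd t)) (n := n) (fun τ hτ => by
      rw [(dd_zone p ok U h z hop h4 (hdd t h4)).2 τ hτ]; exact h3)]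
    have h2 : ∀ J x y, ((U (.gl J t x y)).filter fun τ => p.isZ τ ∧ n ≤ τ / p.L) =
        (U (.gl J t x y)).filter p.isZ := by
      intro J x y
      by_cases h5 : U (.gl J t x y) = ∅
      · rw [h5]; rfl
      · exact filter_conv fun τ hτ =>
          le_trans h3 ((gl_zone p ok U h z hop (J := J) (x := x) (y := y) h4 h5).2.1 τ hτ).1
    simp only [h2]
    simp only [hZ, hD, hG, sum_add_distrib]
  -- the counts are one
  have hcnt : ∀ t < p.R, p.cnt U false t = 1 ∧ p.cnt U true t = 1 := by
    refine counts_one (R := p.R) (N := p.N) (M := p.M) (WC := p.WC) (m := p.m) (p.cnt U false)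
      (p.cnt U true) (fun t => ∑ x ∈ range p.N, ∑ y ∈ range p.N,
        ((if U (.gl false t x y) = ∅ then 0 else (x + (p.N - 1 - y))) +
         (if U (.gl true t x y) = ∅ then 0 else (x + (p.N - 1 - y))))) (by omega) ?_ ?_ ?_ ?_ ?_
      ok.hM ok.hWC
    · intro t ht
      have h1 := hcap1 t ht
      have h2 := hZlow false t ht
      have h3 := hDlow t ht
      have h4 : p.span false = 1 := rfl
      rw [h4, mul_comm] at h2
      have h5 : p.m - (1 + 1) = p.m - 2 := by omega
      rw [h5] at h2
      omega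
    · intro n hn
      refine le_trans (sum_le_sum fun t ht => ?_) (hcap2 n hn)
      obtain ⟨h3, h4⟩ := mem_Ico.1 ht
      have h2 := hZlow false t h4
      have h2' := hZlow true t h4
      have h5 := hDlow t h4
      have h6 : p.span false = 1 := rfl
      have h7 : p.span true = p.K := rfl
      rw [h6, mul_comm] at h2
      rw [h7, mul_comm] at h2'
      have h8 : p.m - (1 + 1) = p.m - 2 := by omega
      have h9 : p.m - (p.K + 1) = 3 := by omega
      rw [h8] at h2
      rw [h9] at h2'
      omega
    · intro t _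
      unfold Par.cnt
      calc ∑ x ∈ range p.N, ∑ y ∈ range p.N, (if U (.gl true t x y) = ∅ then 0 else 1)
          ≤ ∑ x ∈ range p.N, ∑ y ∈ range p.N, 1 :=
            sum_le_sum fun x _ => sum_le_sum fun y _ => by split_ifs <;> simp
        _ = p.N * p.N := by simp
    · intro t _
      simp only [Par.cnt, mul_add, mul_sum, ← sum_add_distrib]
      refine sum_le_sum fun x hx => sum_le_sum fun y hy => ?_
      have hx' := mem_range.1 hx
      split_ifs <;> omega
    · have h1 : p.R * p.WC + p.M * (p.R * (p.R + 1) / 2) ≤ p.targetC := by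
        unfold Par.targetC; omega
      refine (h1.trans hC).trans (le_of_eq ?_)
      unfold Par.glv
      refine sum_congr rfl fun t _ => ?_
      simp only [Par.cnt, sum_mul, ← sum_add_distrib]
      refine sum_congr rfl fun x _ => sum_congr rfl fun y _ => ?_
      have w1 : p.weight (.gl false t x y) = p.WC + (x + (p.N - 1 - y)) := by
        simp [Par.weight]
      have w2 : p.weight (.gl true t x y) = (t + 1) * p.M + (x + (p.N - 1 - y)) := by
        simp [Par.weight]
      rw [w1, w2]
      split_ifs <;> ring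
  -- unique on-time constraint jobs
  have huniq : ∀ J, ∀ t < p.R, ∃ x y, x < p.N ∧ y < p.N ∧ U (.gl J t x y) ≠ ∅ ∧
      ∀ x' y', (x', y') ≠ (x, y) → U (.gl J t x' y') = ∅ := by
    intro J t ht
    have h1 : p.cnt U J t = 1 := by
      cases J
      · exact (hcnt t ht).1
      · exact (hcnt t ht).2
    unfold Par.cnt at h1
    rw [← sum_product'] at h1
    have h2 : (((range p.N ×ˢ range p.N).filter fun q : ℕ × ℕ => U (.gl J t q.1 q.2) ≠ ∅)).card
        = 1 := by
      rw [card_filter]
      refine (sum_congr rfl fun q _ => ?_).trans h1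
      by_cases h3 : U (.gl J t q.1 q.2) = ∅ <;> simp [h3]
    rw [card_eq_one] at h2
    obtain ⟨⟨x, y⟩, hxy⟩ := h2
    have h3 : (x, y) ∈ ((range p.N ×ˢ range p.N).filter fun q : ℕ × ℕ => U (.gl J t q.1 q.2) ≠ ∅) := by
      rw [hxy]; exact mem_singleton_self _
    simp only [mem_filter, mem_product, mem_range] at h3
    refine ⟨x, y, h3.1.1, h3.1.2, h3.2, fun x' y' hne => ?_⟩
    by_contra h4
    have h5 : Tag.gl J t x' y' ∈ p.tags := by
      by_contra h6
      exact h4 (h.mem _ h6)
    rw [mem_gl] at h5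
    have h6 : (x', y') ∈ ((range p.N ×ˢ range p.N).filter
        fun q : ℕ × ℕ => U (.gl J t q.1 q.2) ≠ ∅) := by
      simp only [mem_filter, mem_product, mem_range]
      exact ⟨⟨h5.2.1, h5.2.2.1⟩, h4⟩
    rw [hxy, mem_singleton] at h6
    exact hne h6
  choose! X Y hX hY hon hoff using huniq
  -- all counts are tight
  have htight : ∀ t < p.R, Z false t + Z true t ≤ (p.m - 2) + 3 := by
    have h1 := hcap2 0 (Nat.zero_le _)
    have h2 : ∀ t ∈ range p.R, (p.m - 1) + ((p.m - 2) + 3) ≤ D t + (Z false t + Z true t) := by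
      intro t ht
      have ht' := mem_range.1 ht
      have h2 := hZlow false t ht'
      have h2' := hZlow true t ht'
      have h5 := hDlow t ht'
      have h6 : p.span false = 1 := rfl
      have h7 : p.span true = p.K := rfl
      rw [h6, (hcnt t ht').1] at h2
      rw [h7, (hcnt t ht').2] at h2'
      omega
    have h3 : ∑ t ∈ range p.R, ((p.m - 1) + ((p.m - 2) + 3)) =
        ∑ t ∈ range p.R, (D t + (Z false t + Z true t)) := by
      refine le_antisymm (sum_le_sum h2) ?_
      rw [← Nat.Ico_zero_eq_range, sum_const, Nat.card_Ico, smul_eq_mul]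
      refine h1.trans (le_of_eq ?_)
      have : (p.m - 1) + ((p.m - 2) + 3) = 2 * p.m := by omega
      rw [this]; ring
    intro t ht
    have h4 := (sum_eq_sum_iff_of_le h2).1 h3 t (mem_range.2 ht)
    have h5 := hDlow t ht
    omega
  have hends : ∀ J, ∀ t < p.R, p.sg z t ∈ U (.gl J t (X J t) (Y J t)) ∧
      p.sg z (t + p.span J) ∈ U (.gl J t (X J t) (Y J t)) := by
    intro J t ht
    have h1 := gl_zone p ok U h z hop (J := J) ht (hon J t ht)
    refine h1.2.2 ?_
    have h2 := htight t ht
    have h3 := hZlow false t ht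
    have h3' := hZlow true t ht
    have h6 : p.span false = 1 := rfl
    have h7 : p.span true = p.K := rfl
    rw [h6, (hcnt t ht).1] at h3
    rw [h7, (hcnt t ht).2] at h3'
    have h4 : G J t (X J t) (Y J t) ≤ Z J t := by
      simp only [hZ]
      refine le_trans ?_ (single_le_sum (f := fun x => ∑ y ∈ range p.N, G J t x y)
        (fun _ _ => Nat.zero_le _) (mem_range.2 (hX J t ht)))
      exact single_le_sum (f := fun y => G J t (X J t) y)
        (fun _ _ => Nat.zero_le _) (mem_range.2 (hY J t ht))
    simp only [hG] at h4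
    cases J
    · rw [h6]; omega
    · rw [h7]; omega
  -- the columns of the constraint jobs
  have hrel : ∀ J, ∀ t < p.R, p.rel J t (X J t) (Y J t) = true := by
    intro J t ht
    have h5 : Tag.gl J t (X J t) (Y J t) ∈ p.tags := by
      by_contra h6
      exact hon J t ht (h.mem _ h6)
    rw [mem_gl] at h5
    exact h5.2.2.2
  have hwin : ∀ J, ∀ t < p.R, ∀ τ ∈ U (.gl J t (X J t) (Y J t)),
      t * p.L + X J t * p.b ≤ τ ∧ τ < p.dl (t + p.span J) (Y J t) := by
    intro J t ht τ hτ
    rcases h.job (.gl J t (X J t) (Y J t)) with h1 | h1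
    · exact absurd h1 (hon J t ht)
    · exact h1.2 τ hτ
  have hb : 0 < p.b := by unfold Par.b; omega
  have hXle : ∀ J, ∀ t < p.R, X J t ≤ p.xv z J t := by
    intro J t ht
    unfold Par.xv
    split_ifs with h1
    · rw [(ok.bdry J t _ _ (hrel J t ht)).1 h1]
    · have h2 := (hwin J t ht _ (hends J t ht).1).1
      unfold Par.sg at h2
      rw [if_pos ht] at h2
      exact Nat.le_of_mul_le_mul_right (by omega) hb
  have hYge : ∀ J, ∀ t < p.R, p.yv z J t ≤ Y J t := by
    intro J t ht
    unfold Par.yv
    split_ifs with h1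
    · have h2 := (hwin J t ht _ (hends J t ht).2).2
      unfold Par.sg Par.dl at h2
      rw [if_pos h1, if_pos h1] at h2
      exact Nat.le_of_mul_le_mul_right (by omega) hb
    · rw [(ok.bdry J t _ _ (hrel J t ht)).2 (by omega)]
  -- the rewards
  have hval : p.glv U = p.R * p.WC + p.M * (p.R * (p.R + 1) / 2) +
      ∑ t ∈ range p.R, ((X false t + (p.N - 1 - Y false t)) +
        (X true t + (p.N - 1 - Y true t))) := by
    have h1 : ∀ J, ∀ t < p.R, ∑ x ∈ range p.N, ∑ y ∈ range p.N,
        (if U (.gl J t x y) = ∅ then 0 else p.weight (.gl J t x y)) =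
        p.weight (.gl J t (X J t) (Y J t)) := by
      intro J t ht
      rw [sum_eq_single (X J t), sum_eq_single (Y J t), if_neg (hon J t ht)]
      · intro y _ hy
        rw [if_pos (hoff J t ht _ _ (by simp [hy]))]
      · intro h2; exact absurd (mem_range.2 (hY J t ht)) h2
      · intro x _ hx
        refine sum_eq_zero fun y _ => ?_
        rw [if_pos (hoff J t ht _ _ (by simp [hx]))]
      · intro h2; exact absurd (mem_range.2 (hX J t ht)) h2
    have h2 : p.glv U = ∑ t ∈ range p.R, ((p.WC + (t + 1) * p.M) +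
        ((X false t + (p.N - 1 - Y false t)) + (X true t + (p.N - 1 - Y true t)))) := by
      unfold Par.glv
      refine sum_congr rfl fun t ht => ?_
      simp only [sum_add_distrib]
      rw [h1 false t (mem_range.1 ht), h1 true t (mem_range.1 ht)]
      have w1 : ∀ x y, p.weight (.gl false t x y) = p.WC + (x + (p.N - 1 - y)) := by
        intro x y; simp [Par.weight]
      have w2 : ∀ x y, p.weight (.gl true t x y) = (t + 1) * p.M + (x + (p.N - 1 - y)) := by
        intro x y; simp [Par.weight]
      rw [w1, w2]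
      ring
    rw [h2, sum_add_distrib, sum_add_distrib, sum_const, card_range, smul_eq_mul, ← sum_mul]
    congr 2
    have h3 : ∑ t ∈ range p.R, (t + 1) = p.R * (p.R + 1) / 2 := by
      have := sum_range_id (p.R + 1)
      rw [sum_range_succ'] at this
      simp only [add_zero, Nat.add_sub_cancel] at this
      rw [this, mul_comm]
    rw [h3, mul_comm]
  have hsum : ∑ t ∈ range p.R, ((p.xv z false t + (p.N - 1 - p.yv z false t)) +
      (p.xv z true t + (p.N - 1 - p.yv z true t))) =
      (p.R - 1) * (p.N - 1) + (p.R - p.K) * (p.N - 1) := by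
    rw [sum_add_distrib, reward_sum p ok z hzN false, reward_sum p ok z hzN true]
    rfl
  have hle : ∀ t ∈ range p.R, (X false t + (p.N - 1 - Y false t)) +
      (X true t + (p.N - 1 - Y true t)) ≤ (p.xv z false t + (p.N - 1 - p.yv z false t)) +
      (p.xv z true t + (p.N - 1 - p.yv z true t)) := by
    intro t ht
    have ht' := mem_range.1 ht
    have h1 := hXle false t ht'
    have h2 := hXle true t ht'
    have h3 := hYge false t ht'
    have h4 := hYge true t ht'
    omega
  have heq : ∑ t ∈ range p.R, ((X false t + (p.N - 1 - Y false t)) +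
      (X true t + (p.N - 1 - Y true t))) = ∑ t ∈ range p.R,
      ((p.xv z false t + (p.N - 1 - p.yv z false t)) +
      (p.xv z true t + (p.N - 1 - p.yv z true t))) := by
    refine le_antisymm (sum_le_sum hle) ?_
    rw [hsum]
    rw [hval] at hC
    unfold Par.targetC at hC
    omega
  have hfin := (sum_eq_sum_iff_of_le hle).1 heq
  refine ⟨z, hzN, fun J t ht => ?_⟩
  have h0 := hfin t (mem_range.2 ht)
  have h1 := hXle false t ht
  have h2 := hXle true t ht
  have h3 := hYge false t ht
  have h4 := hYge true t ht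
  have h5 := hY false t ht
  have h6 := hY true t ht
  have h7 := hrel J t ht
  cases J
  · have e1 : X false t = p.xv z false t := by omega
    have e2 : Y false t = p.yv z false t := by omega
    rwa [e1, e2] at h7
  · have e1 : X true t = p.xv z true t := by omega
    have e2 : Y true t = p.yv z true t := by omega
    rwa [e1, e2] at h7

end Pool.Agent.H257R2.OS
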