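import Mathlib

/-!
# `O | p_ij = 1, r_j | ∑ w_j U_j`: definitions

`m` machines, `n` jobs; each job has one operation of length 1 on every machine.  A job is a triple
`(r, d, w)`: release date, due date, weight.
-/

namespace Pool.Agent.H257R2.OS

/-- `S j i` is the start time of the operation of job `j` on machine `i`: operations do not start
before the release date of their job, no machine processes two operations at the same time and no
job is processed on two machines at the same time. -/
structure IsSchedule {n m : ℕ} (r : Fin n → ℕ) (S : Fin n → Fin m → ℝ) : Prop where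
  release : ∀ j i, (r j : ℝ) ≤ S j i
  machine : ∀ i j j', j ≠ j' → 1 ≤ |S j i - S j' i|
  job : ∀ j i i', i ≠ i' → 1 ≤ |S j i - S j i'|

/-- the completion time `C_j = max_i S_ij + 1` -/
noncomputable def completion {n m : ℕ} (S : Fin n → Fin m → ℝ) (j : Fin n) : ℝ := (⨆ i, S j i) + 1

open Classical in
/-- `∑ w_j U_j`: the total weight of the late jobs, those with `C_j > d_j` -/
noncomputable def lateWeight {m : ℕ} (l : List (ℕ × ℤ × ℕ)) (S : Fin l.length → Fin m → ℝ) : ℕ :=
  ∑ j, if (l[j].2.1 : ℝ) < completion S j then l[j].2.2 else 0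

/-- The decision version.  An instance `((m, l), B)` has the number `m` of machines, the list `l` of
the jobs `(r_j, d_j, w_j)` and a bound `B`: is there a schedule with `∑ w_j U_j ≤ B`? -/
def OpenShop (I : (ℕ × List (ℕ × ℤ × ℕ)) × ℕ) : Prop :=
  ∃ S : Fin I.1.2.length → Fin I.1.1 → ℝ,
    IsSchedule (fun j => I.1.2[j].1) S ∧ lateWeight I.1.2 S ≤ I.2

/-- The same problem when only integer start times are allowed. -/
def OpenShopInt (I : (ℕ × List (ℕ × ℤ × ℕ)) × ℕ) : Prop :=
  ∃ S : Fin I.1.2.length → Fin I.1.1 → ℕ,
    IsSchedule (fun j => I.1.2[j].1) (fun j i => (S j i : ℝ)) ∧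
      lateWeight I.1.2 (fun j i => (S j i : ℝ)) ≤ I.2

/-- The optimisation version: the minimum of `∑ w_j U_j` over all schedules. -/
noncomputable def opt (I : ℕ × List (ℕ × ℤ × ℕ)) : ℕ :=
  sInf {v | ∃ S : Fin I.2.length → Fin I.1 → ℝ,
    IsSchedule (fun j => I.2[j].1) S ∧ lateWeight I.2 S = v}

end Pool.Agent.H257R2.OS
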