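import Pool.Agent.H257R2.OS.T1
import Pool.Agent.H257R2.OS.Prob

namespace Pool.Agent.H257R2.OS

open Finset

theorem lt_completion {n m : ℕ} (hm : 0 < m) (S : Fin n → Fin m → ℝ) (j : Fin n) (d : ℝ) :
    d < completion S j ↔ ∃ i, d < S j i + 1 := by
  have : Nonempty (Fin m) := ⟨⟨0, hm⟩⟩
  unfold completion
  rw [← sub_lt_iff_lt_add, lt_ciSup_iff (Set.finite_range _).bddAbove]
  simp only [sub_lt_iff_lt_add]

theorem one_le_abs_sub {a b : ℕ} : (1 : ℝ) ≤ |(a : ℝ) - b| ↔ a ≠ b := by
  constructor
  · rintro h rfl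
    simp at h
    linarith
  · intro h
    rcases Nat.lt_or_gt_of_ne h with h | h
    · have h3 : (a : ℝ) + 1 ≤ b := by exact_mod_cast h
      rw [abs_sub_comm]
      exact le_trans (by linarith) (le_abs_self _)
    · have h3 : (b : ℝ) + 1 ≤ a := by exact_mod_cast h
      exact le_trans (by linarith) (le_abs_self _)

/-- integer schedules in terms of the positions in the list of tags -/
theorem openShopInt_iff (p : Par) (B : ℕ) : OpenShopInt ((p.m, p.jobs), B) ↔
    ∃ S : Fin p.tags.length → Fin p.m → ℕ,
      (∀ j i, p.release p.tags[j] ≤ S j i) ∧ (∀ i j j', j ≠ j' → S j i ≠ S j' i) ∧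
      (∀ j i i', i ≠ i' → S j i ≠ S j i') ∧
      ∑ j, (if ∀ i, S j i < p.due p.tags[j] then 0 else p.weight p.tags[j]) ≤ B := by
  have hm : 0 < p.m := by unfold Par.m; omega
  have hlen : p.tags.length = p.jobs.length := by unfold Par.jobs; simp
  have hget : ∀ j : Fin p.tags.length, p.jobs[(Fin.cast hlen j)] =
      (p.release p.tags[j], (p.due p.tags[j] : ℤ), p.weight p.tags[j]) := by
    intro j
    simp only [Par.jobs, Fin.getElem_fin, List.getElem_map]
    rfl
  have hlate : ∀ S : Fin p.jobs.length → Fin p.m → ℕ,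
      lateWeight p.jobs (fun j i => (S j i : ℝ)) = ∑ j : Fin p.tags.length,
        (if ∀ i, S (Fin.cast hlen j) i < p.due p.tags[j] then 0 else p.weight p.tags[j]) := by
    intro S
    unfold lateWeight
    rw [← Fintype.sum_equiv (finCongr hlen) (fun j : Fin p.tags.length =>
      (if ((p.jobs[(Fin.cast hlen j)].2.1 : ℤ) : ℝ) <
        completion (fun j i => (S j i : ℝ)) (Fin.cast hlen j) then
        p.jobs[(Fin.cast hlen j)].2.2 else 0)) _ (fun j => rfl)]
    refine sum_congr rfl fun j _ => ?_
    rw [hget j]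
    by_cases h : ∀ i, S (Fin.cast hlen j) i < p.due p.tags[j]
    · rw [if_pos h, if_neg]
      rw [lt_completion hm]
      rintro ⟨i, hi⟩
      have h1 : ((S (Fin.cast hlen j) i : ℕ) : ℝ) + 1 ≤ (p.due p.tags[j] : ℝ) := by
        exact_mod_cast h i
      push_cast at hi
      linarith
    · rw [if_neg h, if_pos]
      rw [lt_completion hm]
      push Not at h
      obtain ⟨i, hi⟩ := h
      refine ⟨i, ?_⟩
      have h1 : (p.due p.tags[j] : ℝ) ≤ ((S (Fin.cast hlen j) i : ℕ) : ℝ) := by exact_mod_cast hi
      push_cast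
      linarith
  constructor
  · rintro ⟨S, hS, hl⟩
    change Fin p.jobs.length → Fin p.m → ℕ at S
    refine ⟨fun j i => S (Fin.cast hlen j) i, ?_, ?_, ?_, ?_⟩
    · intro j i
      have h1 := hS.release (Fin.cast hlen j) i
      have h2 : p.jobs[(Fin.cast hlen j)].1 = p.release p.tags[j] := by rw [hget j]
      change ((p.jobs[(Fin.cast hlen j)].1 : ℕ) : ℝ) ≤ _ at h1
      rw [h2] at h1
      exact_mod_cast h1
    · intro i j j' hjj
      refine one_le_abs_sub.1 (hS.machine i _ _ ?_)
      intro h
      apply hjj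
      have := congrArg Fin.val h
      exact Fin.ext this
    · intro j i i' hii
      exact one_le_abs_sub.1 (hS.job _ i i' hii)
    · rw [← hlate S]
      exact hl
  · rintro ⟨S, h1, h2, h3, h4⟩
    have hcast : ∀ j : Fin p.tags.length, Fin.cast hlen.symm (Fin.cast hlen j) = j := fun j => rfl
    refine ⟨fun (j : Fin p.jobs.length) (i : Fin p.m) => S (Fin.cast hlen.symm j) i, ⟨?_, ?_, ?_⟩,
      ?_⟩
    · intro j i
      have h5 := h1 (Fin.cast hlen.symm j) i
      have h6 : p.jobs[(Fin.cast hlen (Fin.cast hlen.symm j))].1 =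
        p.release p.tags[(Fin.cast hlen.symm j)] := by rw [hget]
      change ((p.jobs[(Fin.cast hlen (Fin.cast hlen.symm j))].1 : ℕ) : ℝ) ≤ _
      rw [h6]
      exact_mod_cast h5
    · intro i j j' hjj
      refine one_le_abs_sub.2 (h2 i _ _ ?_)
      intro h
      apply hjj
      have := congrArg Fin.val h
      exact Fin.ext this
    · intro j i i' hii
      exact one_le_abs_sub.2 (h3 _ i i' hii)
    · change lateWeight p.jobs (fun j i => ((S (Fin.cast hlen.symm j) i : ℕ) : ℝ)) ≤ B
      rw [hlate (fun j i => S (Fin.cast hlen.symm j) i)]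
      simpa using h4

theorem tag_inj (p : Par) {j j' : Fin p.tags.length} (h : p.tags[j] = p.tags[j']) : j = j' := by
  have := List.nodup_iff_injective_get.1 (nodup_tags p)
  exact this h

/-- X1: from a schedule to slots -/
theorem slots_of_schedule (p : Par) (B : ℕ) (h : OpenShopInt ((p.m, p.jobs), B)) :
    ∃ U, p.IsSlots U ∧ (p.tags.map p.weight).sum ≤ B + p.value U := by
  classical
  rw [openShopInt_iff] at h
  obtain ⟨S, h1, h2, h3, h4⟩ := h
  have hm : 0 < p.m := by unfold Par.m; omega
  let U : Tag → Finset ℕ := fun x => if hx : ∃ j : Fin p.tags.length, p.tags[j] = x ∧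
    ∀ i, S j i < p.due p.tags[j] then Finset.univ.image (S hx.choose) else ∅
  have hU : ∀ j : Fin p.tags.length, U p.tags[j] =
      if ∀ i, S j i < p.due p.tags[j] then Finset.univ.image (S j) else ∅ := by
    intro j
    simp only [U]
    by_cases hj : ∀ i, S j i < p.due p.tags[j]
    · have hx : ∃ j' : Fin p.tags.length, p.tags[j'] = p.tags[j] ∧
        ∀ i, S j' i < p.due p.tags[j'] := ⟨j, rfl, hj⟩
      rw [dif_pos hx, if_pos hj]
      have := tag_inj p hx.choose_spec.1
      rw [this]
    · rw [if_neg hj, dif_neg]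
      rintro ⟨j', h5, h6⟩
      have := tag_inj p h5
      subst this
      exact hj h6
  have hUne : ∀ j : Fin p.tags.length, U p.tags[j] = ∅ ↔ ¬ ∀ i, S j i < p.due p.tags[j] := by
    intro j
    rw [hU]
    split_ifs with hj
    · have hne : Nonempty (Fin p.m) := ⟨⟨0, hm⟩⟩
      constructor
      · intro h5
        rw [image_eq_empty, univ_eq_empty_iff] at h5
        exact absurd hne (not_nonempty_iff.2 h5)
      · intro h5
        exact absurd hj h5
    · simp only [hj, not_false_eq_true]
  refine ⟨U, ⟨?_, ?_, ?_⟩, ?_⟩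
  · intro x hx
    simp only [U]
    rw [dif_neg]
    rintro ⟨j, h5, _⟩
    exact hx (h5 ▸ List.getElem_mem _)
  · intro x
    by_cases hx : x ∈ p.tags
    · obtain ⟨n, hn, rfl⟩ := List.getElem_of_mem hx
      have h5 := hU ⟨n, hn⟩
      simp only [Fin.getElem_fin] at h5
      rw [h5]
      split_ifs with hj
      · right
        constructor
        · rw [card_image_of_injective, card_univ, Fintype.card_fin]
          intro i i' hii
          by_contra hne
          exact h3 _ _ _ hne hii
        · intro τ hτ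
          rw [mem_image] at hτ
          obtain ⟨i, _, rfl⟩ := hτ
          exact ⟨h1 ⟨n, hn⟩ i, hj i⟩
      · left; rfl
    · left
      simp only [U]
      rw [dif_neg]
      rintro ⟨j, h5, _⟩
      exact hx (h5 ▸ List.getElem_mem _)
  · intro τ
    rw [← Fin.sum_univ_fun_getElem]
    rw [← card_filter]
    have hex : ∀ j ∈ (univ.filter fun j : Fin p.tags.length => τ ∈ U p.tags[(j : ℕ)]),
        ∃ i, S j i = τ := by
      intro j hj
      rw [mem_filter] at hj
      have h5 := hj.2
      have h6 := hU j
      simp only [Fin.getElem_fin] at h6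
      rw [h6] at h5
      split_ifs at h5
      · rw [mem_image] at h5
        obtain ⟨i, _, hi⟩ := h5
        exact ⟨i, hi⟩
      · simp at h5
    have hcard : (univ.filter fun j : Fin p.tags.length => τ ∈ U p.tags[(j : ℕ)]).card ≤
        (univ : Finset (Fin p.m)).card := by
      refine card_le_card_of_injOn (fun j => if hj : ∃ i, S j i = τ then hj.choose else ⟨0, hm⟩)
        (fun _ _ => mem_coe.2 (mem_univ _)) ?_
      intro j hj j' hj' hjj
      have e1 := hex j hj
      have e2 := hex j' hj'
      simp only [dif_pos e1, dif_pos e2] at hjj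
      by_contra hne
      have h7 := e1.choose_spec
      have h8 := e2.choose_spec
      rw [← hjj] at h8
      exact h2 _ _ _ hne (h7.trans h8.symm)
    rwa [card_univ, Fintype.card_fin] at hcard
  · unfold Par.value
    rw [← Fin.sum_univ_fun_getElem, ← Fin.sum_univ_fun_getElem]
    refine le_trans (le_of_eq ?_) (Nat.add_le_add_right h4 _)
    rw [← sum_add_distrib]
    refine sum_congr rfl fun j _ => ?_
    have h5 := hUne j
    simp only [Fin.getElem_fin] at h5
    by_cases hj : ∀ i, S j i < p.due p.tags[(j : ℕ)]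
    · have h6 : ¬ U p.tags[(j : ℕ)] = ∅ := fun h7 => (h5.1 h7) hj
      simp only [Fin.getElem_fin]
      rw [if_pos hj, if_neg h6, zero_add]
    · have h6 : U p.tags[(j : ℕ)] = ∅ := h5.2 hj
      simp only [Fin.getElem_fin]
      rw [if_neg hj, if_pos h6, add_zero]

end Pool.Agent.H257R2.OS
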