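import Pool.Agent.H257R2.OS.T1
import Pool.Agent.H257R2.OS.Prob

namespace Pool.Agent.H257R2.OS

open Finset

theorem x2_dist {a b : ℕ} (h : a ≠ b) : (1 : ℝ) ≤ |(a : ℝ) - (b : ℝ)| := by
  have h1 : ((a : ℤ) - (b : ℤ)) ≠ 0 := by omega
  have h2 := Int.one_le_abs h1
  exact_mod_cast h2

theorem x2_le_sum (l : List ℕ) {a : ℕ} (h : a ∈ l) : a ≤ l.sum :=
  List.single_le_sum (fun x _ => Nat.zero_le x) a h

theorem x2_sum_fin (l : List Tag) (n : ℕ) (hn : n = l.length) (g : Tag → ℕ) :
    ∑ j : Fin n, g (l[j.val]'(hn ▸ j.2)) = (l.map g).sum := by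
  subst hn
  have h1 := Fin.sum_univ_getElem (l.map g)
  rw [← h1]
  have h2 : l.length = (l.map g).length := by simp
  rw [← (finCongr h2).sum_comp]
  refine Finset.sum_congr rfl fun j _ => ?_
  simp

/-- X2: from the start times of the on-time jobs to a schedule -/
theorem schedule_of_st (p : Par) (B : ℕ) (on : Tag → Prop) [DecidablePred on] (st : Tag → ℕ → ℕ)
    (h1 : ∀ x ∈ p.tags, on x → ∀ i < p.m, p.release x ≤ st x i ∧ st x i < p.due x)
    (h2 : ∀ x ∈ p.tags, on x → ∀ i < p.m, ∀ i' < p.m, st x i = st x i' → i = i')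
    (h3 : ∀ x ∈ p.tags, ∀ y ∈ p.tags, on x → on y → ∀ i < p.m, st x i = st y i → x = y)
    (hB : (p.tags.map p.weight).sum ≤ B + (p.tags.map fun x => if on x then p.weight x else 0).sum) :
    OpenShopInt ((p.m, p.jobs), B) := by
  classical
  have hm : 0 < p.m := by unfold Par.m; omega
  obtain ⟨Big, hBig⟩ : ∃ Big, Big = (p.tags.map (fun x => p.release x + p.due x + 1)).sum :=
    ⟨_, rfl⟩
  have hbig : ∀ x ∈ p.tags, p.release x + p.due x + 1 ≤ Big := fun x hx => by
    rw [hBig]
    exact x2_le_sum _ (List.mem_map.2 ⟨x, hx, rfl⟩)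
  have hlen : p.jobs.length = p.tags.length := by simp [Par.jobs]
  let tg : Fin p.jobs.length → Tag := fun j => p.tags[j.val]'(hlen ▸ j.2)
  have htg : ∀ j, tg j ∈ p.tags := fun j => List.getElem_mem _
  have hjob : ∀ j : Fin p.jobs.length,
      p.jobs[j] = (p.release (tg j), (p.due (tg j) : ℤ), p.weight (tg j)) := by
    intro j
    rw [Fin.getElem_fin]
    exact List.getElem_map _
  have hinj : ∀ j j', tg j = tg j' → j = j' := by
    intro j j' h
    apply Fin.ext
    exact (List.Nodup.getElem_inj_iff (nodup_tags p)).1 h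
  let S : Fin p.jobs.length → Fin p.m → ℕ := fun j i =>
    if on (tg j) then st (tg j) i.val else Big + (j.val * p.m + i.val)
  refine ⟨S, ⟨?_, ?_, ?_⟩, ?_⟩
  · intro j i
    show ((p.jobs[j].1 : ℕ) : ℝ) ≤ ((S j i : ℕ) : ℝ)
    rw [hjob j]
    have hb := hbig _ (htg j)
    have : p.release (tg j) ≤ S j i := by
      show p.release (tg j) ≤ if on (tg j) then st (tg j) i.val else Big + (j.val * p.m + i.val)
      split_ifs with h
      · exact (h1 _ (htg j) h _ i.2).1
      · omega
    exact_mod_cast this
  · intro i j j' hne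
    apply x2_dist
    show (if on (tg j) then st (tg j) i.val else Big + (j.val * p.m + i.val)) ≠
      (if on (tg j') then st (tg j') i.val else Big + (j'.val * p.m + i.val))
    have hb := hbig _ (htg j)
    have hb' := hbig _ (htg j')
    split_ifs with h h' h'
    · intro h4
      exact hne (hinj _ _ (h3 _ (htg j) _ (htg j') h h' _ i.2 h4))
    · have := (h1 _ (htg j) h _ i.2).2
      omega
    · have := (h1 _ (htg j') h' _ i.2).2
      omega
    · intro h4
      apply hne
      apply Fin.ext
      have h5 : j.val * p.m = j'.val * p.m := by omega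
      exact Nat.eq_of_mul_eq_mul_right hm h5
  · intro j i i' hne
    apply x2_dist
    show (if on (tg j) then st (tg j) i.val else Big + (j.val * p.m + i.val)) ≠
      (if on (tg j) then st (tg j) i'.val else Big + (j.val * p.m + i'.val))
    split_ifs with h
    · intro h4
      exact hne (Fin.ext (h2 _ (htg j) h _ i.2 _ i'.2 h4))
    · intro h4
      apply hne
      apply Fin.ext
      omega
  · show lateWeight p.jobs (fun j i => ((S j i : ℕ) : ℝ)) ≤ B
    have key : lateWeight p.jobs (fun j i => ((S j i : ℕ) : ℝ)) ≤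
        (p.tags.map fun x => if on x then 0 else p.weight x).sum := by
      rw [← x2_sum_fin p.tags p.jobs.length hlen]
      unfold lateWeight
      refine Finset.sum_le_sum fun j _ => ?_
      rw [hjob j]
      show (if (((p.due (tg j) : ℤ) : ℝ)) < completion (fun j i => ((S j i : ℕ) : ℝ)) j
        then p.weight (tg j) else 0) ≤ if on (tg j) then 0 else p.weight (tg j)
      by_cases h : on (tg j)
      · rw [if_pos h]
        have h5 : completion (fun j i => ((S j i : ℕ) : ℝ)) j ≤ (((p.due (tg j) : ℤ) : ℝ)) := by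
          unfold completion
          have : Nonempty (Fin p.m) := ⟨⟨0, hm⟩⟩
          have h6 : (⨆ i, ((S j i : ℕ) : ℝ)) ≤ (((p.due (tg j) : ℤ) : ℝ)) - 1 := by
            refine ciSup_le fun i => ?_
            have h7 : S j i + 1 ≤ p.due (tg j) := by
              show (if on (tg j) then st (tg j) i.val else Big + (j.val * p.m + i.val)) + 1 ≤ _
              rw [if_pos h]
              exact (h1 _ (htg j) h _ i.2).2
            have h8 : ((S j i : ℕ) : ℝ) + 1 ≤ ((p.due (tg j) : ℕ) : ℝ) := by exact_mod_cast h7
            push_cast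
            linarith
          linarith
        rw [if_neg (not_lt.2 h5)]
      · rw [if_neg h]
        split_ifs
        · exact le_refl _
        · exact Nat.zero_le _
    have hsum : (p.tags.map fun x => if on x then 0 else p.weight x).sum +
        (p.tags.map fun x => if on x then p.weight x else 0).sum = (p.tags.map p.weight).sum := by
      rw [← List.sum_map_add]
      congr 1
      refine List.map_congr_left fun x _ => ?_
      split_ifs <;> simp
    omega

end Pool.Agent.H257R2.OS
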