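import Pool.Agent.H257R2.OS.Prob

namespace Pool.Agent.H257R2.OS

theorem X3_floor_sep {x y : ℝ} (hx : 0 ≤ x) (hy : 0 ≤ y) (h : 1 ≤ |x - y|) :
    (1 : ℝ) ≤ |((⌊x⌋₊ : ℕ) : ℝ) - ((⌊y⌋₊ : ℕ) : ℝ)| := by
  have key : ∀ a b : ℝ, 0 ≤ b → 1 ≤ a - b → (1 : ℝ) ≤ ((⌊a⌋₊ : ℕ) : ℝ) - ((⌊b⌋₊ : ℕ) : ℝ) := by
    intro a b hb hab
    have h1 : ⌊b⌋₊ + 1 ≤ ⌊a⌋₊ := by
      rw [← Nat.floor_add_one hb]
      exact Nat.floor_le_floor (by linarith)
    have h2 : ((⌊b⌋₊ : ℕ) : ℝ) + 1 ≤ ((⌊a⌋₊ : ℕ) : ℝ) := by exact_mod_cast h1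
    linarith
  rcases le_total y x with hxy | hxy
  · rw [abs_of_nonneg (by linarith)] at h
    exact (key x y hy h).trans (le_abs_self _)
  · rw [abs_of_nonpos (by linarith)] at h
    have := key y x hx (by linarith)
    rw [abs_sub_comm]
    exact this.trans (le_abs_self _)

theorem X3_completion {n m : ℕ} (S : Fin n → Fin m → ℝ) (h0 : ∀ j i, 0 ≤ S j i) (j : Fin n) :
    completion (fun j i => ((⌊S j i⌋₊ : ℕ) : ℝ)) j ≤ completion S j := by
  unfold completion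
  have : (⨆ i, ((⌊S j i⌋₊ : ℕ) : ℝ)) ≤ ⨆ i, S j i :=
    ciSup_mono (Set.finite_range _).bddAbove fun i => Nat.floor_le (h0 j i)
  linarith

/-- X3: integer start times suffice -/
theorem openShop_iff_int (I : (ℕ × List (ℕ × ℤ × ℕ)) × ℕ) : OpenShop I ↔ OpenShopInt I := by
  constructor
  · rintro ⟨S, hS, hB⟩
    have h0 : ∀ j i, 0 ≤ S j i := fun j i => (Nat.cast_nonneg _).trans (hS.release j i)
    refine ⟨fun j i => ⌊S j i⌋₊, ⟨?_, ?_, ?_⟩, ?_⟩
    · intro j i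
      have := Nat.le_floor (hS.release j i)
      exact_mod_cast this
    · intro i j j' hj
      exact X3_floor_sep (h0 j i) (h0 j' i) (hS.machine i j j' hj)
    · intro j i i' hi
      exact X3_floor_sep (h0 j i) (h0 j i') (hS.job j i i' hi)
    · refine le_trans ?_ hB
      unfold lateWeight
      refine Finset.sum_le_sum fun j _ => ?_
      have hc := X3_completion S h0 j
      split_ifs with h1 h2 h2
      · exact le_rfl
      · exact absurd (lt_of_lt_of_le h1 hc) h2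
      · exact Nat.zero_le _
      · exact le_rfl
  · rintro ⟨S, hS, hB⟩
    exact ⟨fun j i => (S j i : ℝ), hS, hB⟩

end Pool.Agent.H257R2.OS
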