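import Pool.Agent.H257R2.LJW.Clique
import Pool.Agent.H257R2.OS.C1
import Pool.Agent.H257R2.OS.C2
import Pool.Agent.H257R2.OS.C3
import Pool.Agent.H257R2.OS.C4
import Pool.Agent.H257R2.OS.C5
import Pool.Agent.H257R2.OS.X1
import Pool.Agent.H257R2.OS.X2
import Pool.Agent.H257R2.OS.X3
import Pool.Agent.H257R2.OS.G1
import Pool.Agent.H257R2.OS.G2
import Pool.Agent.H257R2.OS.P
import Pool.Agent.H257R2.OS.S7

/-!
# The unit-time open shop with weighted late jobs is `W[1]`-hard in the number of machines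
-/

namespace Pool.Agent.H257R2.OS

open Finset Pool.Agent.NPC Pool.Agent.H633R2

/-- the equivalence of the reduction -/
theorem main_iff (p : Par) (ok : p.Ok) (hodd : p.m % 2 = 1) :
    OpenShopInt ((p.m, p.jobs), (p.tags.map p.weight).sum - p.target) ↔ ∃ z, p.Solves z := by
  have hle := target_le p ok
  constructor
  · intro h
    obtain ⟨U, hU, hv⟩ := slots_of_schedule p _ h
    exact sound p ok U hU (by omega)
  · rintro ⟨z, hz⟩
    refine schedule_of_st p _ (p.on z) (p.st z) ?_ ?_ ?_ ?_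
    · intro x hx ho i hi
      exact st_window p ok hodd z hz hx ho hi
    · intro x hx ho i hi i' hi' h
      exact st_job p ok hodd z hz hx ho hi hi' h
    · intro x hx y hy hox hoy i hi h
      exact st_machine p ok hodd z hz hx hox hy hoy hi h
    · rw [on_value p ok z hz]
      omega

theorem lateWeight_triv (S : Fin 1 → Fin 1 → ℕ) :
    (∑ j : Fin 1, if ((0 : ℤ) : ℝ) < completion (fun j i => (S j i : ℝ)) j then 1 else 0) = 1 := by
  rw [Fin.sum_univ_one, if_pos]
  unfold completion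
  rw [ciSup_unique]
  push_cast
  positivity

theorem not_openShop_triv : ¬ OpenShopInt ((1, [(0, 0, 1)]), 0) := by
  rintro ⟨S, hS, hl⟩
  have h2 : lateWeight [((0 : ℕ), (0 : ℤ), 1)] (fun j i => (S j i : ℝ)) = 1 := by
    refine Eq.trans ?_ (lateWeight_triv S)
    unfold lateWeight
    refine sum_congr rfl fun j _ => ?_
    have : j = 0 := Subsingleton.elim (α := Fin 1) _ _
    subst this
    rfl
  change lateWeight [((0 : ℕ), (0 : ℤ), 1)] (fun j i => (S j i : ℝ)) ≤ 0 at hl
  omega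

theorem redG_iff (x : List (List Bool) × ℕ) : HasClique x ↔ OpenShopInt (redG x) := by
  unfold redG
  split_ifs with h
  · rw [main_iff _ (parG_ok _ _ _).1 (parG_ok _ _ _).2, solves_iff, clique_iff]
  · refine ⟨fun h1 => ?_, fun h1 => absurd h1 not_openShop_triv⟩
    obtain ⟨S, hS⟩ := h1
    have h2 := hS.card_eq
    have h3 := S.card_le_univ
    rw [Fintype.card_fin] at h3
    omega

theorem redG_param (x : List (List Bool) × ℕ) : (redG x).1.1 ≤ 2 * x.2 + 7 := by
  unfold redG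
  split_ifs with h
  · unfold parG Par.m
    simp only
    omega
  · simp only
    omega

theorem reduces_int : FptReduces (fun x : List (List Bool) × ℕ => x.2) HasClique
    (fun I : (ℕ × List (ℕ × ℤ × ℕ)) × ℕ => I.1.1) OpenShopInt :=
  ⟨redG, fun k => 2 * k + 7, FptTime.of_poly redG_poly,
    add_computable (mul_computable (Computable.const 2) Computable.id) (Computable.const 7),
    fun a => ⟨redG_iff a, redG_param a⟩⟩

/-- `O | p_ij = 1, r_j | ∑ w_j U_j` with integer start times is `W[1]`-hard in the number of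
machines. -/
theorem w1Hard_int : W1Hard (fun I : (ℕ × List (ℕ × ℤ × ℕ)) × ℕ => I.1.1) OpenShopInt :=
  W1Hard.of_clique reduces_int

/-- `O | p_ij = 1, r_j | ∑ w_j U_j` is `W[1]`-hard in the number of machines. -/
theorem w1Hard : W1Hard (fun I : (ℕ × List (ℕ × ℤ × ℕ)) × ℕ => I.1.1) OpenShop := by
  have : OpenShop = OpenShopInt := funext fun I => propext (openShop_iff_int I)
  rw [this]
  exact w1Hard_int

/-- The reduction from Clique: polynomial time, at most `2 k + 7` machines. -/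
theorem reduction : ∃ f : List (List Bool) × ℕ → (ℕ × List (ℕ × ℤ × ℕ)) × ℕ, Poly f ∧
    ∀ x, (HasClique x ↔ OpenShop (f x)) ∧ (f x).1.1 ≤ 2 * x.2 + 7 :=
  ⟨redG, redG_poly, fun x => ⟨by rw [openShop_iff_int]; exact redG_iff x, redG_param x⟩⟩

/-- There is always a schedule. -/
theorem exists_schedule (n m : ℕ) (r : Fin n → ℕ) : ∃ S : Fin n → Fin m → ℝ, IsSchedule r S := by
  refine ⟨fun j i => (((∑ j, r j) + (j : ℕ) * m + i : ℕ) : ℝ), ?_, ?_, ?_⟩
  · intro j i
    have h1 : r j ≤ ∑ j, r j := single_le_sum (fun _ _ => Nat.zero_le _) (mem_univ j)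
    have : r j ≤ (∑ j, r j) + (j : ℕ) * m + i := by omega
    exact_mod_cast this
  · intro i j j' hjj
    have h1 : ((∑ j, r j) + (j : ℕ) * m + i) ≠ ((∑ j, r j) + (j' : ℕ) * m + i) := by
      intro h
      have h2 : (j : ℕ) * m = (j' : ℕ) * m := by omega
      exact hjj (Fin.ext (Nat.eq_of_mul_eq_mul_right (by have := i.isLt; omega) h2))
    rcases Nat.lt_or_gt_of_ne h1 with h | h
    · have h3 : (((∑ j, r j) + (j : ℕ) * m + i : ℕ) : ℝ) + 1 ≤
        (((∑ j, r j) + (j' : ℕ) * m + i : ℕ) : ℝ) := by exact_mod_cast h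
      rw [abs_sub_comm]
      exact le_trans (by linarith) (le_abs_self _)
    · have h3 : (((∑ j, r j) + (j' : ℕ) * m + i : ℕ) : ℝ) + 1 ≤
        (((∑ j, r j) + (j : ℕ) * m + i : ℕ) : ℝ) := by exact_mod_cast h
      exact le_trans (by linarith) (le_abs_self _)
  · intro j i i' hii
    have h1 : ((∑ j, r j) + (j : ℕ) * m + i) ≠ ((∑ j, r j) + (j : ℕ) * m + i') := by
      intro h
      exact hii (Fin.ext (by omega))
    rcases Nat.lt_or_gt_of_ne h1 with h | h
    · have h3 : (((∑ j, r j) + (j : ℕ) * m + i : ℕ) : ℝ) + 1 ≤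
        (((∑ j, r j) + (j : ℕ) * m + i' : ℕ) : ℝ) := by exact_mod_cast h
      rw [abs_sub_comm]
      exact le_trans (by linarith) (le_abs_self _)
    · have h3 : (((∑ j, r j) + (j : ℕ) * m + i' : ℕ) : ℝ) + 1 ≤
        (((∑ j, r j) + (j : ℕ) * m + i : ℕ) : ℝ) := by exact_mod_cast h
      exact le_trans (by linarith) (le_abs_self _)

theorem openShop_iff_opt (I : (ℕ × List (ℕ × ℤ × ℕ)) × ℕ) : OpenShop I ↔ opt I.1 ≤ I.2 := by
  constructor
  · rintro ⟨S, hS, hl⟩
    exact le_trans (Nat.sInf_le ⟨S, hS, rfl⟩) hl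
  · intro h
    obtain ⟨S₀, hS₀⟩ := exists_schedule I.1.2.length I.1.1 (fun j => I.1.2[j].1)
    have hne : {v | ∃ S : Fin I.1.2.length → Fin I.1.1 → ℝ,
        IsSchedule (fun j => I.1.2[j].1) S ∧ lateWeight I.1.2 S = v}.Nonempty :=
      ⟨_, S₀, hS₀, rfl⟩
    obtain ⟨S, hS, hv⟩ := Nat.sInf_mem hne
    exact ⟨S, hS, by rw [hv]; exact h⟩

/-- If the optimal value can be computed in fpt time, then all problems in `W[1]` are
fixed-parameter tractable. -/
theorem opt_collapse (h : FptTime (fun I : ℕ × List (ℕ × ℤ × ℕ) => I.1) opt) {α : Type} [TEnc α]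
    {κ : α → ℕ} {P : α → Prop} (hP : InW1 κ P) : IsFpt κ P := by
  refine w1Hard.collapse ?_ hP
  have h1 : FptTime (fun I : (ℕ × List (ℕ × ℤ × ℕ)) × ℕ => I.1.1) (fun I => opt I.1) :=
    h.comp (G := fun n => n) (FptTime.of_poly (f := fun I : (ℕ × List (ℕ × ℤ × ℕ)) × ℕ => I.1)
      (Poly.fst Poly.id)) Computable.id (fun _ => le_rfl)
  have h2 : FptTime (fun I : (ℕ × List (ℕ × ℤ × ℕ)) × ℕ => I.1.1) (fun I => (opt I.1, I.2)) :=
    h1.pair (FptTime.of_poly (Poly.snd Poly.id))
  refine ⟨fun I => decide (opt I.1 ≤ I.2), ?_, fun I => by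
    rw [decide_eq_true_iff, openShop_iff_opt]⟩
  exact FptTime.poly_comp (g := fun q : ℕ × ℕ => decide (q.1 ≤ q.2))
    (Poly.decide_le (Poly.fst Poly.id) (Poly.snd Poly.id)) h2

end Pool.Agent.H257R2.OS
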