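import Pool.Agent.H257R2.OS.T1

/-!
# S1: the local inequality of a block
-/

namespace Pool.Agent.H257R2.OS

open Finset

namespace S1

theorem list_sum (p : Par) (f : Tag → ℕ) :
    (p.tags.map f).sum = ∑ x ∈ p.tags.toFinset, f x :=
  (List.sum_toFinset f (nodup_tags p)).symm

theorem cap_set (p : Par) (U : Tag → Finset ℕ) (h : p.IsSlots U) (X : Finset Tag)
    (hX : ∀ x ∈ X, x ∈ p.tags) (A : Finset ℕ) : ∑ x ∈ X, (U x ∩ A).card ≤ p.m * A.card := by
  have h1 : ∀ x, (U x ∩ A).card = ∑ τ ∈ A, if τ ∈ U x then 1 else 0 := by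
    intro x
    rw [Finset.sum_boole, Finset.inter_comm]
    congr 1
  simp only [h1]
  rw [Finset.sum_comm]
  calc ∑ τ ∈ A, ∑ x ∈ X, (if τ ∈ U x then 1 else 0) ≤ ∑ τ ∈ A, p.m := by
        refine Finset.sum_le_sum fun τ _ => ?_
        refine le_trans ?_ (h.cap τ)
        rw [list_sum]
        refine Finset.sum_le_sum_of_subset ?_
        intro x hx
        exact List.mem_toFinset.2 (hX x hx)
    _ = p.m * A.card := by rw [Finset.sum_const, smul_eq_mul, mul_comm]

/-- on-time local jobs -/
def on (p : Par) (U : Tag → Finset ℕ) (f : Bool) (t c : ℕ) : Finset ℕ :=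
  (range p.m).filter (fun e => ¬ U (.lo f t c e) = ∅)

theorem mem_of_ne {p : Par} {U : Tag → Finset ℕ} (h : p.IsSlots U) {x : Tag} (hx : ¬ U x = ∅) :
    x ∈ p.tags := by
  by_contra hcon
  exact hx (h.mem x hcon)

theorem main_cap (p : Par) (U : Tag → Finset ℕ) (h : p.IsSlots U) (t c : ℕ) (A : Finset ℕ)
    (α β : ℕ) (hα : ∀ e ∈ on p U false t c, α ≤ (U (.lo false t c e) ∩ A).card)
    (hβ : ∀ e ∈ on p U true t c, β ≤ (U (.lo true t c e) ∩ A).card) (g : Finset Tag)
    (hg : ∀ x ∈ g, isGl x = true ∧ 1 ≤ (U x ∩ A).card) :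
    (on p U false t c).card * α + (on p U true t c).card * β + g.card ≤ p.m * A.card := by
  have i1 : Function.Injective (fun e => Tag.lo false t c e) := by
    intro a b hab
    simpa using hab
  have i2 : Function.Injective (fun e => Tag.lo true t c e) := by
    intro a b hab
    simpa using hab
  obtain ⟨T1, hT1⟩ : ∃ T1, T1 = (on p U false t c).image (fun e => Tag.lo false t c e) := ⟨_, rfl⟩
  obtain ⟨T2, hT2⟩ : ∃ T2, T2 = (on p U true t c).image (fun e => Tag.lo true t c e) := ⟨_, rfl⟩
  have d12 : Disjoint T1 T2 := by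
    rw [Finset.disjoint_left, hT1, hT2]
    intro x h1 h2
    obtain ⟨e, -, rfl⟩ := Finset.mem_image.1 h1
    obtain ⟨e', -, h3⟩ := Finset.mem_image.1 h2
    simp at h3
  have d3 : Disjoint (T1 ∪ T2) g := by
    rw [Finset.disjoint_left, hT1, hT2]
    intro x h1 h2
    have h3 := (hg x h2).1
    rcases Finset.mem_union.1 h1 with h1 | h1
    · obtain ⟨e, -, rfl⟩ := Finset.mem_image.1 h1
      exact absurd h3 (by simp [isGl])
    · obtain ⟨e, -, rfl⟩ := Finset.mem_image.1 h1
      exact absurd h3 (by simp [isGl])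
  have hcap := cap_set p U h (T1 ∪ T2 ∪ g) (by
    intro x hx
    rcases Finset.mem_union.1 hx with hx | hx
    · rcases Finset.mem_union.1 hx with hx | hx
      · rw [hT1] at hx
        obtain ⟨e, he, rfl⟩ := Finset.mem_image.1 hx
        exact mem_of_ne h (Finset.mem_filter.1 he).2
      · rw [hT2] at hx
        obtain ⟨e, he, rfl⟩ := Finset.mem_image.1 hx
        exact mem_of_ne h (Finset.mem_filter.1 he).2
    · refine mem_of_ne h ?_
      intro h0
      have := (hg x hx).2
      rw [h0] at this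
      simp at this) A
  rw [Finset.sum_union d3, Finset.sum_union d12] at hcap
  have s1 : (on p U false t c).card * α ≤ ∑ x ∈ T1, (U x ∩ A).card := by
    rw [hT1, Finset.sum_image (fun a _ b _ hab => i1 hab), ← smul_eq_mul]
    exact Finset.card_nsmul_le_sum _ _ _ hα
  have s2 : (on p U true t c).card * β ≤ ∑ x ∈ T2, (U x ∩ A).card := by
    rw [hT2, Finset.sum_image (fun a _ b _ hab => i2 hab), ← smul_eq_mul]
    exact Finset.card_nsmul_le_sum _ _ _ hβ
  have s3 : g.card ≤ ∑ x ∈ g, (U x ∩ A).card := by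
    calc g.card = g.card • 1 := by simp
      _ ≤ _ := Finset.card_nsmul_le_sum _ _ _ (fun x hx => (hg x hx).2)
  omega

theorem arith {m p1 q1 P Q : ℕ} (hm : 4 ≤ m) (hP : P ≤ 1) (hQ : Q ≤ 1)
    (f1 : p1 * m + q1 * m + (if P + Q = 0 then 0 else 1) ≤ m * (m + 1))
    (f2 : p1 * m + q1 * (m - 1) + Q ≤ m * m) :
    p1 * (m + 1) + q1 * m + P + Q ≤ m * m + m + 1 := by
  obtain ⟨r, rfl⟩ : ∃ r, m = r + 1 := ⟨m - 1, by omega⟩
  rw [Nat.add_sub_cancel] at f2
  have h1 : p1 + q1 ≤ r + 2 := by
    by_contra hcon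
    push Not at hcon
    have : (r + 3) * (r + 1) ≤ (p1 + q1) * (r + 1) := Nat.mul_le_mul_right _ (by omega)
    have h2 : (p1 + q1) * (r + 1) ≤ (r + 1) * (r + 1 + 1) := by
      have : (p1 + q1) * (r + 1) = p1 * (r + 1) + q1 * (r + 1) := by ring
      omega
    nlinarith
  have h3 : p1 ≤ r + 1 := by
    by_contra hcon
    push Not at hcon
    have : (r + 2) * (r + 1) ≤ p1 * (r + 1) := Nat.mul_le_mul_right _ (by omega)
    nlinarith
  by_cases hPQ : P + Q = 0
  · have hP0 : P = 0 := by omega
    have hQ0 : Q = 0 := by omega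
    subst hP0 hQ0
    rcases Nat.lt_or_ge (p1 + q1) (r + 2) with h4 | h4
    · have h5 : (p1 + q1) * (r + 1) ≤ (r + 1) * (r + 1) := Nat.mul_le_mul_right _ (by omega)
      nlinarith
    · have h5 : q1 = r + 2 - p1 := by omega
      have h6 : p1 + q1 = r + 2 := by omega
      have h7 : p1 ≤ 1 := by
        have : p1 * (r + 1) + q1 * r = (p1 + q1) * r + p1 := by ring
        rw [this, h6] at f2
        nlinarith
      have h8 : p1 * (r + 1 + 1) + q1 * (r + 1) = (p1 + q1) * (r + 1) + p1 := by ring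
      rw [h8, h6]
      nlinarith
  · rw [if_neg hPQ] at f1
    have h4 : p1 + q1 ≤ r + 1 := by
      by_contra hcon
      push Not at hcon
      have : (r + 2) * (r + 1) ≤ (p1 + q1) * (r + 1) := Nat.mul_le_mul_right _ (by omega)
      have h5 : (p1 + q1) * (r + 1) = p1 * (r + 1) + q1 * (r + 1) := by ring
      nlinarith
    have h5 : (p1 + q1) * (r + 1) ≤ (r + 1) * (r + 1) := Nat.mul_le_mul_right _ h4
    have h6 : p1 * (r + 1 + 1) + q1 * (r + 1) = (p1 + q1) * (r + 1) + p1 := by ring
    rcases Nat.eq_zero_or_pos Q with hQ0 | hQ0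
    · subst hQ0
      omega
    · have hQ1 : Q = 1 := by omega
      subst hQ1
      have h7 : p1 ≤ r := by
        by_contra hcon
        push Not at hcon
        have : (r + 1) * (r + 1) ≤ p1 * (r + 1) := Nat.mul_le_mul_right _ hcon
        have h8 : 0 ≤ q1 * r := Nat.zero_le _
        omega
      omega

end S1

open S1 in
/-- S1: the local inequality of a block -/
theorem block_ineq (p : Par) (U : Tag → Finset ℕ) (h : p.IsSlots U) {t c : ℕ} (ht : t < p.R)
    (hc : c < p.N) (P Q : Prop) [Decidable P] [Decidable Q]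
    (hP : P → ∃ x, isGl x = true ∧ ∃ τ ∈ U x, τ ∈ p.Blk t c)
    (hQ : Q → ∃ x, isGl x = true ∧ ∃ τ ∈ U x, τ ∈ p.RZ t c) :
    (∑ e ∈ range p.m, ((if U (.lo false t c e) = ∅ then 0 else (p.m + 1) * p.E) +
      (if U (.lo true t c e) = ∅ then 0 else p.m * p.E))) +
      (if P then p.E else 0) + (if Q then p.E else 0) ≤ (p.m * p.m + p.m + 1) * p.E := by
  have hRB : p.RZ t c ⊆ p.Blk t c := by
    intro τ hτ
    unfold Par.RZ at hτ
    unfold Par.Blk
    rw [Finset.mem_Ico] at hτ ⊢
    omega
  have hsum : (∑ e ∈ range p.m, ((if U (.lo false t c e) = ∅ then 0 else (p.m + 1) * p.E) +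
      (if U (.lo true t c e) = ∅ then 0 else p.m * p.E))) =
      (on p U false t c).card * ((p.m + 1) * p.E) + (on p U true t c).card * (p.m * p.E) := by
    rw [Finset.sum_add_distrib]
    congr 1
    · rw [Finset.sum_ite, Finset.sum_const_zero, zero_add, Finset.sum_const, smul_eq_mul]
      rfl
    · rw [Finset.sum_ite, Finset.sum_const_zero, zero_add, Finset.sum_const, smul_eq_mul]
      rfl
  -- jobs
  have jb : ∀ f, ∀ e ∈ on p U f t c, (U (.lo f t c e)).card = p.m ∧ ∀ τ ∈ U (.lo f t c e),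
      p.release (.lo f t c e) ≤ τ ∧ τ < p.due (.lo f t c e) := by
    intro f e he
    exact (h.job (.lo f t c e)).resolve_left (Finset.mem_filter.1 he).2
  have cB : (p.Blk t c).card = p.m + 1 := by
    unfold Par.Blk
    rw [Nat.card_Ico]
    unfold Par.b
    omega
  have cR : (p.RZ t c).card = p.m := by
    unfold Par.RZ
    rw [Nat.card_Ico]
    unfold Par.b
    omega
  have aF : ∀ e ∈ on p U false t c, U (.lo false t c e) ⊆ p.RZ t c := by
    intro e he τ hτ
    have h1 := (jb false e he).2 τ hτ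
    unfold Par.release Par.due at h1
    unfold Par.RZ
    rw [Finset.mem_Ico]
    simpa using h1
  have aT : ∀ e ∈ on p U true t c, U (.lo true t c e) ⊆ p.Blk t c := by
    intro e he τ hτ
    have h1 := (jb true e he).2 τ hτ
    unfold Par.release Par.due at h1
    unfold Par.Blk
    rw [Finset.mem_Ico]
    simpa using h1
  have k1 : ∀ e ∈ on p U false t c, p.m ≤ (U (.lo false t c e) ∩ p.Blk t c).card := by
    intro e he
    rw [Finset.inter_eq_left.2 ((aF e he).trans hRB), (jb false e he).1]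
  have k2 : ∀ e ∈ on p U true t c, p.m ≤ (U (.lo true t c e) ∩ p.Blk t c).card := by
    intro e he
    rw [Finset.inter_eq_left.2 (aT e he), (jb true e he).1]
  have k3 : ∀ e ∈ on p U false t c, p.m ≤ (U (.lo false t c e) ∩ p.RZ t c).card := by
    intro e he
    rw [Finset.inter_eq_left.2 (aF e he), (jb false e he).1]
  have k4 : ∀ e ∈ on p U true t c, p.m - 1 ≤ (U (.lo true t c e) ∩ p.RZ t c).card := by
    intro e he
    have h1 : (U (.lo true t c e)).erase (t * p.L + c * p.b) ⊆ U (.lo true t c e) ∩ p.RZ t c := by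
      intro τ hτ
      rw [Finset.mem_erase] at hτ
      rw [Finset.mem_inter]
      refine ⟨hτ.2, ?_⟩
      have h2 := aT e he hτ.2
      unfold Par.Blk at h2
      unfold Par.RZ
      rw [Finset.mem_Ico] at h2 ⊢
      have h3 := hτ.1
      omega
    have h2 := Finset.card_le_card h1
    have h3 := Finset.pred_card_le_card_erase (s := U (.lo true t c e)) (a := t * p.L + c * p.b)
    rw [(jb true e he).1] at h3
    exact h3.trans h2
  have one : ∀ {A : Finset ℕ} {x : Tag} {τ : ℕ}, τ ∈ U x → τ ∈ A → 1 ≤ (U x ∩ A).card := by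
    intro A x τ h1 h2
    exact Finset.card_pos.2 ⟨τ, Finset.mem_inter.2 ⟨h1, h2⟩⟩
  have f2 : (on p U false t c).card * p.m + (on p U true t c).card * (p.m - 1) +
      (if Q then 1 else 0) ≤ p.m * p.m := by
    by_cases hq : Q
    · obtain ⟨x, hx, τ, h1, h2⟩ := hQ hq
      have h3 := main_cap p U h t c (p.RZ t c) p.m (p.m - 1) k3 k4 {x} (by
        intro y hy
        rw [Finset.mem_singleton] at hy
        subst hy
        exact ⟨hx, one h1 h2⟩)
      rw [cR, Finset.card_singleton] at h3
      rw [if_pos hq]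
      exact h3
    · have h3 := main_cap p U h t c (p.RZ t c) p.m (p.m - 1) k3 k4 ∅ (by simp)
      rw [cR, Finset.card_empty] at h3
      rw [if_neg hq]
      exact h3
  have f1 : (on p U false t c).card * p.m + (on p U true t c).card * p.m +
      (if (if P then 1 else 0) + (if Q then 1 else 0) = 0 then 0 else 1) ≤ p.m * (p.m + 1) := by
    by_cases hpq : P ∨ Q
    · have h0 : ∃ x, isGl x = true ∧ ∃ τ ∈ U x, τ ∈ p.Blk t c := by
        rcases hpq with hp | hq
        · exact hP hp
        · obtain ⟨x, hx, τ, h1, h2⟩ := hQ hq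
          exact ⟨x, hx, τ, h1, hRB h2⟩
      obtain ⟨x, hx, τ, h1, h2⟩ := h0
      have h3 := main_cap p U h t c (p.Blk t c) p.m p.m k1 k2 {x} (by
        intro y hy
        rw [Finset.mem_singleton] at hy
        subst hy
        exact ⟨hx, one h1 h2⟩)
      rw [cB, Finset.card_singleton] at h3
      refine le_trans ?_ h3
      gcongr
      split_ifs <;> omega
    · have h3 := main_cap p U h t c (p.Blk t c) p.m p.m k1 k2 ∅ (by simp)
      rw [cB, Finset.card_empty] at h3
      have hp : ¬ P := fun hp => hpq (Or.inl hp)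
      have hq : ¬ Q := fun hq => hpq (Or.inr hq)
      simp only [hp, hq, if_false]
      simpa using h3
  have hm : 4 ≤ p.m := by unfold Par.m; omega
  have key := arith hm (P := if P then 1 else 0) (Q := if Q then 1 else 0)
    (by split_ifs <;> omega) (by split_ifs <;> omega) f1 f2
  rw [hsum]
  have hPE : (if P then p.E else 0) = (if P then 1 else 0) * p.E := by split_ifs <;> simp
  have hQE : (if Q then p.E else 0) = (if Q then 1 else 0) * p.E := by split_ifs <;> simp
  rw [hPE, hQE]
  calc _ = ((on p U false t c).card * (p.m + 1) + (on p U true t c).card * p.m +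
      (if P then 1 else 0) + (if Q then 1 else 0)) * p.E := by ring
    _ ≤ (p.m * p.m + p.m + 1) * p.E := Nat.mul_le_mul_right _ key

end Pool.Agent.H257R2.OS
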