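import Pool.Agent.H257R2.OS.T1
import Pool.Agent.H257R2.OS.S1

namespace Pool.Agent.H257R2.OS

open Finset

theorem s2_weight_false (p : Par) {t x y : ℕ} (hx : x < p.N) :
    p.weight (.gl false t x y) ≤ p.WC + 2 * p.N := by
  have : p.weight (.gl false t x y) = p.WC + (x + (p.N - 1 - y)) := rfl
  omega

theorem s2_weight_true (p : Par) {t x y : ℕ} (ht : t < p.R) (hx : x < p.N) :
    p.weight (.gl true t x y) ≤ p.R * p.M + 2 * p.N := by
  have h1 : p.weight (.gl true t x y) = (t + 1) * p.M + (x + (p.N - 1 - y)) := rfl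
  have h2 : (t + 1) * p.M ≤ p.R * p.M := Nat.mul_le_mul_right _ ht
  omega

theorem s2_glv_lt (p : Par) (ok : p.Ok) (U : Tag → Finset ℕ) : p.glv U < p.E := by
  refine lt_of_le_of_lt ?_ ok.hE
  unfold Par.glv
  calc ∑ t ∈ range p.R, ∑ x ∈ range p.N, ∑ y ∈ range p.N,
      ((if U (.gl false t x y) = ∅ then 0 else p.weight (.gl false t x y)) +
       (if U (.gl true t x y) = ∅ then 0 else p.weight (.gl true t x y)))
      ≤ ∑ t ∈ range p.R, ∑ x ∈ range p.N, ∑ y ∈ range p.N,
        ((p.WC + 2 * p.N) + (p.R * p.M + 2 * p.N)) := by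
        refine Finset.sum_le_sum fun t ht => Finset.sum_le_sum fun x hx =>
          Finset.sum_le_sum fun y _ => ?_
        rw [Finset.mem_range] at ht hx
        apply Nat.add_le_add
        · split_ifs
          · exact Nat.zero_le _
          · exact s2_weight_false p hx
        · split_ifs
          · exact Nat.zero_le _
          · exact s2_weight_true p ht hx
    _ = p.R * p.N * p.N * (p.WC + 2 * p.N) + p.R * p.N * p.N * (p.R * p.M + 2 * p.N) := by
        simp only [Finset.sum_const, Finset.card_range, smul_eq_mul]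
        ring

theorem s2_glv (p : Par) (U : Tag → Finset ℕ) (h : p.IsSlots U) :
    (∑ t ∈ range p.R, ∑ x ∈ range p.N, ∑ y ∈ range p.N,
      ((if p.rel false t x y = true then
        (if U (.gl false t x y) = ∅ then 0 else p.weight (.gl false t x y)) else 0) +
       (if p.rel true t x y = true then
        (if U (.gl true t x y) = ∅ then 0 else p.weight (.gl true t x y)) else 0))) = p.glv U := by
  unfold Par.glv
  refine Finset.sum_congr rfl fun t _ => Finset.sum_congr rfl fun x _ =>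
    Finset.sum_congr rfl fun y _ => ?_
  have key : ∀ J : Bool, (if p.rel J t x y = true then
      (if U (.gl J t x y) = ∅ then 0 else p.weight (.gl J t x y)) else 0) =
      if U (.gl J t x y) = ∅ then 0 else p.weight (.gl J t x y) := by
    intro J
    by_cases hr : p.rel J t x y = true
    · rw [if_pos hr]
    · have h1 : U (.gl J t x y) = ∅ := h.mem _ (fun h2 => hr ((mem_gl p J t x y).mp h2).2.2.2)
      rw [if_neg hr, if_pos h1]
  rw [key false, key true]

/-- the forced part -/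
def s2A (p : Par) (U : Tag → Finset ℕ) : ℕ :=
  (∑ t ∈ range p.R, ∑ e ∈ range (p.m - 2), if U (.zt t e) = ∅ then 0 else (p.R + 1) * p.E) +
    ∑ t ∈ range p.R, if U (.dd t) = ∅ then 0 else (p.R + 1) * p.E

/-- the local part -/
def s2B (p : Par) (U : Tag → Finset ℕ) : ℕ :=
  ∑ t ∈ range p.R, ∑ c ∈ range p.N, ∑ e ∈ range p.m,
    ((if U (.lo false t c e) = ∅ then 0 else (p.m + 1) * p.E) +
      (if U (.lo true t c e) = ∅ then 0 else p.m * p.E))

theorem s2_value (p : Par) (U : Tag → Finset ℕ) (h : p.IsSlots U) :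
    p.value U = s2A p U + s2B p U + p.glv U := by
  unfold Par.value
  rw [sum_tags, s2_glv p U h]
  rfl

theorem s2_sum_lt {n : ℕ} (f : ℕ → ℕ) (W : ℕ) (hf : ∀ i < n, f i ≤ W) {a : ℕ} (ha : a < n)
    (D : ℕ) (hD : f a + D ≤ W) : (∑ i ∈ range n, f i) + D ≤ n * W := by
  have h1 : ∑ i ∈ range n, f i = ∑ i ∈ (range n).erase a, f i + f a :=
    (Finset.sum_erase_add _ _ (Finset.mem_range.mpr ha)).symm
  have h2 : ∑ i ∈ (range n).erase a, f i ≤ (n - 1) * W := by
    refine (Finset.sum_le_sum fun i hi => hf i (Finset.mem_range.mp (Finset.mem_of_mem_erase hi))).trans ?_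
    rw [Finset.sum_const, Finset.card_erase_of_mem (Finset.mem_range.mpr ha), Finset.card_range,
      smul_eq_mul]
  have h3 : (n - 1) * W + W = n * W := by
    have : n = (n - 1) + 1 := by omega
    conv_rhs => rw [this]
    ring
  omega

theorem s2_sum_le {n : ℕ} (f : ℕ → ℕ) (W : ℕ) (hf : ∀ i < n, f i ≤ W) :
    ∑ i ∈ range n, f i ≤ n * W := by
  refine (Finset.sum_le_sum fun i hi => hf i (Finset.mem_range.mp hi)).trans ?_
  rw [Finset.sum_const, Finset.card_range, smul_eq_mul]

theorem s2_m (p : Par) (ok : p.Ok) : 6 ≤ p.m := by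
  have := ok.hK
  unfold Par.m
  omega

theorem s2_A_le (p : Par) (ok : p.Ok) (U : Tag → Finset ℕ) :
    s2A p U ≤ p.R * (p.m - 1) * ((p.R + 1) * p.E) := by
  have hm := s2_m p ok
  unfold s2A
  have h1 : (∑ t ∈ range p.R, ∑ e ∈ range (p.m - 2),
      if U (.zt t e) = ∅ then 0 else (p.R + 1) * p.E) ≤ p.R * ((p.m - 2) * ((p.R + 1) * p.E)) := by
    apply s2_sum_le
    intro t _
    apply s2_sum_le
    intro e _
    split_ifs <;> omega
  have h2 : (∑ t ∈ range p.R, if U (.dd t) = ∅ then 0 else (p.R + 1) * p.E) ≤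
      p.R * ((p.R + 1) * p.E) := by
    apply s2_sum_le
    intro t _
    split_ifs <;> omega
  have h3 : p.R * ((p.m - 2) * ((p.R + 1) * p.E)) + p.R * ((p.R + 1) * p.E) =
      p.R * (p.m - 1) * ((p.R + 1) * p.E) := by
    have : p.m - 1 = (p.m - 2) + 1 := by omega
    rw [this]
    ring
  omega

theorem s2_A_lt_zt (p : Par) (ok : p.Ok) (U : Tag → Finset ℕ) {t e : ℕ} (ht : t < p.R)
    (he : e < p.m - 2) (hU : U (.zt t e) = ∅) :
    s2A p U + (p.R + 1) * p.E ≤ p.R * (p.m - 1) * ((p.R + 1) * p.E) := by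
  have hm := s2_m p ok
  unfold s2A
  have h1 : (∑ t ∈ range p.R, ∑ e ∈ range (p.m - 2),
      if U (.zt t e) = ∅ then 0 else (p.R + 1) * p.E) + (p.R + 1) * p.E ≤
        p.R * ((p.m - 2) * ((p.R + 1) * p.E)) := by
    refine s2_sum_lt (fun t => ∑ e ∈ range (p.m - 2),
      if U (.zt t e) = ∅ then 0 else (p.R + 1) * p.E) _ ?_ ht _ ?_
    · intro i _
      apply s2_sum_le
      intro e _
      split_ifs <;> omega
    · refine s2_sum_lt (fun e => if U (.zt t e) = ∅ then 0 else (p.R + 1) * p.E) _ ?_ he _ ?_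
      · intro i _
        show (if U (.zt t i) = ∅ then 0 else (p.R + 1) * p.E) ≤ _
        split_ifs <;> omega
      · show (if U (.zt t e) = ∅ then 0 else (p.R + 1) * p.E) + _ ≤ _
        rw [if_pos hU]
        omega
  have h2 : (∑ t ∈ range p.R, if U (.dd t) = ∅ then 0 else (p.R + 1) * p.E) ≤
      p.R * ((p.R + 1) * p.E) := by
    apply s2_sum_le
    intro t _
    split_ifs <;> omega
  have h3 : p.R * ((p.m - 2) * ((p.R + 1) * p.E)) + p.R * ((p.R + 1) * p.E) =
      p.R * (p.m - 1) * ((p.R + 1) * p.E) := by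
    have : p.m - 1 = (p.m - 2) + 1 := by omega
    rw [this]
    ring
  omega

theorem s2_A_lt_dd (p : Par) (ok : p.Ok) (U : Tag → Finset ℕ) {t : ℕ} (ht : t < p.R)
    (hU : U (.dd t) = ∅) :
    s2A p U + (p.R + 1) * p.E ≤ p.R * (p.m - 1) * ((p.R + 1) * p.E) := by
  have hm := s2_m p ok
  unfold s2A
  have h1 : (∑ t ∈ range p.R, ∑ e ∈ range (p.m - 2),
      if U (.zt t e) = ∅ then 0 else (p.R + 1) * p.E) ≤ p.R * ((p.m - 2) * ((p.R + 1) * p.E)) := by
    apply s2_sum_le
    intro t _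
    apply s2_sum_le
    intro e _
    split_ifs <;> omega
  have h2 : (∑ t ∈ range p.R, if U (.dd t) = ∅ then 0 else (p.R + 1) * p.E) +
      (p.R + 1) * p.E ≤ p.R * ((p.R + 1) * p.E) := by
    refine s2_sum_lt (fun t => if U (.dd t) = ∅ then 0 else (p.R + 1) * p.E) _ ?_ ht _ ?_
    · intro i _
      show (if U (.dd i) = ∅ then 0 else (p.R + 1) * p.E) ≤ _
      split_ifs <;> omega
    · show (if U (.dd t) = ∅ then 0 else (p.R + 1) * p.E) + _ ≤ _
      rw [if_pos hU]
      omega
  have h3 : p.R * ((p.m - 2) * ((p.R + 1) * p.E)) + p.R * ((p.R + 1) * p.E) =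
      p.R * (p.m - 1) * ((p.R + 1) * p.E) := by
    have : p.m - 1 = (p.m - 2) + 1 := by omega
    rw [this]
    ring
  omega

/-- a block of the region `t` is touched by `dd t` -/
theorem s2_P (p : Par) (ok : p.Ok) (U : Tag → Finset ℕ) (h : p.IsSlots U) {t : ℕ}
    (hU : U (.dd t) ≠ ∅) : ∃ c < p.N, ∃ τ ∈ U (.dd t), τ ∈ p.Blk t c := by
  have hm := s2_m p ok
  rcases h.job (.dd t) with h1 | ⟨hcard, hwin⟩
  · exact absurd h1 hU
  by_contra hcon
  push Not at hcon
  have hsub : U (.dd t) ⊆ Finset.Ico (t * p.L + p.N * p.b) (t * p.L + p.N * p.b + (p.m - 1)) := by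
    intro τ hτ
    obtain ⟨h2, h3⟩ := hwin τ hτ
    have h2' : t * p.L ≤ τ := h2
    have h3' : τ < t * p.L + p.N * p.b + (p.m - 1) := h3
    rw [Finset.mem_Ico]
    refine ⟨?_, h3'⟩
    by_contra h4
    push Not at h4
    have hb : 0 < p.b := by unfold Par.b; omega
    have h5 : (τ - t * p.L) / p.b < p.N := by
      rw [Nat.div_lt_iff_lt_mul hb]
      omega
    apply hcon _ h5 τ hτ
    unfold Par.Blk
    rw [Finset.mem_Ico]
    have h6 := Nat.div_add_mod (τ - t * p.L) p.b
    have h7 := Nat.mod_lt (τ - t * p.L) hb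
    rw [mul_comm] at h6
    omega
  have h8 := Finset.card_le_card hsub
  rw [hcard, Nat.card_Ico] at h8
  omega

/-- S2, with the local inequality of the blocks as a hypothesis -/
theorem opened_of (p : Par) (ok : p.Ok) (U : Tag → Finset ℕ) (h : p.IsSlots U)
    (hS1 : ∀ t < p.R, ∀ c < p.N, ∀ (P Q : Prop) [Decidable P] [Decidable Q],
      (P → ∃ x, isGl x = true ∧ ∃ τ ∈ U x, τ ∈ p.Blk t c) →
      (Q → ∃ x, isGl x = true ∧ ∃ τ ∈ U x, τ ∈ p.RZ t c) →
      (∑ e ∈ range p.m, ((if U (.lo false t c e) = ∅ then 0 else (p.m + 1) * p.E) +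
        (if U (.lo true t c e) = ∅ then 0 else p.m * p.E))) +
        (if P then p.E else 0) + (if Q then p.E else 0) ≤ (p.m * p.m + p.m + 1) * p.E)
    (hT : p.target ≤ p.value U) :
    (∀ t < p.R, ∀ e < p.m - 2, U (.zt t e) ≠ ∅) ∧ (∀ t < p.R, U (.dd t) ≠ ∅) ∧
    p.targetC ≤ p.glv U ∧
    ∃ z : ℕ → ℕ, (∀ t < p.R, z t < p.N) ∧ ∀ x, isGl x = true → ∀ τ ∈ U x,
      ∀ t < p.R, ∀ c < p.N, τ ∈ p.Blk t c → τ = t * p.L + z t * p.b := by
  classical
  have hm := s2_m p ok
  have hG := s2_glv_lt p ok U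
  have hval := s2_value p U h
  have hA := s2_A_le p ok U
  set P : ℕ → ℕ → Prop := fun t c => ∃ x, isGl x = true ∧ ∃ τ ∈ U x, τ ∈ p.Blk t c with hP
  set Q : ℕ → ℕ → Prop := fun t c => ∃ x, isGl x = true ∧ ∃ τ ∈ U x, τ ∈ p.RZ t c with hQ
  set nP : ℕ → ℕ := fun t => ∑ c ∈ range p.N, if P t c then 1 else 0 with hnP
  set nQ : ℕ → ℕ := fun t => ∑ c ∈ range p.N, if Q t c then 1 else 0 with hnQ
  set W : ℕ := (p.m * p.m + p.m + 1) * p.E with hW
  -- the local inequality, summed
  have hB : s2B p U + (∑ t ∈ range p.R, (nP t + nQ t)) * p.E ≤ p.R * (p.N * W) := by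
    have h1 : s2B p U + (∑ t ∈ range p.R, (nP t + nQ t)) * p.E =
        ∑ t ∈ range p.R, ∑ c ∈ range p.N, ((∑ e ∈ range p.m,
          ((if U (.lo false t c e) = ∅ then 0 else (p.m + 1) * p.E) +
            (if U (.lo true t c e) = ∅ then 0 else p.m * p.E))) +
          (if P t c then p.E else 0) + (if Q t c then p.E else 0)) := by
      unfold s2B
      rw [Finset.sum_mul, ← Finset.sum_add_distrib]
      refine Finset.sum_congr rfl fun t _ => ?_
      simp only [hnP, hnQ]
      have e0 : ((∑ c ∈ range p.N, if P t c then 1 else 0) +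
          ∑ c ∈ range p.N, if Q t c then 1 else 0) * p.E =
          ∑ c ∈ range p.N, ((if P t c then p.E else 0) + (if Q t c then p.E else 0)) := by
        rw [← Finset.sum_add_distrib, Finset.sum_mul]
        refine Finset.sum_congr rfl fun c _ => ?_
        by_cases hp : P t c <;> by_cases hq : Q t c <;> simp [hp, hq] <;> ring
      rw [e0, ← Finset.sum_add_distrib]
      refine Finset.sum_congr rfl fun c _ => ?_
      rw [add_assoc]
    rw [h1]
    apply s2_sum_le
    intro t ht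
    apply s2_sum_le
    intro c hc
    exact hS1 t ht c hc (P t c) (Q t c) id id
  have hN1 := ok.hN
  have hRNW : p.R * (p.N * W) = p.R * ((p.N - 1) * W + (p.m * p.m + p.m) * p.E) + p.R * p.E := by
    have e1 : W = (p.m * p.m + p.m) * p.E + p.E := by rw [hW]; ring
    have e2 : p.N * W = (p.N - 1) * W + W := by
      have : p.N = (p.N - 1) + 1 := by omega
      conv_lhs => rw [this]
      ring
    rw [e2]
    conv_lhs => rw [e1]
    conv_rhs => rw [e1]
    ring
  have htarget : p.target = p.R * (p.m - 1) * ((p.R + 1) * p.E) +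
      p.R * ((p.N - 1) * W + (p.m * p.m + p.m) * p.E) + p.targetC := rfl
  have hRE : (p.R + 1) * p.E = p.R * p.E + p.E := by ring
  -- the forced jobs
  have hforced : s2A p U + (p.R + 1) * p.E ≤ p.R * (p.m - 1) * ((p.R + 1) * p.E) → False := by
    intro h1
    generalize p.R * (p.m - 1) * ((p.R + 1) * p.E) = a at *
    generalize p.R * ((p.N - 1) * W + (p.m * p.m + p.m) * p.E) = b at *
    generalize (∑ t ∈ range p.R, (nP t + nQ t)) * p.E = d at *
    omega
  have hzt : ∀ t < p.R, ∀ e < p.m - 2, U (.zt t e) ≠ ∅ := fun t ht e he hU =>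
    hforced (s2_A_lt_zt p ok U ht he hU)
  have hdd : ∀ t < p.R, U (.dd t) ≠ ∅ := fun t ht hU => hforced (s2_A_lt_dd p ok U ht hU)
  -- every region has an open block
  have hex : ∀ t, ∃ c, t < p.R → c < p.N ∧ P t c := by
    intro t
    by_cases ht : t < p.R
    · obtain ⟨c, hc, τ, hτ, hτ2⟩ := s2_P p ok U h (hdd t ht)
      exact ⟨c, fun _ => ⟨hc, .dd t, rfl, τ, hτ, hτ2⟩⟩
    · exact ⟨0, fun h' => absurd h' ht⟩
  choose z hz using hex
  have hnP1 : ∀ t < p.R, 1 ≤ nP t := by
    intro t ht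
    have := Finset.single_le_sum (f := fun c => if P t c then 1 else 0)
      (fun _ _ => Nat.zero_le _) (Finset.mem_range.mpr (hz t ht).1)
    simp only [(hz t ht).2, if_true] at this
    exact this
  -- the count
  have hcnt : p.targetC + (∑ t ∈ range p.R, (nP t + nQ t)) * p.E ≤ p.R * p.E + p.glv U := by
    generalize p.R * (p.m - 1) * ((p.R + 1) * p.E) = a at *
    generalize p.R * ((p.N - 1) * W + (p.m * p.m + p.m) * p.E) = b at *
    generalize (∑ t ∈ range p.R, (nP t + nQ t)) * p.E = d at *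
    omega
  have hle : ∑ t ∈ range p.R, (nP t + nQ t) ≤ p.R := by
    have h1 : (∑ t ∈ range p.R, (nP t + nQ t)) * p.E < (p.R + 1) * p.E := by omega
    have h2 := Nat.lt_of_mul_lt_mul_right h1
    omega
  have hge : p.R ≤ ∑ t ∈ range p.R, (nP t + nQ t) := by
    have : ∑ t ∈ range p.R, 1 ≤ ∑ t ∈ range p.R, (nP t + nQ t) := by
      refine Finset.sum_le_sum fun t ht => ?_
      have := hnP1 t (Finset.mem_range.mp ht)
      omega
    simpa using this
  have heq : ∑ t ∈ range p.R, (nP t + nQ t) = p.R := le_antisymm hle hge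
  have hone : ∀ t < p.R, nP t + nQ t = 1 := by
    have h1 : ∑ t ∈ range p.R, 1 = ∑ t ∈ range p.R, (nP t + nQ t) := by
      rw [heq]; simp
    have h2 := (Finset.sum_eq_sum_iff_of_le (fun t ht => by
      have := hnP1 t (Finset.mem_range.mp ht)
      omega)).mp h1
    intro t ht
    exact (h2 t (Finset.mem_range.mpr ht)).symm
  have hC : p.targetC ≤ p.glv U := by
    rw [heq] at hcnt
    omega
  refine ⟨hzt, hdd, hC, z, fun t ht => (hz t ht).1, ?_⟩
  intro x hx τ hτ t ht c hc hblk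
  have hPc : P t c := ⟨x, hx, τ, hτ, hblk⟩
  have h1 := hone t ht
  have h2 := hnP1 t ht
  have hcz : c = z t := by
    by_contra hne
    have hsub : ({c, z t} : Finset ℕ) ⊆ range p.N := by
      intro i hi
      rw [Finset.mem_insert, Finset.mem_singleton] at hi
      rcases hi with rfl | rfl
      · exact Finset.mem_range.mpr hc
      · exact Finset.mem_range.mpr (hz t ht).1
    have h3 := Finset.sum_le_sum_of_subset (f := fun c => if P t c then 1 else 0) hsub
    rw [Finset.sum_pair hne] at h3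
    simp only [hPc, (hz t ht).2, if_true] at h3
    have h4 : 1 + 1 ≤ nP t := h3
    omega
  have hnQc : ¬ Q t c := by
    intro hq
    have := Finset.single_le_sum (f := fun c => if Q t c then 1 else 0)
      (fun _ _ => Nat.zero_le _) (Finset.mem_range.mpr hc)
    simp only [hq, if_true] at this
    have h4 : 1 ≤ nQ t := this
    omega
  rw [← hcz]
  unfold Par.Blk at hblk
  rw [Finset.mem_Ico] at hblk
  by_contra hne
  apply hnQc
  refine ⟨x, hx, τ, hτ, ?_⟩
  unfold Par.RZ
  rw [Finset.mem_Ico]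
  omega

/-- S2: exactly one block of every region is open -/
theorem opened (p : Par) (ok : p.Ok) (U : Tag → Finset ℕ) (h : p.IsSlots U)
    (hT : p.target ≤ p.value U) :
    (∀ t < p.R, ∀ e < p.m - 2, U (.zt t e) ≠ ∅) ∧ (∀ t < p.R, U (.dd t) ≠ ∅) ∧
    p.targetC ≤ p.glv U ∧
    ∃ z : ℕ → ℕ, (∀ t < p.R, z t < p.N) ∧ ∀ x, isGl x = true → ∀ τ ∈ U x,
      ∀ t < p.R, ∀ c < p.N, τ ∈ p.Blk t c → τ = t * p.L + z t * p.b :=
  opened_of p ok U h (fun t ht c hc P Q _ _ hP hQ => block_ineq p U h ht hc P Q hP hQ) hT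

end Pool.Agent.H257R2.OS
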