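import Pool.Agent.H257R2.OS.T1
import Pool.Agent.H257R2.OS.Prob
import Pool.Agent.H257R2.LJW.Clique

namespace Pool.Agent.H257R2.OS.Stub

open Finset Pool.Agent.H633R2

/-- S1: the local inequality of a block -/
theorem block_ineq (p : Par) (U : Tag → Finset ℕ) (h : p.IsSlots U) {t c : ℕ} (ht : t < p.R)
    (hc : c < p.N) (P Q : Prop) [Decidable P] [Decidable Q]
    (hP : P → ∃ x, isGl x = true ∧ ∃ τ ∈ U x, τ ∈ p.Blk t c)
    (hQ : Q → ∃ x, isGl x = true ∧ ∃ τ ∈ U x, τ ∈ p.RZ t c) :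
    (∑ e ∈ range p.m, ((if U (.lo false t c e) = ∅ then 0 else (p.m + 1) * p.E) +
      (if U (.lo true t c e) = ∅ then 0 else p.m * p.E))) +
      (if P then p.E else 0) + (if Q then p.E else 0) ≤ (p.m * p.m + p.m + 1) * p.E := by
  sorry

/-- S2: exactly one block of every region is open -/
theorem opened (p : Par) (ok : p.Ok) (U : Tag → Finset ℕ) (h : p.IsSlots U)
    (hT : p.target ≤ p.value U) :
    (∀ t < p.R, ∀ e < p.m - 2, U (.zt t e) ≠ ∅) ∧ (∀ t < p.R, U (.dd t) ≠ ∅) ∧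
    p.targetC ≤ p.glv U ∧
    ∃ z : ℕ → ℕ, (∀ t < p.R, z t < p.N) ∧ ∀ x, isGl x = true → ∀ τ ∈ U x,
      ∀ t < p.R, ∀ c < p.N, τ ∈ p.Blk t c → τ = t * p.L + z t * p.b := by
  sorry

/-- S3a -/
theorem dd_zone (p : Par) (ok : p.Ok) (U : Tag → Finset ℕ) (h : p.IsSlots U) (z : ℕ → ℕ)
    (hz : p.Opn U z) {t : ℕ} (ht : t < p.R) (hU : U (.dd t) ≠ ∅) :
    p.m - 1 ≤ ((U (.dd t)).filter p.isZ).card ∧
      ∀ τ ∈ (U (.dd t)).filter p.isZ, τ / p.L = t := by
  sorry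

/-- S3b -/
theorem gl_zone (p : Par) (ok : p.Ok) (U : Tag → Finset ℕ) (h : p.IsSlots U) (z : ℕ → ℕ)
    (hz : p.Opn U z) {J : Bool} {t x y : ℕ} (ht : t < p.R) (hU : U (.gl J t x y) ≠ ∅) :
    p.m ≤ ((U (.gl J t x y)).filter p.isZ).card + (p.span J + 1) ∧
    (∀ τ ∈ (U (.gl J t x y)).filter p.isZ, t ≤ τ / p.L ∧ (J = false → τ / p.L = t)) ∧
    (((U (.gl J t x y)).filter p.isZ).card + (p.span J + 1) ≤ p.m →
      p.sg z t ∈ U (.gl J t x y) ∧ p.sg z (t + p.span J) ∈ U (.gl J t x y)) := by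
  sorry

/-- S4a: capacity of one zone -/
theorem zone_one (p : Par) (ok : p.Ok) (U : Tag → Finset ℕ) (h : p.IsSlots U)
    (hzt : ∀ t < p.R, ∀ e < p.m - 2, U (.zt t e) ≠ ∅) {t : ℕ} (ht : t < p.R) :
    ((U (.dd t)).filter fun τ => p.isZ τ ∧ τ / p.L = t).card +
      ∑ x ∈ range p.N, ∑ y ∈ range p.N,
        ((U (.gl false t x y)).filter fun τ => p.isZ τ ∧ τ / p.L = t).card ≤ 2 * p.m := by
  sorry

/-- S4b: capacity of the zones from region `n` on -/
theorem zone_ge (p : Par) (ok : p.Ok) (U : Tag → Finset ℕ) (h : p.IsSlots U)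
    (hzt : ∀ t < p.R, ∀ e < p.m - 2, U (.zt t e) ≠ ∅) {n : ℕ} (hn : n ≤ p.R) :
    ∑ t ∈ Ico n p.R, (((U (.dd t)).filter fun τ => p.isZ τ ∧ n ≤ τ / p.L).card +
      ∑ x ∈ range p.N, ∑ y ∈ range p.N,
        (((U (.gl false t x y)).filter fun τ => p.isZ τ ∧ n ≤ τ / p.L).card +
        ((U (.gl true t x y)).filter fun τ => p.isZ τ ∧ n ≤ τ / p.L).card)) ≤
      2 * p.m * (p.R - n) := by
  sorry

/-- S5: arithmetic of the counts -/
theorem counts_one {R N M WC m : ℕ} (c d r : ℕ → ℕ) (hm : 6 ≤ m)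
    (h1 : ∀ t < R, (m - 1) + (m - 2) * c t ≤ 2 * m)
    (h2 : ∀ n ≤ R, ∑ t ∈ Ico n R, ((m - 1) + (m - 2) * c t + 3 * d t) ≤ 2 * m * (R - n))
    (h3 : ∀ t < R, d t ≤ N * N)
    (hr : ∀ t < R, r t ≤ 2 * N * (c t + d t))
    (hT : R * WC + M * (R * (R + 1) / 2) ≤
      ∑ t ∈ range R, (c t * WC + d t * ((t + 1) * M) + r t))
    (hM : 4 * R * N < M)
    (hWC : R * N * N * (R * M + 2 * N) + 2 * R * N < WC) :
    ∀ t < R, c t = 1 ∧ d t = 1 := by
  sorry

/-- S6: identity of the rewards -/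
theorem reward_sum (p : Par) (ok : p.Ok) (z : ℕ → ℕ) (hz : ∀ t < p.R, z t < p.N) (J : Bool) :
    ∑ t ∈ range p.R, (p.xv z J t + (p.N - 1 - p.yv z J t)) = (p.R - p.span J) * (p.N - 1) := by
  sorry

/-- S7: soundness -/
theorem sound (p : Par) (ok : p.Ok) (U : Tag → Finset ℕ) (h : p.IsSlots U)
    (hT : p.target ≤ p.value U) : ∃ z, p.Solves z := by
  sorry

/-- C1: on-time jobs are inside their windows -/
theorem st_window (p : Par) (ok : p.Ok) (hodd : p.m % 2 = 1) (z : ℕ → ℕ) (hz : p.Solves z) {x : Tag}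
    (hx : x ∈ p.tags) (ho : p.on z x) {i : ℕ} (hi : i < p.m) :
    p.release x ≤ p.st z x i ∧ p.st z x i < p.due x := by
  sorry

/-- C2: a job is not on two machines at the same time -/
theorem st_job (p : Par) (ok : p.Ok) (hodd : p.m % 2 = 1) (z : ℕ → ℕ) (hz : p.Solves z) {x : Tag}
    (hx : x ∈ p.tags) (ho : p.on z x) {i i' : ℕ} (hi : i < p.m) (hi' : i' < p.m)
    (h : p.st z x i = p.st z x i') : i = i' := by
  sorry

/-- C3: a machine does not process two jobs at the same time -/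
theorem st_machine (p : Par) (ok : p.Ok) (hodd : p.m % 2 = 1) (z : ℕ → ℕ) (hz : p.Solves z)
    {x y : Tag} (hx : x ∈ p.tags) (hox : p.on z x) (hy : y ∈ p.tags) (hoy : p.on z y) {i : ℕ}
    (hi : i < p.m) (h : p.st z x i = p.st z y i) : x = y := by
  sorry

/-- C4: the value -/
theorem on_value (p : Par) (ok : p.Ok) (z : ℕ → ℕ) (hz : p.Solves z) :
    (p.tags.map fun x => if p.on z x then p.weight x else 0).sum = p.target := by
  sorry

/-- C5: `target ≤ total` -/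
theorem target_le (p : Par) (ok : p.Ok) : p.target ≤ (p.tags.map p.weight).sum := by
  sorry

/-- X1: from a schedule to slots -/
theorem slots_of_schedule (p : Par) (B : ℕ) (h : OpenShopInt ((p.m, p.jobs), B)) :
    ∃ U, p.IsSlots U ∧ (p.tags.map p.weight).sum ≤ B + p.value U := by
  sorry

/-- X2: from the start times of the on-time jobs to a schedule -/
theorem schedule_of_st (p : Par) (B : ℕ) (on : Tag → Prop) [DecidablePred on] (st : Tag → ℕ → ℕ)
    (h1 : ∀ x ∈ p.tags, on x → ∀ i < p.m, p.release x ≤ st x i ∧ st x i < p.due x)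
    (h2 : ∀ x ∈ p.tags, on x → ∀ i < p.m, ∀ i' < p.m, st x i = st x i' → i = i')
    (h3 : ∀ x ∈ p.tags, ∀ y ∈ p.tags, on x → on y → ∀ i < p.m, st x i = st y i → x = y)
    (hB : (p.tags.map p.weight).sum ≤ B + (p.tags.map fun x => if on x then p.weight x else 0).sum) :
    OpenShopInt ((p.m, p.jobs), B) := by
  sorry

/-- X3: integer start times suffice -/
theorem openShop_iff_int (I : (ℕ × List (ℕ × ℤ × ℕ)) × ℕ) : OpenShop I ↔ OpenShopInt I := by
  sorry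

/-- G1 -/
theorem parG_ok (n k : ℕ) (adj : ℕ → ℕ → Bool) :
    (parG n k adj).Ok ∧ (parG n k adj).m % 2 = 1 := by
  sorry

/-- G2 -/
theorem solves_iff (n k : ℕ) (adj : ℕ → ℕ → Bool) :
    (∃ z, (parG n k adj).Solves z) ↔
      ∃ v : ℕ → ℕ, (∀ i < k, v i < n) ∧ ∀ i < k, ∀ j < k, i ≠ j → adj (v i) (v j) = true := by
  sorry

/-- G3 -/
theorem clique_iff (x : List (List Bool) × ℕ) : HasClique x ↔
    ∃ v : ℕ → ℕ, (∀ i < x.2, v i < x.1.length) ∧
      ∀ i < x.2, ∀ j < x.2, i ≠ j → adjM x.1 (v i) (v j) = true := by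
  sorry

open Pool.Agent.NPC in
/-- P: the reduction is computable in polynomial time -/
theorem redG_poly : Poly redG := by
  sorry

end Pool.Agent.H257R2.OS.Stub
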