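import Pool.Agent.H257R2.OS.Defs

namespace Pool.Agent.H257R2.OS

open Finset

theorem sum_map_range (n : ℕ) (f : ℕ → ℕ) :
    ((List.range n).map f).sum = ∑ i ∈ range n, f i := by
  induction n with
  | zero => simp
  | succ n ih => rw [List.range_succ, List.map_append, List.sum_append, ih, Finset.sum_range_succ]; simp

theorem sum_flatMap_range {α : Type} (n : ℕ) (g : ℕ → List α) (f : α → ℕ) :
    (((List.range n).flatMap g).map f).sum = ∑ i ∈ range n, ((g i).map f).sum := by
  induction n with
  | zero => simp
  | succ n ih =>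
    rw [List.range_succ, List.flatMap_append, List.map_append, List.sum_append, ih,
      Finset.sum_range_succ]
    simp

/-- T1 -/
theorem sum_tags (p : Par) (f : Tag → ℕ) : (p.tags.map f).sum =
    (∑ t ∈ range p.R, ∑ e ∈ range (p.m - 2), f (.zt t e)) + (∑ t ∈ range p.R, f (.dd t)) +
    (∑ t ∈ range p.R, ∑ c ∈ range p.N, ∑ e ∈ range p.m, (f (.lo false t c e) + f (.lo true t c e))) +
    (∑ t ∈ range p.R, ∑ x ∈ range p.N, ∑ y ∈ range p.N,
      ((if p.rel false t x y = true then f (.gl false t x y) else 0) +
       (if p.rel true t x y = true then f (.gl true t x y) else 0))) := by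
  unfold Par.tags
  rw [List.map_append, List.sum_append, List.map_append, List.sum_append, List.map_append,
    List.sum_append, sum_flatMap_range, sum_flatMap_range, sum_flatMap_range, List.map_map,
    sum_map_range, ← add_assoc, ← add_assoc]
  congr 1
  · congr 1
    · congr 1
      refine Finset.sum_congr rfl fun t _ => ?_
      rw [List.map_map, sum_map_range]
      rfl
    · refine Finset.sum_congr rfl fun t _ => ?_
      rw [sum_flatMap_range]
      refine Finset.sum_congr rfl fun c _ => ?_
      rw [sum_flatMap_range]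
      refine Finset.sum_congr rfl fun e _ => ?_
      simp
  · refine Finset.sum_congr rfl fun t _ => ?_
    rw [sum_flatMap_range]
    refine Finset.sum_congr rfl fun c _ => ?_
    rw [sum_flatMap_range]
    refine Finset.sum_congr rfl fun e _ => ?_
    rw [List.map_append, List.sum_append]
    congr 1
    · split_ifs <;> simp
    · split_ifs <;> simp

theorem mem_zt (p : Par) (t e : ℕ) : Tag.zt t e ∈ p.tags ↔ t < p.R ∧ e < p.m - 2 := by
  unfold Par.tags
  simp only [List.mem_append, List.mem_flatMap, List.mem_map, List.mem_range, List.mem_cons,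
    Tag.zt.injEq, reduceCtorEq, List.not_mem_nil, or_false, and_false, exists_false, false_or]
  constructor
  · rintro (⟨a, ha, e', he', h1, h2⟩ | ⟨a, ha, x, hx, y, hy, h⟩)
    · subst h1 h2; exact ⟨ha, he'⟩
    · rcases h with h | h <;> split_ifs at h <;> simp at h
  · rintro ⟨h1, h2⟩
    exact Or.inl ⟨t, h1, e, h2, rfl, rfl⟩

theorem mem_dd (p : Par) (t : ℕ) : Tag.dd t ∈ p.tags ↔ t < p.R := by
  unfold Par.tags
  simp only [List.mem_append, List.mem_flatMap, List.mem_map, List.mem_range, List.mem_cons,
    Tag.dd.injEq, reduceCtorEq, List.not_mem_nil, or_false, and_false, exists_false, false_or]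
  constructor
  · rintro (⟨a, ha, h⟩ | ⟨a, ha, x, hx, y, hy, h⟩)
    · subst h; exact ha
    · rcases h with h | h <;> split_ifs at h <;> simp at h
  · intro h
    exact Or.inl ⟨t, h, rfl⟩

theorem mem_lo (p : Par) (f : Bool) (t c e : ℕ) :
    Tag.lo f t c e ∈ p.tags ↔ t < p.R ∧ c < p.N ∧ e < p.m := by
  unfold Par.tags
  simp only [List.mem_append, List.mem_flatMap, List.mem_map, List.mem_range, List.mem_cons,
    Tag.lo.injEq, reduceCtorEq, List.not_mem_nil, or_false, and_false, exists_false, false_or]
  constructor
  · rintro (⟨a, ha, c', hc', e', he', h⟩ | ⟨a, ha, x, hx, y, hy, h⟩)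
    · rcases h with ⟨_, h1, h2, h3⟩ | ⟨_, h1, h2, h3⟩ <;> subst h1 h2 h3 <;>
        exact ⟨ha, hc', he'⟩
    · rcases h with h | h <;> split_ifs at h <;> simp at h
  · rintro ⟨h1, h2, h3⟩
    refine Or.inl ⟨t, h1, c, h2, e, h3, ?_⟩
    cases f <;> simp

theorem mem_gl (p : Par) (J : Bool) (t x y : ℕ) :
    Tag.gl J t x y ∈ p.tags ↔ t < p.R ∧ x < p.N ∧ y < p.N ∧ p.rel J t x y = true := by
  unfold Par.tags
  simp only [List.mem_append, List.mem_flatMap, List.mem_map, List.mem_range, List.mem_cons,
    reduceCtorEq, List.not_mem_nil, or_false, and_false, exists_false, false_or]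
  constructor
  · rintro ⟨a, ha, x', hx', y', hy', h⟩
    rcases h with h | h
    · split_ifs at h with h1
      · simp only [List.mem_cons, Tag.gl.injEq, List.not_mem_nil, or_false] at h
        obtain ⟨rfl, rfl, rfl, rfl⟩ := h
        exact ⟨ha, hx', hy', h1⟩
      · simp at h
    · split_ifs at h with h1
      · simp only [List.mem_cons, Tag.gl.injEq, List.not_mem_nil, or_false] at h
        obtain ⟨rfl, rfl, rfl, rfl⟩ := h
        exact ⟨ha, hx', hy', h1⟩
      · simp at h
  · rintro ⟨h1, h2, h3, h4⟩
    refine ⟨t, h1, x, h2, y, h3, ?_⟩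
    cases J
    · left; rw [if_pos h4]; simp
    · right; rw [if_pos h4]; simp

theorem sum_ite_le_one (n : ℕ) (P : ℕ → Prop) [DecidablePred P] (f : ℕ → ℕ)
    (a : ℕ) (hf : f a ≤ 1) (hP : ∀ i, i ≠ a → f i = 0) : ∑ i ∈ range n, f i ≤ 1 := by
  by_cases ha : a ∈ range n
  · rw [Finset.sum_eq_single a (fun i _ hi => hP i hi) (fun h => absurd ha h)]
    exact hf
  · rw [Finset.sum_eq_zero]
    · exact Nat.zero_le 1
    · intro i hi
      exact hP i (fun h => ha (h ▸ hi))

theorem nodup_tags (p : Par) : p.tags.Nodup := by
  rw [List.nodup_iff_count_le_one]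
  intro x
  have h1 : p.tags.count x = (p.tags.map fun y => if y = x then 1 else 0).sum := by
    induction p.tags with
    | nil => simp
    | cons a l ih =>
      rw [List.count_cons, List.map_cons, List.sum_cons, ih, add_comm]
      congr 1
      by_cases h : a = x
      · simp [h]
      · simp [h]
  rw [h1, sum_tags]
  rcases x with ⟨t, e⟩ | t | ⟨f, t, c, e⟩ | ⟨J, t, x, y⟩
  · simp only [Tag.zt.injEq, reduceCtorEq, if_false, Finset.sum_const_zero, add_zero, ite_self]
    refine sum_ite_le_one _ (fun _ => True) _ t ?_ ?_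
    · refine sum_ite_le_one _ (fun _ => True) _ e ?_ ?_
      · split_ifs <;> simp
      · intro i hi; rw [if_neg]; simp [hi]
    · intro i hi
      refine Finset.sum_eq_zero fun j _ => ?_
      rw [if_neg]; simp [hi]
  · simp only [Tag.dd.injEq, reduceCtorEq, if_false, Finset.sum_const_zero, add_zero, ite_self,
      zero_add]
    refine sum_ite_le_one _ (fun _ => True) _ t ?_ ?_
    · split_ifs <;> simp
    · intro i hi; rw [if_neg hi]
  · simp only [Tag.lo.injEq, reduceCtorEq, if_false, Finset.sum_const_zero, add_zero, ite_self,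
      zero_add]
    refine sum_ite_le_one _ (fun _ => True) _ t ?_ ?_
    · refine sum_ite_le_one _ (fun _ => True) _ c ?_ ?_
      · refine sum_ite_le_one _ (fun _ => True) _ e ?_ ?_
        · cases f <;> simp
        · intro i hi; simp [hi]
      · intro i hi
        refine Finset.sum_eq_zero fun j _ => ?_
        simp [hi]
    · intro i hi
      refine Finset.sum_eq_zero fun j _ => Finset.sum_eq_zero fun j' _ => ?_
      simp [hi]
  · simp only [Tag.gl.injEq, reduceCtorEq, if_false, Finset.sum_const_zero, add_zero, ite_self,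
      zero_add]
    refine sum_ite_le_one _ (fun _ => True) _ t ?_ ?_
    · refine sum_ite_le_one _ (fun _ => True) _ x ?_ ?_
      · refine sum_ite_le_one _ (fun _ => True) _ y ?_ ?_
        · cases J <;> simp <;> split_ifs <;> simp
        · intro i hi; simp [hi]
      · intro i hi
        refine Finset.sum_eq_zero fun j _ => ?_
        simp [hi]
    · intro i hi
      refine Finset.sum_eq_zero fun j _ => Finset.sum_eq_zero fun j' _ => ?_
      simp [hi]

end Pool.Agent.H257R2.OS
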